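import Mathlib

/-!
# Propagation of lower bounds between vertical lines
-/

set_option autoImplicit false

open Complex Set Filter Topology Asymptotics

namespace Pool.Agent.helper21.SG

/-- If `F` is bounded by `1` on `Re z ≥ X/16` and is at most `e^{-D}` on a long vertical segment
with abscissa `X`, then it is at most `e^{-9D/20}` at the point at the same height with
abscissa `X/2`. -/
lemma three_lines {F : ℂ → ℂ} (hF : Differentiable ℂ F) {X D y1 : ℝ} (hX : 0 < X) (hD : 0 < D)
    (hb : ∀ z : ℂ, X / 16 ≤ z.re → ‖F z‖ ≤ 1)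
    (hs : ∀ y : ℝ, |y - y1| ≤ 4 * X → ‖F (X + y * I)‖ ≤ Real.exp (-D)) :
    ‖F ((X / 2 : ℝ) + y1 * I)‖ ≤ Real.exp (-(9 / 20) * D) := by
  set z1 : ℂ := (X / 2 : ℝ) + y1 * I with hz1
  set A : ℝ := 16 / 15 * D / X with hA
  set δ : ℝ := D / (15 * X ^ 2) with hδ
  have hApos : 0 < A := by positivity
  have hδpos : 0 < δ := by positivity
  have hz1re : z1.re = X / 2 := by simp [hz1]
  have hz1im : z1.im = y1 := by simp [hz1]
  set G : ℂ → ℂ := fun z => F z * exp (A * (z - (X / 16 : ℝ))) * exp (δ * (z - z1) ^ 2) with hG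
  have hnorm : ∀ z : ℂ, ‖G z‖ = ‖F z‖ * Real.exp (A * (z.re - X / 16)) *
      Real.exp (δ * ((z.re - X / 2) ^ 2 - (z.im - y1) ^ 2)) := by
    intro z
    simp only [hG, norm_mul, Complex.norm_exp]
    congr 3
    · simp
    · rw [re_ofReal_mul, sq, mul_re, sub_re, sub_im, hz1re, hz1im]
      ring
  have hδX : δ * X ^ 2 = D / 15 := by
    rw [hδ]
    field_simp
  have hAX : A * X = 16 / 15 * D := by
    rw [hA]
    field_simp
  have hC : ∀ z : ℂ, z.re = X / 16 → ‖G z‖ ≤ Real.exp (D / 60) := by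
    intro z hz
    rw [hnorm, hz, sub_self, mul_zero, Real.exp_zero, mul_one]
    have h1 := hb z hz.ge
    have h2 : δ * ((X / 16 - X / 2) ^ 2 - (z.im - y1) ^ 2) ≤ D / 60 := by
      have : δ * (z.im - y1) ^ 2 ≥ 0 := by positivity
      nlinarith
    calc ‖F z‖ * Real.exp (δ * ((X / 16 - X / 2) ^ 2 - (z.im - y1) ^ 2))
        ≤ 1 * Real.exp (D / 60) := by gcongr
      _ = _ := one_mul _
  have hC' : ∀ z : ℂ, z.re = X → ‖G z‖ ≤ Real.exp (D / 60) := by
    intro z hz
    rw [hnorm, hz]
    have hzeq : z = X + z.im * I := by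
      apply Complex.ext <;> simp [hz]
    have e1 : A * (X - X / 16) = D := by
      have : A * (X - X / 16) = (15 / 16) * (A * X) := by ring
      rw [this, hAX]
      ring
    rw [e1]
    by_cases hy : |z.im - y1| ≤ 4 * X
    · have h1 := hs z.im hy
      rw [← hzeq] at h1
      have h2 : δ * ((X - X / 2) ^ 2 - (z.im - y1) ^ 2) ≤ D / 60 := by
        have : δ * (z.im - y1) ^ 2 ≥ 0 := by positivity
        nlinarith
      calc ‖F z‖ * Real.exp D * Real.exp (δ * ((X - X / 2) ^ 2 - (z.im - y1) ^ 2))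
          ≤ Real.exp (-D) * Real.exp D * Real.exp (D / 60) := by gcongr
        _ = _ := by rw [← Real.exp_add, neg_add_cancel, Real.exp_zero, one_mul]
    · push Not at hy
      have h1 := hb z (by rw [hz]; linarith)
      have h2 : 16 * X ^ 2 ≤ (z.im - y1) ^ 2 := by
        have h3 : (4 * X) ^ 2 ≤ |z.im - y1| ^ 2 := by gcongr
        rw [sq_abs] at h3
        nlinarith
      have h3 : δ * ((X - X / 2) ^ 2 - (z.im - y1) ^ 2) ≤ -D := by
        have : δ * (16 * X ^ 2) ≤ δ * (z.im - y1) ^ 2 := by gcongr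
        nlinarith
      calc ‖F z‖ * Real.exp D * Real.exp (δ * ((X - X / 2) ^ 2 - (z.im - y1) ^ 2))
          ≤ 1 * Real.exp D * Real.exp (-D) := by gcongr
        _ = 1 := by rw [one_mul, ← Real.exp_add, add_neg_cancel, Real.exp_zero]
        _ ≤ _ := Real.one_le_exp (by positivity)
  have hGd : Differentiable ℂ G := by
    simp only [hG]
    fun_prop
  have hmain : ‖G z1‖ ≤ Real.exp (D / 60) := by
    refine PhragmenLindelof.vertical_strip (a := X / 16) (b := X) hGd.diffContOnCl ?_ hC hC'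
      (by rw [hz1re]; linarith) (by rw [hz1re]; linarith)
    refine ⟨0, by
      have : 0 < X - X / 16 := by linarith
      positivity, 0, ?_⟩
    refine IsBigO.of_bound (Real.exp (A * X) * Real.exp (δ * X ^ 2)) ?_
    refine Filter.Eventually.filter_mono inf_le_right ?_
    rw [Filter.eventually_principal]
    intro z hz
    have hz' : z.re ∈ Ioo (X / 16) X := hz
    rw [hnorm]
    have h1 := hb z hz'.1.le
    simp only [zero_mul, Real.exp_zero, norm_one, mul_one]
    have h2 : A * (z.re - X / 16) ≤ A * X := by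
      have := hz'.2
      gcongr
      linarith
    have h3 : δ * ((z.re - X / 2) ^ 2 - (z.im - y1) ^ 2) ≤ δ * X ^ 2 := by
      have h4 : (z.re - X / 2) ^ 2 ≤ X ^ 2 := by
        have := hz'.1
        have := hz'.2
        nlinarith
      gcongr
      nlinarith [sq_nonneg (z.im - y1)]
    calc ‖F z‖ * Real.exp (A * (z.re - X / 16)) *
          Real.exp (δ * ((z.re - X / 2) ^ 2 - (z.im - y1) ^ 2))
        ≤ 1 * Real.exp (A * X) * Real.exp (δ * X ^ 2) := by gcongr
      _ = _ := by rw [one_mul]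
  rw [hnorm, hz1re, hz1im] at hmain
  have e2 : A * (X / 2 - X / 16) = 7 / 15 * D := by
    have : A * (X / 2 - X / 16) = (7 / 16) * (A * X) := by ring
    rw [this, hAX]
    ring
  rw [e2] at hmain
  simp only [sub_self, ne_eq, OfNat.ofNat_ne_zero, not_false_eq_true, zero_pow, mul_zero,
    Real.exp_zero, mul_one] at hmain
  have h5 : ‖F z1‖ = ‖F z1‖ * Real.exp (7 / 15 * D) * Real.exp (-(7 / 15 * D)) := by
    rw [mul_assoc, ← Real.exp_add, add_neg_cancel, Real.exp_zero, mul_one]
  rw [h5]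
  calc ‖F z1‖ * Real.exp (7 / 15 * D) * Real.exp (-(7 / 15 * D))
      ≤ Real.exp (D / 60) * Real.exp (-(7 / 15 * D)) := by gcongr
    _ = Real.exp (-(9 / 20) * D) := by
      rw [← Real.exp_add]
      congr 1
      ring

end Pool.Agent.helper21.SG
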