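import Mathlib

/-!
# Green's formula for periodic functions, and the regularised logarithm of an entire function
-/

set_option autoImplicit false

open Complex MeasureTheory Set Filter Topology ComplexConjugate

namespace Pool.Agent.helper21.SG

/-- Twice the `∂/∂z̄` derivative. -/
noncomputable def db (f : ℂ → ℂ) (z : ℂ) : ℂ := fderiv ℝ f z 1 + I * fderiv ℝ f z I

lemma green_periodic {L : ℝ} (f g : ℂ → ℂ) (hf : Differentiable ℝ f)
    (hg : Continuous g) (hfg : ∀ z, db f z = g z)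
    (hper : ∀ z, f (z + L * I) = f z) (x1 x2 : ℝ) :
    (∫ y in (0:ℝ)..L, f (x2 + y * I)) - (∫ y in (0:ℝ)..L, f (x1 + y * I)) =
      ∫ x in x1..x2, ∫ y in (0:ℝ)..L, g (x + y * I) := by
  have hkey : ∀ z, I • fderiv ℝ f z 1 - fderiv ℝ f z I = I * g z := by
    intro z
    rw [← hfg, db, smul_eq_mul]
    ring_nf
    rw [I_sq]
    ring
  have h := Complex.integral_boundary_rect_of_differentiableOn_real f (x1 : ℂ) (x2 + L * I)
    hf.differentiableOn (by
      have : (fun z => I • fderiv ℝ f z 1 - fderiv ℝ f z I) = fun z => I * g z := funext hkey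
      rw [this]
      refine ContinuousOn.integrableOn_compact ?_ (by fun_prop)
      exact (isCompact_uIcc).reProdIm isCompact_uIcc)
  simp only [hkey] at h
  simp only [ofReal_re, ofReal_im, add_re, mul_re, I_re, mul_zero, I_im, mul_one, sub_self,
    add_zero, add_im, mul_im, zero_add, ofReal_zero, zero_mul] at h
  have h1 : ∀ x : ℝ, f (↑x + ↑L * I) = f ↑x := fun x => hper x
  simp only [h1, sub_self, zero_add, smul_eq_mul] at h
  have h2 : I * ((∫ y in (0:ℝ)..L, f (x2 + y * I)) - (∫ y in (0:ℝ)..L, f (x1 + y * I))) =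
      I * ∫ x in x1..x2, ∫ y in (0:ℝ)..L, g (x + y * I) := by
    rw [mul_sub, h, ← intervalIntegral.integral_const_mul]
    refine intervalIntegral.integral_congr fun x _ => ?_
    exact intervalIntegral.integral_const_mul _ _
  exact mul_left_cancel₀ I_ne_zero h2

lemma fderiv_eq_of_line {f : ℂ → ℂ} {z v d : ℂ} (hf : DifferentiableAt ℝ f z)
    (h : HasDerivAt (fun t : ℝ => f (z + t * v)) d 0) : fderiv ℝ f z v = d := by
  have h1 : HasDerivAt (fun t : ℝ => z + (t : ℂ) * v) v 0 := by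
    have := ((hasDerivAt_id (0 : ℝ)).ofReal_comp).mul_const v
    simpa using this.const_add z
  have h2 : HasFDerivAt f (fderiv ℝ f z) (z + ((0 : ℝ) : ℂ) * v) := by
    simpa using hf.hasFDerivAt
  have h3 := h2.comp_hasDerivAt (0 : ℝ) h1
  exact h3.unique h

/-- Derivative of a holomorphic function along a line. -/
lemma line_deriv {F : ℂ → ℂ} (hF : Differentiable ℂ F) (z v : ℂ) :
    HasDerivAt (fun t : ℝ => F (z + t * v)) (deriv F z * v) 0 := by
  have h1 : HasDerivAt (fun t : ℝ => z + (t : ℂ) * v) v 0 := by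
    have := ((hasDerivAt_id (0 : ℝ)).ofReal_comp).mul_const v
    simpa using this.const_add z
  have h2 : HasDerivAt F (deriv F z) (z + ((0 : ℝ) : ℂ) * v) := by
    simpa using (hF z).hasDerivAt
  exact h2.comp (0 : ℝ) h1

/-- The regularised quotient `H conj F / (|F|^2 + ε^2)`. -/
noncomputable def Wf (F H : ℂ → ℂ) (ε : ℝ) (z : ℂ) : ℂ :=
  H z * conj (F z) / (F z * conj (F z) + (ε : ℂ) ^ 2)

lemma den_eq (F : ℂ → ℂ) (ε : ℝ) (z : ℂ) :
    F z * conj (F z) + (ε : ℂ) ^ 2 = ((‖F z‖ ^ 2 + ε ^ 2 : ℝ) : ℂ) := by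
  rw [Complex.mul_conj, Complex.normSq_eq_norm_sq]
  push_cast
  ring

lemma den_ne {ε : ℝ} (hε : 0 < ε) (F : ℂ → ℂ) (z : ℂ) :
    F z * conj (F z) + (ε : ℂ) ^ 2 ≠ 0 := by
  rw [den_eq]
  exact_mod_cast (by positivity : (0:ℝ) < ‖F z‖ ^ 2 + ε ^ 2).ne'

lemma differentiable_real_of_complex {F : ℂ → ℂ} (hF : Differentiable ℂ F) :
    Differentiable ℝ F := hF.restrictScalars ℝ

lemma differentiable_conj {F : ℂ → ℂ} (hF : Differentiable ℂ F) :
    Differentiable ℝ fun z => conj (F z) :=
  Complex.conjCLE.differentiable.comp (differentiable_real_of_complex hF)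

lemma differentiable_Wf {F H : ℂ → ℂ} (hF : Differentiable ℂ F) (hH : Differentiable ℂ H)
    {ε : ℝ} (hε : 0 < ε) : Differentiable ℝ (Wf F H ε) := by
  unfold Wf
  have h1 : Differentiable ℝ fun z => H z * conj (F z) :=
    (differentiable_real_of_complex hH).mul (differentiable_conj hF)
  have h2 : Differentiable ℝ fun z => F z * conj (F z) + (ε : ℂ) ^ 2 :=
    ((differentiable_real_of_complex hF).mul (differentiable_conj hF)).add_const _
  simp only [div_eq_mul_inv]
  exact h1.mul (h2.inv fun z => den_ne hε F z)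

lemma db_Wf {F H : ℂ → ℂ} (hF : Differentiable ℂ F) (hH : Differentiable ℂ H)
    {ε : ℝ} (hε : 0 < ε) (z : ℂ) :
    db (Wf F H ε) z = 2 * H z * (ε : ℂ) ^ 2 * conj (deriv F z) /
      (F z * conj (F z) + (ε : ℂ) ^ 2) ^ 2 := by
  have hd := den_ne hε F z
  have key : ∀ v : ℂ, fderiv ℝ (Wf F H ε) z v =
      ((deriv H z * v * conj (F z) + H z * conj (deriv F z * v)) *
        (F z * conj (F z) + (ε : ℂ) ^ 2) - H z * conj (F z) *
        (deriv F z * v * conj (F z) + F z * conj (deriv F z * v))) /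
      (F z * conj (F z) + (ε : ℂ) ^ 2) ^ 2 := by
    intro v
    refine fderiv_eq_of_line ((differentiable_Wf hF hH hε) z) ?_
    have h1 := line_deriv hF z v
    have h2 := line_deriv hH z v
    have h3 : HasDerivAt (fun t : ℝ => conj (F (z + t * v))) (conj (deriv F z * v)) 0 := h1.star
    have hd' : F (z + ((0:ℝ):ℂ) * v) * conj (F (z + ((0:ℝ):ℂ) * v)) + (ε : ℂ) ^ 2 ≠ 0 := by
      simpa using hd
    have h4 := (h2.fun_mul h3).fun_div ((h1.fun_mul h3).add_const ((ε : ℂ) ^ 2)) hd'
    refine HasDerivAt.congr_deriv h4 ?_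
    simp
  rw [db, key, key]
  simp only [map_mul, conj_I, mul_one]
  field_simp
  ring_nf
  simp only [I_sq]
  ring

end Pool.Agent.helper21.SG
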