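import Mathlib
import Pool.Agent.helper21.SG.Green

/-!
# The mean of the regularised logarithm over vertical lines
-/

set_option autoImplicit false

open Complex MeasureTheory Set Filter Topology ComplexConjugate

namespace Pool.Agent.helper21.SG

/-- `log √(|F|^2 + ε^2)`. -/
noncomputable def lg (F : ℂ → ℂ) (ε : ℝ) (z : ℂ) : ℝ := (1 / 2) * Real.log (‖F z‖ ^ 2 + ε ^ 2)

/-- Mean over a period on the vertical line with abscissa `x`. -/
noncomputable def mn (L : ℝ) (g : ℂ → ℝ) (x : ℝ) : ℝ := L⁻¹ * ∫ y in (0:ℝ)..L, g (x + y * I)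

noncomputable def en (F : ℂ → ℂ) (ε : ℝ) (z : ℂ) : ℝ :=
  ε ^ 2 * ‖deriv F z‖ ^ 2 / (‖F z‖ ^ 2 + ε ^ 2) ^ 2

lemma line_deriv_lg {F : ℂ → ℂ} (hF : Differentiable ℂ F) {ε : ℝ} (hε : 0 < ε) (z v : ℂ) :
    HasDerivAt (fun t : ℝ => lg F ε (z + t * v))
      ((deriv F z * v * conj (F z)).re / (‖F z‖ ^ 2 + ε ^ 2)) 0 := by
  have h1 := line_deriv hF z v
  have hre : HasDerivAt (fun t : ℝ => (F (z + t * v)).re) (deriv F z * v).re 0 :=
    (Complex.reCLM.hasFDerivAt.comp_hasDerivAt (0:ℝ) h1)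
  have him : HasDerivAt (fun t : ℝ => (F (z + t * v)).im) (deriv F z * v).im 0 :=
    (Complex.imCLM.hasFDerivAt.comp_hasDerivAt (0:ℝ) h1)
  have h2 : HasDerivAt (fun t : ℝ => (F (z + t * v)).re ^ 2 + (F (z + t * v)).im ^ 2 + ε ^ 2)
      (2 * (F z).re * (deriv F z * v).re + 2 * (F z).im * (deriv F z * v).im) 0 := by
    have := ((hre.fun_pow 2).add (him.fun_pow 2)).add_const (ε ^ 2)
    refine HasDerivAt.congr_deriv this ?_
    simp
  have hpos : ∀ t : ℝ, 0 < (F (z + t * v)).re ^ 2 + (F (z + t * v)).im ^ 2 + ε ^ 2 :=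
    fun t => by positivity
  have h3 := ((h2.log (hpos 0).ne').const_mul (1 / 2))
  have heq : (fun t : ℝ => lg F ε (z + t * v)) = fun t : ℝ => (1 / 2) *
      Real.log ((F (z + t * v)).re ^ 2 + (F (z + t * v)).im ^ 2 + ε ^ 2) := by
    funext t
    rw [lg, ← Complex.normSq_eq_norm_sq, Complex.normSq_apply]
    ring_nf
  rw [heq]
  refine HasDerivAt.congr_deriv h3 ?_
  have hz : ‖F z‖ ^ 2 = (F z).re ^ 2 + (F z).im ^ 2 := by
    rw [← Complex.normSq_eq_norm_sq, Complex.normSq_apply]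
    ring
  rw [hz]
  simp only [ofReal_zero, zero_mul, add_zero, mul_re, conj_re, conj_im, mul_im]
  have : (F z).re ^ 2 + (F z).im ^ 2 + ε ^ 2 ≠ 0 := by positivity
  field_simp
  ring

lemma differentiable_lg {F : ℂ → ℂ} (hF : Differentiable ℂ F) {ε : ℝ} (hε : 0 < ε) :
    Differentiable ℝ (lg F ε) := by
  unfold lg
  have h1 : Differentiable ℝ fun z => ‖F z‖ ^ 2 :=
    (differentiable_real_of_complex hF).norm_sq ℝ
  refine (Differentiable.log (h1.add_const _) fun z => ?_).const_mul _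
  positivity

lemma db_lg {F : ℂ → ℂ} (hF : Differentiable ℂ F) {ε : ℝ} (hε : 0 < ε) (z : ℂ) :
    db (fun z => (lg F ε z : ℂ)) z = conj (Wf F (deriv F) ε z) := by
  have hd : Differentiable ℝ fun z => (lg F ε z : ℂ) :=
    Complex.ofRealCLM.differentiable.comp (differentiable_lg hF hε)
  have key : ∀ v : ℂ, fderiv ℝ (fun z => (lg F ε z : ℂ)) z v =
      (((deriv F z * v * conj (F z)).re / (‖F z‖ ^ 2 + ε ^ 2) : ℝ) : ℂ) := fun v =>
    fderiv_eq_of_line (hd z) ((line_deriv_lg hF hε z v).ofReal_comp)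
  rw [db, key, key, Wf, map_div₀, den_eq, conj_ofReal]
  push_cast
  rw [mul_div_assoc', ← add_div]
  congr 1
  apply Complex.ext <;> simp <;> ring

lemma continuous_Wf {F H : ℂ → ℂ} (hF : Differentiable ℂ F) (hH : Differentiable ℂ H)
    {ε : ℝ} (hε : 0 < ε) : Continuous (Wf F H ε) := (differentiable_Wf hF hH hε).continuous

lemma differentiable_deriv' {F : ℂ → ℂ} (hF : Differentiable ℂ F) : Differentiable ℂ (deriv F) := by
  intro z
  exact (hF.analyticAt z).deriv.differentiableAt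

lemma continuous_en {F : ℂ → ℂ} (hF : Differentiable ℂ F) {ε : ℝ} (hε : 0 < ε) :
    Continuous (en F ε) := by
  unfold en
  have h1 := (differentiable_deriv' hF).continuous
  have h2 := hF.continuous
  refine Continuous.div (by fun_prop) (by fun_prop) fun z => ?_
  positivity

lemma continuous_lg {F : ℂ → ℂ} (hF : Differentiable ℂ F) {ε : ℝ} (hε : 0 < ε) :
    Continuous (lg F ε) := (differentiable_lg hF hε).continuous

lemma deriv_periodic {F : ℂ → ℂ} {c : ℂ} (hper : ∀ z, F (z + c) = F z) (z : ℂ) :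
    deriv F (z + c) = deriv F z := by
  have h : (fun z => F (z + c)) = F := funext hper
  have h2 := deriv_comp_add_const F c z
  rw [h] at h2
  exact h2.symm

lemma db_Wf_self {F : ℂ → ℂ} (hF : Differentiable ℂ F) {ε : ℝ} (hε : 0 < ε) (z : ℂ) :
    db (Wf F (deriv F) ε) z = ((2 * en F ε z : ℝ) : ℂ) := by
  rw [db_Wf hF (differentiable_deriv' hF) hε, den_eq, en]
  push_cast
  have h : deriv F z * conj (deriv F z) = (‖deriv F z‖ : ℂ) ^ 2 := by
    rw [Complex.mul_conj, Complex.normSq_eq_norm_sq]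
    push_cast
    ring
  rw [mul_div_assoc']
  congr 1
  rw [← h]
  ring

/-- Mean of `Re (F' conj F / (|F|^2 + ε^2))`, which is the derivative of the mean of `lg`. -/
noncomputable def Qf (L : ℝ) (F : ℂ → ℂ) (ε : ℝ) (x : ℝ) : ℝ :=
  mn L (fun z => (Wf F (deriv F) ε z).re) x

lemma mn_continuous {L : ℝ} {g : ℂ → ℝ} (hg : Continuous g) : Continuous (mn L g) := by
  unfold mn
  refine continuous_const.mul ?_
  exact intervalIntegral.continuous_parametric_intervalIntegral_of_continuous' (by fun_prop) _ _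

lemma mn_lg_sub {L : ℝ} {F : ℂ → ℂ} (hF : Differentiable ℂ F)
    (hper : ∀ z, F (z + L * I) = F z) {ε : ℝ} (hε : 0 < ε) (x1 x2 : ℝ) :
    mn L (lg F ε) x2 - mn L (lg F ε) x1 = ∫ x in x1..x2, Qf L F ε x := by
  have hd : Differentiable ℝ fun z => (lg F ε z : ℂ) :=
    Complex.ofRealCLM.differentiable.comp (differentiable_lg hF hε)
  have hc := continuous_Wf hF (differentiable_deriv' hF) hε
  have h := green_periodic (L := L) (fun z => (lg F ε z : ℂ)) (fun z => conj (Wf F (deriv F) ε z)) hd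
    (by fun_prop) (db_lg hF hε) (fun z => by simp only [lg, hper]) x1 x2
  have h2 := congrArg Complex.re h
  simp only [sub_re] at h2
  have e1 : ∀ x : ℝ, (∫ y in (0:ℝ)..L, (lg F ε (x + y * I) : ℂ)).re
      = ∫ y in (0:ℝ)..L, lg F ε (x + y * I) := by
    intro x
    rw [intervalIntegral.integral_ofReal, ofReal_re]
  rw [e1, e1] at h2
  have hcont : Continuous fun x : ℝ => ∫ y in (0:ℝ)..L, conj (Wf F (deriv F) ε (x + y * I)) :=
    intervalIntegral.continuous_parametric_intervalIntegral_of_continuous' (by fun_prop) _ _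
  have e2 : (∫ x in x1..x2, ∫ y in (0:ℝ)..L, conj (Wf F (deriv F) ε (x + y * I))).re =
      ∫ x in x1..x2, ∫ y in (0:ℝ)..L, (Wf F (deriv F) ε (x + y * I)).re := by
    have h3 := Complex.reCLM.intervalIntegral_comp_comm (hcont.intervalIntegrable (μ := volume) x1 x2)
    simp only [reCLM_apply] at h3
    rw [← h3]
    refine intervalIntegral.integral_congr fun x _ => ?_
    have hcont2 : Continuous fun y : ℝ => conj (Wf F (deriv F) ε (x + y * I)) := by fun_prop
    have h4 := Complex.reCLM.intervalIntegral_comp_comm (hcont2.intervalIntegrable (μ := volume) 0 L)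
    simp only [reCLM_apply, conj_re] at h4
    exact h4.symm
  rw [e2] at h2
  simp only [mn, Qf]
  rw [← mul_sub, h2, intervalIntegral.integral_const_mul]

lemma Qf_sub {L : ℝ} {F : ℂ → ℂ} (hF : Differentiable ℂ F)
    (hper : ∀ z, F (z + L * I) = F z) {ε : ℝ} (hε : 0 < ε) (x1 x2 : ℝ) :
    Qf L F ε x2 - Qf L F ε x1 = 2 * ∫ x in x1..x2, mn L (en F ε) x := by
  have hd := differentiable_Wf hF (differentiable_deriv' hF) hε
  have hc := continuous_Wf hF (differentiable_deriv' hF) hε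
  have hen := continuous_en hF hε
  have h := green_periodic (L := L) (Wf F (deriv F) ε) (fun z => ((2 * en F ε z : ℝ) : ℂ)) hd
    (by fun_prop) (db_Wf_self hF hε) (fun z => by simp only [Wf, hper, deriv_periodic hper]) x1 x2
  have h2 := congrArg Complex.re h
  simp only [sub_re] at h2
  have e1 : ∀ x : ℝ, (∫ y in (0:ℝ)..L, Wf F (deriv F) ε (x + y * I)).re
      = ∫ y in (0:ℝ)..L, (Wf F (deriv F) ε (x + y * I)).re := by
    intro x
    have hcont2 : Continuous fun y : ℝ => (Wf F (deriv F) ε (x + y * I)) := by fun_prop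
    have h4 := Complex.reCLM.intervalIntegral_comp_comm (hcont2.intervalIntegrable (μ := volume) 0 L)
    simp only [reCLM_apply] at h4
    exact h4.symm
  rw [e1, e1] at h2
  have e2 : (∫ x in x1..x2, ∫ y in (0:ℝ)..L, ((2 * en F ε (x + y * I) : ℝ) : ℂ)).re =
      ∫ x in x1..x2, ∫ y in (0:ℝ)..L, 2 * en F ε (x + y * I) := by
    have : ∀ x : ℝ, (∫ y in (0:ℝ)..L, ((2 * en F ε (x + y * I) : ℝ) : ℂ)) =
        ((∫ y in (0:ℝ)..L, 2 * en F ε (x + y * I) : ℝ) : ℂ) := fun x =>
      intervalIntegral.integral_ofReal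
    simp only [this]
    rw [intervalIntegral.integral_ofReal, ofReal_re]
  rw [e2] at h2
  simp only [mn, Qf]
  rw [← mul_sub, h2, ← intervalIntegral.integral_const_mul, ← intervalIntegral.integral_const_mul]
  refine intervalIntegral.integral_congr fun x _ => ?_
  have h5 : (∫ y in (0:ℝ)..L, 2 * en F ε (x + y * I)) = 2 * ∫ y in (0:ℝ)..L, en F ε (x + y * I) :=
    intervalIntegral.integral_const_mul _ _
  show L⁻¹ * (∫ y in (0:ℝ)..L, 2 * en F ε (x + y * I)) =
    2 * (L⁻¹ * ∫ y in (0:ℝ)..L, en F ε (x + y * I))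
  rw [h5]
  ring

end Pool.Agent.helper21.SG
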