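import Mathlib
import Pool.Agent.helper21.SG.LogMean

/-!
# Energy bound and variation of the mean of the regularised quotient
-/

set_option autoImplicit false

open Complex MeasureTheory Set Filter Topology ComplexConjugate

namespace Pool.Agent.helper21.SG

lemma mn_mono {L : ℝ} (hL : 0 < L) {g h : ℂ → ℝ} (hg : Continuous g) (hh : Continuous h) {x : ℝ}
    (hle : ∀ y : ℝ, g (x + y * I) ≤ h (x + y * I)) : mn L g x ≤ mn L h x := by
  unfold mn
  refine mul_le_mul_of_nonneg_left ?_ (by positivity)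
  refine intervalIntegral.integral_mono_on hL.le ?_ ?_ fun y _ => hle y
  · exact (by fun_prop : Continuous fun y : ℝ => g (x + y * I)).intervalIntegrable _ _
  · exact (by fun_prop : Continuous fun y : ℝ => h (x + y * I)).intervalIntegrable _ _

lemma mn_const {L : ℝ} (hL : 0 < L) (c x : ℝ) : mn L (fun _ => c) x = c := by
  simp only [mn, intervalIntegral.integral_const, sub_zero, smul_eq_mul]
  field_simp

lemma mn_nonneg {L : ℝ} (hL : 0 < L) {g : ℂ → ℝ} {x : ℝ}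
    (h0 : ∀ y : ℝ, 0 ≤ g (x + y * I)) : 0 ≤ mn L g x := by
  unfold mn
  refine mul_nonneg (by positivity) ?_
  exact intervalIntegral.integral_nonneg hL.le fun y _ => h0 y

lemma lg_le {F : ℂ → ℂ} {ε : ℝ} (hε : 0 < ε) (hε1 : ε ≤ 1) {z : ℂ} (hF : ‖F z‖ ≤ 1) :
    lg F ε z ≤ 1 / 2 := by
  unfold lg
  have h1 : Real.log (‖F z‖ ^ 2 + ε ^ 2) ≤ ‖F z‖ ^ 2 + ε ^ 2 - 1 :=
    Real.log_le_sub_one_of_pos (by positivity)
  have h2 : ‖F z‖ ^ 2 ≤ 1 := by
    have := norm_nonneg (F z)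
    nlinarith
  have h3 : ε ^ 2 ≤ 1 := by nlinarith
  linarith

lemma le_lg {F : ℂ → ℂ} {ε : ℝ} (hε : 0 < ε) (z : ℂ) : Real.log ε ≤ lg F ε z := by
  unfold lg
  have h1 : Real.log (ε ^ 2) ≤ Real.log (‖F z‖ ^ 2 + ε ^ 2) :=
    Real.log_le_log (by positivity) (by nlinarith [norm_nonneg (F z)])
  rw [Real.log_pow] at h1
  push_cast at h1
  linarith

lemma en_nonneg (F : ℂ → ℂ) (ε : ℝ) (z : ℂ) : 0 ≤ en F ε z := by
  unfold en
  positivity

variable {L : ℝ} {F : ℂ → ℂ}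

lemma Qf_mono (hL : 0 < L) (hF : Differentiable ℂ F) (hper : ∀ z, F (z + L * I) = F z) {ε : ℝ}
    (hε : 0 < ε) {x1 x2 : ℝ} (h12 : x1 ≤ x2) : Qf L F ε x1 ≤ Qf L F ε x2 := by
  have h := Qf_sub hF hper hε x1 x2
  have h2 : 0 ≤ ∫ x in x1..x2, mn L (en F ε) x :=
    intervalIntegral.integral_nonneg h12 fun x _ => mn_nonneg hL fun y => en_nonneg _ _ _
  linarith

lemma continuous_Qf (hF : Differentiable ℂ F) {ε : ℝ} (hε : 0 < ε) : Continuous (Qf L F ε) := by
  have hc := continuous_Wf hF (differentiable_deriv' hF) hε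
  exact mn_continuous (Complex.continuous_re.comp hc)

lemma Qf_le (hL : 0 < L) (hF : Differentiable ℂ F) (hper : ∀ z, F (z + L * I) = F z) {ε : ℝ}
    (hε : 0 < ε) {x1 x2 : ℝ} (h12 : x1 ≤ x2) :
    mn L (lg F ε) x2 - mn L (lg F ε) x1 ≤ (x2 - x1) * Qf L F ε x2 := by
  rw [mn_lg_sub hF hper hε]
  have : ∫ x in x1..x2, Qf L F ε x ≤ ∫ _ in x1..x2, Qf L F ε x2 := by
    refine intervalIntegral.integral_mono_on h12 ((continuous_Qf hF hε).intervalIntegrable _ _)
      (by simp) fun x hx => Qf_mono hL hF hper hε hx.2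
  simpa using this

lemma le_Qf (hL : 0 < L) (hF : Differentiable ℂ F) (hper : ∀ z, F (z + L * I) = F z) {ε : ℝ}
    (hε : 0 < ε) {x1 x2 : ℝ} (h12 : x1 ≤ x2) :
    (x2 - x1) * Qf L F ε x1 ≤ mn L (lg F ε) x2 - mn L (lg F ε) x1 := by
  rw [mn_lg_sub hF hper hε]
  have : ∫ _ in x1..x2, Qf L F ε x1 ≤ ∫ x in x1..x2, Qf L F ε x := by
    refine intervalIntegral.integral_mono_on h12 (by simp)
      ((continuous_Qf hF hε).intervalIntegrable _ _) fun x hx => Qf_mono hL hF hper hε hx.1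
  simpa using this

lemma mn_lg_le (hL : 0 < L) (hF : Differentiable ℂ F) {ε : ℝ} (hε : 0 < ε) (hε1 : ε ≤ 1) {x : ℝ}
    (hb : ∀ y : ℝ, ‖F (x + y * I)‖ ≤ 1) : mn L (lg F ε) x ≤ 1 / 2 := by
  rw [← mn_const hL (1 / 2) x]
  exact mn_mono hL (continuous_lg hF hε) continuous_const fun y => lg_le hε hε1 (hb y)

lemma Qf_nonpos (hL : 0 < L) (hF : Differentiable ℂ F) (hper : ∀ z, F (z + L * I) = F z) {ε : ℝ}
    (hε : 0 < ε) (hε1 : ε ≤ 1) {x : ℝ} (hb : ∀ x' : ℝ, x ≤ x' → ∀ y : ℝ, ‖F (x' + y * I)‖ ≤ 1) :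
    Qf L F ε x ≤ 0 := by
  by_contra hcon
  push Not at hcon
  set q := Qf L F ε x with hq
  have key : ∀ t : ℝ, 0 ≤ t → t * q ≤ 1 / 2 - mn L (lg F ε) x := by
    intro t ht
    have h1 := le_Qf hL hF hper hε (x1 := x) (x2 := x + t) (by linarith)
    have h2 := mn_lg_le hL hF hε hε1 (x := x + t) (hb (x + t) (by linarith))
    have : (x + t - x) * Qf L F ε x = t * q := by rw [hq]; ring
    linarith
  have h3 := key ((|1 / 2 - mn L (lg F ε) x| + 1) / q) (by positivity)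
  rw [div_mul_cancel₀ _ hcon.ne'] at h3
  have := le_abs_self (1 / 2 - mn L (lg F ε) x)
  linarith

/-- The energy bound. -/
lemma energy_le (hL : 0 < L) (hF : Differentiable ℂ F) (hper : ∀ z, F (z + L * I) = F z) {ε : ℝ}
    (hε : 0 < ε) (hε1 : ε ≤ 1) {x1 x2 d : ℝ} (hd : 0 < d) (h12 : x1 ≤ x2)
    (hb : ∀ x' : ℝ, x1 - d ≤ x' → ∀ y : ℝ, ‖F (x' + y * I)‖ ≤ 1) :
    ∫ x in x1..x2, mn L (en F ε) x ≤ (1 / 2 - mn L (lg F ε) x1) / (2 * d) := by
  have h1 := Qf_sub hF hper hε x1 x2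
  have h2 := Qf_nonpos hL hF hper hε hε1 (x := x2) fun x' hx' => hb x' (by linarith)
  have h3 := Qf_le hL hF hper hε (x1 := x1 - d) (x2 := x1) (by linarith)
  have h4 := mn_lg_le hL hF hε hε1 (x := x1 - d) (hb (x1 - d) le_rfl)
  have h5 : (x1 - (x1 - d)) * Qf L F ε x1 = d * Qf L F ε x1 := by ring
  rw [h5] at h3
  rw [le_div_iff₀ (by positivity)]
  nlinarith

/-! ### Variation of the mean of the regularised quotient -/

/-- Complex mean over a period on a vertical line. -/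
noncomputable def mc (L : ℝ) (f : ℂ → ℂ) (x : ℝ) : ℂ := (L : ℂ)⁻¹ * ∫ y in (0:ℝ)..L, f (x + y * I)

noncomputable def bh (F H : ℂ → ℂ) (ε : ℝ) (z : ℂ) : ℝ :=
  ε ^ 2 * ‖H z‖ ^ 2 / (‖F z‖ ^ 2 + ε ^ 2) ^ 2

lemma continuous_bh {H : ℂ → ℂ} (hF : Continuous F) (hH : Continuous H) {ε : ℝ} (hε : 0 < ε) :
    Continuous (bh F H ε) := by
  unfold bh
  refine Continuous.div (by fun_prop) (by fun_prop) fun z => ?_
  positivity

lemma norm_db_Wf_le {H : ℂ → ℂ} (hF : Differentiable ℂ F) (hH : Differentiable ℂ H) {ε : ℝ}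
    (hε : 0 < ε) {lam : ℝ} (hlam : 0 < lam) (z : ℂ) :
    ‖db (Wf F H ε) z‖ ≤ lam * en F ε z + lam⁻¹ * bh F H ε z := by
  rw [db_Wf hF hH hε, den_eq]
  rw [norm_div, norm_pow, norm_mul, norm_mul, norm_mul, norm_pow, RCLike.norm_conj, norm_real,
    norm_real]
  simp only [Complex.norm_ofNat, Real.norm_eq_abs]
  rw [abs_of_pos hε, abs_of_pos (by positivity : (0:ℝ) < ‖F z‖ ^ 2 + ε ^ 2)]
  unfold en bh
  set D := (‖F z‖ ^ 2 + ε ^ 2) ^ 2 with hD
  have hDpos : 0 < D := by positivity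
  set a := ‖deriv F z‖
  set b := ‖H z‖
  rw [mul_div_assoc', mul_div_assoc', ← add_div]
  refine div_le_div_of_nonneg_right ?_ hDpos.le
  have h1 : 2 * b * a ≤ lam * a ^ 2 + lam⁻¹ * b ^ 2 := by
    have h2 : 0 ≤ lam⁻¹ * (lam * a - b) ^ 2 := by positivity
    have h3 : lam⁻¹ * (lam * a - b) ^ 2 = lam * a ^ 2 - 2 * b * a + lam⁻¹ * b ^ 2 := by
      field_simp
      ring
    linarith
  calc 2 * b * ε ^ 2 * a = ε ^ 2 * (2 * b * a) := by ring
    _ ≤ ε ^ 2 * (lam * a ^ 2 + lam⁻¹ * b ^ 2) := by gcongr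
    _ = _ := by ring

lemma mc_Wf_sub {H : ℂ → ℂ} (hL : 0 < L) (hF : Differentiable ℂ F) (hH : Differentiable ℂ H)
    (hperF : ∀ z, F (z + L * I) = F z) (hperH : ∀ z, H (z + L * I) = H z) {ε : ℝ}
    (hε : 0 < ε) {lam : ℝ} (hlam : 0 < lam) {x1 x2 : ℝ} (h12 : x1 ≤ x2) :
    ‖mc L (Wf F H ε) x2 - mc L (Wf F H ε) x1‖ ≤
      lam * (∫ x in x1..x2, mn L (en F ε) x) + lam⁻¹ * ∫ x in x1..x2, mn L (bh F H ε) x := by
  have hF' := (differentiable_deriv' hF).continuous
  have hFc := hF.continuous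
  have hHc := hH.continuous
  have hen := continuous_en hF hε
  have hbh := continuous_bh hFc hHc hε
  have hcont : Continuous fun z => 2 * H z * (ε : ℂ) ^ 2 * conj (deriv F z) /
      (F z * conj (F z) + (ε : ℂ) ^ 2) ^ 2 := by
    refine Continuous.div (by fun_prop) (by fun_prop) fun z => pow_ne_zero 2 (den_ne hε F z)
  set g : ℂ → ℂ := fun z => 2 * H z * (ε : ℂ) ^ 2 * conj (deriv F z) /
      (F z * conj (F z) + (ε : ℂ) ^ 2) ^ 2 with hg
  have h := green_periodic (L := L) (Wf F H ε) g (differentiable_Wf hF hH hε) hcont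
    (db_Wf hF hH hε) (fun z => by simp only [Wf, hperF, hperH]) x1 x2
  have hgb : ∀ z, ‖g z‖ ≤ lam * en F ε z + lam⁻¹ * bh F H ε z := by
    intro z
    have := norm_db_Wf_le hF hH hε hlam z
    rwa [db_Wf hF hH hε] at this
  unfold mc
  rw [← mul_sub, h, norm_mul, norm_inv, norm_real, Real.norm_eq_abs, abs_of_pos hL]
  have h1 : ‖∫ x in x1..x2, ∫ y in (0:ℝ)..L, g (x + y * I)‖ ≤
      ∫ x in x1..x2, ∫ y in (0:ℝ)..L, (lam * en F ε (x + y * I) + lam⁻¹ * bh F H ε (x + y * I)) := by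
    refine intervalIntegral.norm_integral_le_of_norm_le h12 (ae_of_all _ fun x _ => ?_) ?_
    · refine intervalIntegral.norm_integral_le_of_norm_le hL.le (ae_of_all _ fun y _ => hgb _) ?_
      exact (by fun_prop : Continuous fun y : ℝ =>
        lam * en F ε (x + y * I) + lam⁻¹ * bh F H ε (x + y * I)).intervalIntegrable _ _
    · refine Continuous.intervalIntegrable ?_ _ _
      exact intervalIntegral.continuous_parametric_intervalIntegral_of_continuous'
        (by fun_prop) _ _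
  refine (mul_le_mul_of_nonneg_left h1 (by positivity)).trans (le_of_eq ?_)
  have h2 : ∀ x : ℝ, (∫ y in (0:ℝ)..L, (lam * en F ε (x + y * I) + lam⁻¹ * bh F H ε (x + y * I))) =
      lam * (∫ y in (0:ℝ)..L, en F ε (x + y * I)) + lam⁻¹ * ∫ y in (0:ℝ)..L, bh F H ε (x + y * I) := by
    intro x
    rw [intervalIntegral.integral_add, intervalIntegral.integral_const_mul,
      intervalIntegral.integral_const_mul]
    · exact (by fun_prop : Continuous fun y : ℝ => lam * en F ε (x + y * I)).intervalIntegrable _ _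
    · exact (by fun_prop : Continuous fun y : ℝ => lam⁻¹ * bh F H ε (x + y * I)).intervalIntegrable _ _
  simp only [h2, mn]
  have c1 : Continuous fun x : ℝ => ∫ y in (0:ℝ)..L, en F ε (x + y * I) :=
    intervalIntegral.continuous_parametric_intervalIntegral_of_continuous' (by fun_prop) _ _
  have c2 : Continuous fun x : ℝ => ∫ y in (0:ℝ)..L, bh F H ε (x + y * I) :=
    intervalIntegral.continuous_parametric_intervalIntegral_of_continuous' (by fun_prop) _ _
  rw [intervalIntegral.integral_add ((c1.const_mul lam).intervalIntegrable _ _)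
    ((c2.const_mul lam⁻¹).intervalIntegrable _ _), intervalIntegral.integral_const_mul,
    intervalIntegral.integral_const_mul, intervalIntegral.integral_const_mul,
    intervalIntegral.integral_const_mul]
  ring

end Pool.Agent.helper21.SG
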