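import Mathlib
import Pool.Agent.helper21.SG.Energy

/-!
# A half-plane inequality for the regularised logarithm
-/

set_option autoImplicit false

open Complex MeasureTheory Set Filter Topology ComplexConjugate Metric Real

namespace Pool.Agent.helper21.SG

/-- Jensen's inequality for `log ‖k‖`. -/
lemma log_le_circleAverage {k : ℂ → ℂ} {c : ℂ} {R : ℝ} (hR : 0 < R)
    (hk : AnalyticOnNhd ℂ k (closedBall c |R|)) (h0 : k c ≠ 0) :
    Real.log ‖k c‖ ≤ circleAverage (fun z => Real.log ‖k z‖) c R := by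
  rw [hk.circleAverage_log_norm hR.ne' h0]
  have : 0 ≤ ∑ᶠ u, (MeromorphicOn.divisor k (closedBall c |R|) u : ℝ) *
      Real.log (R * ‖c - u‖⁻¹) := by
    refine finsum_nonneg fun u => ?_
    by_cases hu : u ∈ closedBall c |R|
    · have h1 : (0 : ℤ) ≤ MeromorphicOn.divisor k (closedBall c |R|) u := by
        have := MeromorphicOn.AnalyticOnNhd.divisor_nonneg hk
        exact this u
      have h2 : 0 ≤ Real.log (R * ‖c - u‖⁻¹) := by
        rcases eq_or_ne (‖c - u‖) 0 with h | h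
        · rw [h]
          simp
        · refine Real.log_nonneg ?_
          rw [mem_closedBall, dist_comm, dist_eq_norm, abs_of_pos hR] at hu
          have h3 : 0 < ‖c - u‖ := lt_of_le_of_ne (norm_nonneg _) (Ne.symm h)
          rw [← div_eq_mul_inv, one_le_div h3]
          exact hu
      have h1' : (0:ℝ) ≤ (MeromorphicOn.divisor k (closedBall c |R|) u : ℝ) := by exact_mod_cast h1
      positivity
    · rw [Function.locallyFinsuppWithin.apply_eq_zero_of_notMem _ hu]
      simp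
  linarith

/-- The regularised logarithm is submean. -/
lemma lg_le_circleAverage {g : ℂ → ℂ} {c : ℂ} {R : ℝ} (hR : 0 < R)
    (hg : AnalyticOnNhd ℂ g (closedBall c |R|)) {ε : ℝ} (hε : 0 < ε) :
    lg g ε c ≤ circleAverage (lg g ε) c R := by
  set D : ℝ := √(‖g c‖ ^ 2 + ε ^ 2) with hD
  have hDpos : 0 < D := Real.sqrt_pos.mpr (by positivity)
  have hD2 : D ^ 2 = ‖g c‖ ^ 2 + ε ^ 2 := Real.sq_sqrt (by positivity)
  set k : ℂ → ℂ := fun z => conj (g c) / D * g z + ε / D * ε with hk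
  have hkan : AnalyticOnNhd ℂ k (closedBall c |R|) := fun z hz =>
    (analyticAt_const.mul (hg z hz)).add analyticAt_const
  have hkc : k c = D := by
    have h1 : conj (g c) * g c = (‖g c‖ : ℂ) ^ 2 := by
      rw [mul_comm, Complex.mul_conj, Complex.normSq_eq_norm_sq]
      push_cast
      ring
    have hDc : (D : ℂ) ≠ 0 := by exact_mod_cast hDpos.ne'
    have hD2c : (D : ℂ) ^ 2 = (‖g c‖ : ℂ) ^ 2 + (ε : ℂ) ^ 2 := by exact_mod_cast hD2
    simp only [hk]
    rw [div_mul_eq_mul_div, h1, div_mul_eq_mul_div, ← add_div, div_eq_iff hDc, ← sq, ← sq, hD2c]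
  have hlgc : lg g ε c = Real.log ‖k c‖ := by
    rw [hkc, norm_real, Real.norm_eq_abs, abs_of_pos hDpos, lg, hD, Real.log_sqrt (by positivity)]
    ring
  have hbound : ∀ z, Real.log ‖k z‖ ≤ lg g ε z ∨ k z = 0 := by
    intro z
    rcases eq_or_ne (k z) 0 with h | h
    · exact Or.inr h
    left
    have h1 : ‖k z‖ ≤ ‖g c‖ / D * ‖g z‖ + ε / D * ε := by
      simp only [hk]
      refine (norm_add_le _ _).trans ?_
      rw [norm_mul, norm_mul, norm_div, norm_div, RCLike.norm_conj, norm_real, norm_real,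
        Real.norm_eq_abs, Real.norm_eq_abs, abs_of_pos hDpos, abs_of_pos hε]
    have h2 : ‖k z‖ ^ 2 ≤ ‖g z‖ ^ 2 + ε ^ 2 := by
      have h3 : (‖g c‖ / D * ‖g z‖ + ε / D * ε) ^ 2 ≤ ‖g z‖ ^ 2 + ε ^ 2 := by
        have e1 : ‖g c‖ / D * ‖g z‖ + ε / D * ε = (‖g c‖ * ‖g z‖ + ε * ε) / D := by ring
        rw [e1, div_pow, div_le_iff₀ (by positivity), hD2]
        nlinarith [sq_nonneg (‖g c‖ * ε - ‖g z‖ * ε)]
      have h4 : ‖k z‖ ^ 2 ≤ (‖g c‖ / D * ‖g z‖ + ε / D * ε) ^ 2 := by
        have := norm_nonneg (k z)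
        gcongr
      linarith
    have h5 : Real.log (‖k z‖ ^ 2) ≤ Real.log (‖g z‖ ^ 2 + ε ^ 2) :=
      Real.log_le_log (by positivity) h2
    rw [Real.log_pow] at h5
    push_cast at h5
    rw [lg]
    linarith
  rw [hlgc]
  have hkc0 : k c ≠ 0 := by rw [hkc]; exact_mod_cast hDpos.ne'
  refine (log_le_circleAverage hR hkan hkc0).trans ?_
  have hcod : k ⁻¹' {0}ᶜ ∈ codiscreteWithin (sphere c |R|) := by
    have h1 := hkan.preimage_zero_mem_codiscreteWithin (x := c) hkc0
      (mem_closedBall_self (abs_nonneg R))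
      ⟨nonempty_closedBall.mpr (abs_nonneg R), (convex_closedBall c |R|).isPreconnected⟩
    exact codiscreteWithin_mono sphere_subset_closedBall h1
  have hcongr : (fun z => Real.log ‖k z‖) =ᶠ[codiscreteWithin (sphere c |R|)]
      fun z => if k z = 0 then lg g ε z else Real.log ‖k z‖ := by
    filter_upwards [hcod] with z hz
    have : k z ≠ 0 := hz
    simp [this]
  rw [circleAverage_congr_codiscreteWithin hcongr hR.ne']
  refine circleAverage_mono ?_ ?_ ?_
  · refine CircleIntegrable.congr_codiscreteWithin hcongr ?_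
    exact (hkan.mono sphere_subset_closedBall).meromorphicOn.circleIntegrable_log_norm
  · refine ContinuousOn.circleIntegrable' ?_
    have hgc : ContinuousOn g (sphere c |R|) :=
      (hg.mono sphere_subset_closedBall).continuousOn
    unfold lg
    refine ContinuousOn.mul continuousOn_const (ContinuousOn.log ?_ fun z _ => by positivity)
    fun_prop
  · intro z _
    rcases hbound z with h | h
    · by_cases hz : k z = 0
      · simp [hz]
      · simpa [hz] using h
    · simp [h]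

/-- The boundary function of the half-plane, in the angular variable. -/
lemma cayley_boundary {θ : ℝ} (h : Real.cos (θ / 2) ≠ 0) :
    (1 - Complex.exp (θ * I)) / (1 + Complex.exp (θ * I)) = -(Real.tan (θ / 2) : ℂ) * I := by
  have e1 : Complex.exp (θ * I) = Complex.exp ((θ / 2 : ℝ) * I) * Complex.exp ((θ / 2 : ℝ) * I) := by
    rw [← Complex.exp_add]
    congr 1
    push_cast
    ring
  have e2 : Complex.exp ((θ / 2 : ℝ) * I) = Real.cos (θ / 2) + Real.sin (θ / 2) * I := by
    rw [Complex.exp_mul_I]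
    push_cast
    ring
  have hsc : (Real.cos (θ / 2) : ℂ) ^ 2 + (Real.sin (θ / 2) : ℂ) ^ 2 = 1 := by
    have := Real.cos_sq_add_sin_sq (θ / 2)
    exact_mod_cast this
  have hc : (Real.cos (θ / 2) : ℂ) ≠ 0 := by exact_mod_cast h
  rw [e1, e2, Real.tan_eq_sin_div_cos]
  set c : ℂ := (Real.cos (θ / 2) : ℂ)
  set t : ℂ := (Real.sin (θ / 2) : ℂ)
  have h1 : 1 + (c + t * I) * (c + t * I) = 2 * c * (c + t * I) := by
    linear_combination (-1 : ℂ) * hsc + (t ^ 2) * I_sq
  have h2 : 1 - (c + t * I) * (c + t * I) = -2 * t * I * (c + t * I) := by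
    linear_combination (-1 : ℂ) * hsc + (t ^ 2) * I_sq
  have h3 : c + t * I ≠ 0 := by
    rw [← e2]
    exact Complex.exp_ne_zero _
  rw [h1, h2, Complex.ofReal_div]
  change -2 * t * I * (c + t * I) / (2 * c * (c + t * I)) = -(t / c) * I
  field_simp

lemma re_cayley_nonneg {w : ℂ} (hw : ‖w‖ < 1) : 0 ≤ ((1 - w) / (1 + w)).re := by
  have hne : 1 + w ≠ 0 := by
    intro h
    have : w = -1 := by linear_combination h
    rw [this] at hw
    simp at hw
  rw [Complex.div_re, ← add_div]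
  refine div_nonneg ?_ (Complex.normSq_nonneg _)
  have h1 : w.re ^ 2 + w.im ^ 2 < 1 := by
    have := Complex.sq_norm_sub_sq_re w
    have h2 : ‖w‖ ^ 2 < 1 := by nlinarith [norm_nonneg w]
    nlinarith
  simp only [sub_re, one_re, add_re, sub_im, one_im, add_im]
  nlinarith

/-- Poisson inequality on a half-plane for the regularised logarithm. -/
lemma halfplane_ineq {F : ℂ → ℂ} (hF : Differentiable ℂ F) {x ρ yk ε : ℝ} (hρ : 0 < ρ)
    (hε : 0 < ε) (hε1 : ε ≤ 1) (hb : ∀ z : ℂ, x ≤ z.re → ‖F z‖ ≤ 1) :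
    lg F ε ((x + ρ : ℝ) + yk * I) ≤
      (2 * π)⁻¹ * ∫ θ in (-π)..π, lg F ε (x + (yk - ρ * Real.tan (θ / 2) : ℝ) * I) := by
  set φ : ℂ → ℂ := fun w => x + yk * I + ρ * ((1 - w) / (1 + w)) with hφ
  set g : ℂ → ℂ := fun w => F (φ w) with hg
  have hne : ∀ w : ℂ, ‖w‖ < 1 → 1 + w ≠ 0 := by
    intro w hw h
    have : w = -1 := by linear_combination h
    rw [this] at hw
    simp at hw
  have hgb : ∀ w : ℂ, ‖w‖ < 1 → ‖g w‖ ≤ 1 := by
    intro w hw
    refine hb _ ?_
    have h1 := re_cayley_nonneg hw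
    simp only [hφ, add_re, ofReal_re, re_ofReal_mul, I_re, mul_zero, add_zero]
    have : 0 ≤ ρ * ((1 - w) / (1 + w)).re := by positivity
    linarith
  have hφd : ∀ w : ℂ, 1 + w ≠ 0 → DifferentiableAt ℂ φ w := by
    intro w hw
    simp only [hφ]
    fun_prop (disch := assumption)
  have hgd : ∀ w : ℂ, 1 + w ≠ 0 → DifferentiableAt ℂ g w := fun w hw =>
    (hF (φ w)).comp w (hφd w hw)
  have hlg : ∀ w : ℂ, ‖w‖ < 1 → ‖lg g ε w‖ ≤ |Real.log ε| + 1 / 2 := by
    intro w hw
    have h1 := lg_le (F := g) hε hε1 (hgb w hw)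
    have h2 := le_lg (F := g) hε w
    rw [Real.norm_eq_abs, abs_le]
    have h3 := neg_abs_le (Real.log ε)
    have h4 := abs_nonneg (Real.log ε)
    constructor <;> linarith
  have h0 : g 0 = F ((x + ρ : ℝ) + yk * I) := by
    simp only [hg, hφ]
    congr 1
    push_cast
    ring
  have hsub : ∀ s : ℝ, 0 < s → s < 1 → lg F ε ((x + ρ : ℝ) + yk * I) ≤
      (2 * π)⁻¹ * ∫ θ in (-π)..π, lg g ε (circleMap 0 s θ) := by
    intro s hs hs1
    have han : AnalyticOnNhd ℂ g (closedBall 0 |s|) := by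
      have hopen : IsOpen {w : ℂ | 1 + w ≠ 0} := isOpen_ne_fun (by fun_prop) (by fun_prop)
      have h1 : AnalyticOnNhd ℂ g {w : ℂ | 1 + w ≠ 0} :=
        DifferentiableOn.analyticOnNhd (fun w hw => (hgd w hw).differentiableWithinAt) hopen
      refine h1.mono fun w hw => ?_
      rw [mem_closedBall_zero_iff, abs_of_pos hs] at hw
      exact hne w (hw.trans_lt hs1)
    have h1 := lg_le_circleAverage hs han hε
    rw [circleAverage_eq_integral_add (-π), intervalIntegral.integral_comp_add_right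
      (fun θ => lg g ε (circleMap 0 s θ))] at h1
    have e1 : lg g ε 0 = lg F ε ((x + ρ : ℝ) + yk * I) := by
      simp only [lg, h0]
    rw [e1] at h1
    have e2 : (0:ℝ) + -π = -π := by ring
    have e3 : 2 * π + -π = π := by ring
    rw [e2, e3] at h1
    simpa using h1
  have htend : Tendsto (fun s : ℝ => (2 * π)⁻¹ * ∫ θ in (-π)..π, lg g ε (circleMap 0 s θ))
      (𝓝[<] 1) (𝓝 ((2 * π)⁻¹ * ∫ θ in (-π)..π,
        lg F ε (x + (yk - ρ * Real.tan (θ / 2) : ℝ) * I))) := by
    refine Tendsto.const_mul _ ?_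
    have hs01 : ∀ᶠ s : ℝ in 𝓝[<] 1, 0 < s ∧ s < 1 :=
      Ioo_mem_nhdsLT (by norm_num : (0:ℝ) < 1)
    refine intervalIntegral.tendsto_integral_filter_of_dominated_convergence
      (fun _ => |Real.log ε| + 1 / 2) ?_ ?_ ?_ ?_
    · filter_upwards [hs01] with s hs
      refine Continuous.aestronglyMeasurable ?_
      have hgc : Continuous fun θ : ℝ => g (circleMap 0 s θ) := by
        rw [continuous_iff_continuousAt]
        intro θ
        have h1 : ‖circleMap 0 s θ‖ < 1 := by simp [abs_of_pos hs.1, hs.2]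
        exact ContinuousAt.comp (g := g) (f := circleMap 0 s) (hgd _ (hne _ h1)).continuousAt
          (continuous_circleMap 0 s).continuousAt
      unfold lg
      exact continuous_const.mul (Continuous.log ((hgc.norm.pow 2).add continuous_const)
        fun θ => by positivity)
    · filter_upwards [hs01] with s hs
      refine ae_of_all _ fun θ _ => hlg _ ?_
      simp [abs_of_pos hs.1, hs.2]
    · simp
    · have hne' : ∀ᵐ θ : ℝ, θ ≠ π := by
        rw [ae_iff]
        simp
      filter_upwards [hne'] with θ hθ hθm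
      rw [uIoc_of_le (by linarith [Real.pi_pos])] at hθm
      have hcos : Real.cos (θ / 2) ≠ 0 := by
        refine (Real.cos_pos_of_mem_Ioo ⟨by linarith [hθm.1], ?_⟩).ne'
        have : θ < π := lt_of_le_of_ne hθm.2 hθ
        linarith
      have hlim : 1 + circleMap 0 1 θ ≠ 0 := by
        have e1 : circleMap 0 1 θ = Complex.exp (θ * I) := by simp [circleMap]
        rw [e1]
        intro h
        have h2 : (1 + Complex.exp (θ * I)).re = 0 := by rw [h]; simp
        rw [add_re, one_re, Complex.exp_ofReal_mul_I_re] at h2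
        have h3 : Real.cos θ = 2 * Real.cos (θ / 2) ^ 2 - 1 := by
          rw [← Real.cos_two_mul]
          congr 1
          ring
        rw [h3] at h2
        have : Real.cos (θ / 2) ^ 2 = 0 := by linarith
        exact hcos (pow_eq_zero_iff (by norm_num) |>.mp this)
      have hval : lg F ε (x + (yk - ρ * Real.tan (θ / 2) : ℝ) * I) = lg g ε (circleMap 0 1 θ) := by
        have e1 : circleMap 0 1 θ = Complex.exp (θ * I) := by simp [circleMap]
        simp only [lg, hg, hφ]
        rw [e1, cayley_boundary hcos]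
        congr 6
        push_cast
        ring
      rw [hval]
      have hc1 : ContinuousAt (lg g ε) (circleMap 0 1 θ) := by
        have hgc := (hgd _ hlim).continuousAt
        unfold lg
        refine ContinuousAt.mul continuousAt_const (ContinuousAt.log ?_ (by positivity))
        fun_prop
      have hc2 : Continuous fun s : ℝ => circleMap 0 s θ := by
        simp only [circleMap]
        fun_prop
      exact (hc1.tendsto.comp (hc2.tendsto 1)).mono_left nhdsWithin_le_nhds
  refine ge_of_tendsto htend ?_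
  have hs01 : ∀ᶠ s : ℝ in 𝓝[<] 1, 0 < s ∧ s < 1 :=
    Ioo_mem_nhdsLT (by norm_num : (0:ℝ) < 1)
  filter_upwards [hs01] with s hs
  exact hsub s hs.1 hs.2

/-- Change of variables for the Poisson kernel. -/
lemma window_le {Q : ℝ → ℝ} (hQ : Continuous Q) (hQ0 : ∀ y, 0 ≤ Q y) {B : ℝ} (hQB : ∀ y, Q y ≤ B)
    {ρ M : ℝ} (hρ : 0 < ρ) (hM : 0 < M) (yk : ℝ) :
    ∫ y in (yk - M)..(yk + M), Q y ≤
      (ρ ^ 2 + M ^ 2) / (2 * ρ) * ∫ θ in (-π)..π, Q (yk - ρ * Real.tan (θ / 2)) := by
  set f : ℝ → ℝ := fun y => 2 * Real.arctan ((yk - y) / ρ) with hf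
  set f' : ℝ → ℝ := fun y => -(2 * ρ / (ρ ^ 2 + (yk - y) ^ 2)) with hf'
  have hder : ∀ y, HasDerivAt f (f' y) y := by
    intro y
    have h1 : HasDerivAt (fun y : ℝ => (yk - y) / ρ) (-1 / ρ) y := by
      simpa using ((hasDerivAt_id y).const_sub yk).div_const ρ
    have h2 := (h1.arctan).const_mul 2
    refine HasDerivAt.congr_deriv h2 ?_
    simp only [hf']
    have : ρ ^ 2 + (yk - y) ^ 2 ≠ 0 := by positivity
    have h3 : 1 + ((yk - y) / ρ) ^ 2 ≠ 0 := by positivity
    field_simp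
  have hf'c : Continuous f' := by
    simp only [hf']
    refine (Continuous.div (by fun_prop) (by fun_prop) fun y => ?_).neg
    positivity
  set g : ℝ → ℝ := fun θ => Q (yk - ρ * Real.tan (θ / 2)) with hg
  have hgf : ∀ y, g (f y) = Q y := by
    intro y
    simp only [hg, hf]
    congr 1
    rw [mul_div_cancel_left₀ _ (by norm_num : (2:ℝ) ≠ 0), Real.tan_arctan]
    field_simp
    ring
  have hcos : ∀ θ ∈ Ioo (-π) π, Real.cos (θ / 2) ≠ 0 := fun θ hθ =>
    (Real.cos_pos_of_mem_Ioo ⟨by linarith [hθ.1], by linarith [hθ.2]⟩).ne'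
  have hgc : ContinuousOn g (Ioo (-π) π) := by
    intro θ hθ
    refine ContinuousAt.continuousWithinAt ?_
    have h1 : ContinuousAt Real.tan (θ / 2) := Real.continuousAt_tan.mpr (hcos θ hθ)
    have h2 : ContinuousAt (fun θ : ℝ => Real.tan (θ / 2)) θ :=
      ContinuousAt.comp (g := Real.tan) (f := fun θ : ℝ => θ / 2) h1 (by fun_prop)
    exact hQ.continuousAt.comp ((h2.const_mul ρ).const_sub yk)
  have hfr : ∀ y, f y ∈ Ioo (-π) π := by
    intro y
    have h1 := Real.neg_pi_div_two_lt_arctan ((yk - y) / ρ)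
    have h2 := Real.arctan_lt_pi_div_two ((yk - y) / ρ)
    simp only [hf]
    constructor <;> linarith
  have hsubst := intervalIntegral.integral_comp_mul_deriv' (a := yk - M) (b := yk + M) (f := f)
    (f' := f') (g := g) (fun y _ => hder y) hf'c.continuousOn
    (hgc.mono (by rintro _ ⟨y, _, rfl⟩; exact hfr y))
  have hgint : IntervalIntegrable g volume (-π) π := by
    rw [intervalIntegrable_iff_integrableOn_Ioo_of_le (by linarith [Real.pi_pos])]
    have hcB : IntegrableOn (fun _ : ℝ => B) (Ioo (-π) π) := by simp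
    refine Integrable.mono' hcB (hgc.aestronglyMeasurable measurableSet_Ioo) ?_
    refine ae_of_all _ fun θ => ?_
    rw [Real.norm_eq_abs, abs_of_nonneg (hQ0 _)]
    exact hQB _
  have hle1 : ∫ y in (yk - M)..(yk + M), Q y ≤
      (ρ ^ 2 + M ^ 2) / (2 * ρ) * ∫ θ in (f (yk + M))..(f (yk - M)), g θ := by
    rw [intervalIntegral.integral_symm (f (yk - M)) (f (yk + M)), ← hsubst,
      ← intervalIntegral.integral_neg, ← intervalIntegral.integral_const_mul]
    refine intervalIntegral.integral_mono_on (by linarith) (hQ.intervalIntegrable _ _) ?_ ?_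
    · refine Continuous.intervalIntegrable ?_ _ _
      have : (fun y => (ρ ^ 2 + M ^ 2) / (2 * ρ) * -((g ∘ f) y * f' y)) =
          fun y => (ρ ^ 2 + M ^ 2) / (2 * ρ) * -(Q y * f' y) := by
        funext y
        simp only [Function.comp, hgf]
      rw [this]
      fun_prop
    · intro y hy
      simp only [Function.comp, hgf, hf']
      have h1 : (yk - y) ^ 2 ≤ M ^ 2 := by
        have h2 : |yk - y| ≤ M := by
          rw [abs_le]
          constructor <;> linarith [hy.1, hy.2]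
        exact sq_le_sq.mpr (by rwa [abs_of_pos hM])
      have h3 : 0 ≤ Q y := hQ0 y
      have h4 : (ρ ^ 2 + M ^ 2) / (2 * ρ) * -(Q y * -(2 * ρ / (ρ ^ 2 + (yk - y) ^ 2))) =
          Q y * ((ρ ^ 2 + M ^ 2) / (ρ ^ 2 + (yk - y) ^ 2)) := by
        have : ρ ^ 2 + (yk - y) ^ 2 ≠ 0 := by positivity
        field_simp
      rw [h4]
      have h5 : 1 ≤ (ρ ^ 2 + M ^ 2) / (ρ ^ 2 + (yk - y) ^ 2) := by
        rw [one_le_div (by positivity)]
        linarith
      nlinarith
  refine hle1.trans ?_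
  refine mul_le_mul_of_nonneg_left ?_ (by positivity)
  have h1 := (hfr (yk + M)).1.le
  have h2 := (hfr (yk - M)).2.le
  have h3 : f (yk + M) ≤ f (yk - M) := by
    simp only [hf]
    have : Real.arctan ((yk - (yk + M)) / ρ) ≤ Real.arctan ((yk - (yk - M)) / ρ) := by
      apply Real.arctan_mono
      gcongr
      linarith
    linarith
  exact intervalIntegral.integral_mono_interval h1 h3 h2 (ae_of_all _ fun θ => hQ0 _) hgint

/-- Window average bound. -/
lemma window_lg {F : ℂ → ℂ} (hF : Differentiable ℂ F) {x ρ yk ε D M : ℝ} (hρ : 0 < ρ)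
    (hM : 0 < M) (hε : 0 < ε) (hε1 : ε ≤ 1) (hb : ∀ z : ℂ, x ≤ z.re → ‖F z‖ ≤ 1)
    (hD : Real.exp (-D) ≤ ‖F ((x + ρ : ℝ) + yk * I)‖) :
    ∫ y in (yk - M)..(yk + M), (1 / 2 - lg F ε (x + y * I)) ≤
      π * ((ρ ^ 2 + M ^ 2) / ρ) * (1 / 2 + D) := by
  have hlgc : Continuous (lg F ε) := continuous_lg hF hε
  have hle : ∀ y : ℝ, lg F ε (x + y * I) ≤ 1 / 2 := fun y => lg_le hε hε1 (hb _ (by simp))
  have hge : ∀ y : ℝ, Real.log ε ≤ lg F ε (x + y * I) := fun y => le_lg hε _
  have h1 := window_le (Q := fun y : ℝ => 1 / 2 - lg F ε (x + y * I)) (by fun_prop)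
    (fun y => by linarith [hle y]) (B := 1 / 2 - Real.log ε) (fun y => by linarith [hge y]) hρ hM yk
  have h2 := halfplane_ineq hF hρ hε hε1 hb (yk := yk)
  have h3 : -D ≤ lg F ε ((x + ρ : ℝ) + yk * I) := by
    set w : ℂ := (x + ρ : ℝ) + yk * I
    have hpos : 0 < ‖F w‖ := (Real.exp_pos _).trans_le hD
    have h4 : -D ≤ Real.log ‖F w‖ := by
      rw [Real.le_log_iff_exp_le hpos]
      exact hD
    have h5 : Real.log (‖F w‖ ^ 2) ≤ Real.log (‖F w‖ ^ 2 + ε ^ 2) :=
      Real.log_le_log (by positivity) (by nlinarith)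
    rw [Real.log_pow] at h5
    push_cast at h5
    rw [lg]
    linarith
  have hint : IntervalIntegrable (fun θ : ℝ => lg F ε (x + (yk - ρ * Real.tan (θ / 2) : ℝ) * I))
      volume (-π) π := by
    rw [intervalIntegrable_iff_integrableOn_Ioo_of_le (by linarith [Real.pi_pos])]
    have hcB : IntegrableOn (fun _ : ℝ => |Real.log ε| + 1 / 2) (Ioo (-π) π) := by simp
    refine Integrable.mono' hcB (ContinuousOn.aestronglyMeasurable ?_ measurableSet_Ioo) ?_
    · intro θ hθ
      refine ContinuousAt.continuousWithinAt ?_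
      have hcos : Real.cos (θ / 2) ≠ 0 :=
        (Real.cos_pos_of_mem_Ioo ⟨by linarith [hθ.1], by linarith [hθ.2]⟩).ne'
      have h1 : ContinuousAt Real.tan (θ / 2) := Real.continuousAt_tan.mpr hcos
      have h2 : ContinuousAt (fun θ : ℝ => Real.tan (θ / 2)) θ :=
        ContinuousAt.comp (g := Real.tan) (f := fun θ : ℝ => θ / 2) h1 (by fun_prop)
      have h3 : ContinuousAt (fun θ : ℝ => (x + (yk - ρ * Real.tan (θ / 2) : ℝ) * I : ℂ)) θ := by
        have h4 : ContinuousAt (fun θ : ℝ => yk - ρ * Real.tan (θ / 2)) θ :=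
          (h2.const_mul ρ).const_sub yk
        have h5 : ContinuousAt (fun θ : ℝ => ((yk - ρ * Real.tan (θ / 2) : ℝ) : ℂ)) θ :=
          Complex.continuous_ofReal.continuousAt.comp h4
        fun_prop
      exact hlgc.continuousAt.comp h3
    · refine ae_of_all _ fun θ => ?_
      have h1 := hle (yk - ρ * Real.tan (θ / 2))
      have h2 := hge (yk - ρ * Real.tan (θ / 2))
      rw [Real.norm_eq_abs, abs_le]
      have h3 := neg_abs_le (Real.log ε)
      have h4 := abs_nonneg (Real.log ε)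
      constructor <;> linarith
  have h4 : ∫ θ in (-π)..π, (1 / 2 - lg F ε (x + (yk - ρ * Real.tan (θ / 2) : ℝ) * I)) ≤
      2 * π * (1 / 2 + D) := by
    rw [intervalIntegral.integral_sub (by simp) hint]
    have h5 : (2 * π) * ((2 * π)⁻¹ * ∫ θ in (-π)..π,
        lg F ε (x + (yk - ρ * Real.tan (θ / 2) : ℝ) * I)) = ∫ θ in (-π)..π,
        lg F ε (x + (yk - ρ * Real.tan (θ / 2) : ℝ) * I) := by
      rw [mul_inv_cancel_left₀ (by positivity)]
    have h6 : -D ≤ (2 * π)⁻¹ * ∫ θ in (-π)..π,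
        lg F ε (x + (yk - ρ * Real.tan (θ / 2) : ℝ) * I) := h3.trans h2
    have h7 : 2 * π * (-D) ≤ (2 * π) * ((2 * π)⁻¹ * ∫ θ in (-π)..π,
        lg F ε (x + (yk - ρ * Real.tan (θ / 2) : ℝ) * I)) :=
      mul_le_mul_of_nonneg_left h6 (by positivity)
    rw [h5] at h7
    have h8 : ∫ _ in (-π)..π, (1 / 2 : ℝ) = π := by
      rw [intervalIntegral.integral_const, smul_eq_mul]
      ring
    rw [h8]
    linarith
  refine h1.trans ?_
  have h5 : (ρ ^ 2 + M ^ 2) / (2 * ρ) *
      ∫ θ in (-π)..π, (1 / 2 - lg F ε (x + (yk - ρ * Real.tan (θ / 2) : ℝ) * I)) ≤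
      (ρ ^ 2 + M ^ 2) / (2 * ρ) * (2 * π * (1 / 2 + D)) :=
    mul_le_mul_of_nonneg_left h4 (by positivity)
  refine h5.trans (le_of_eq ?_)
  field_simp

/-- Mean bound from a relatively dense set of points where `F` is not small. -/
lemma mean_lg {F : ℂ → ℂ} (hF : Differentiable ℂ F) {L : ℝ} (hL : 0 < L)
    (hper : ∀ z, F (z + L * I) = F z) {x ρ ε D ℓ : ℝ} (hρ : 0 < ρ)
    (hℓ : 0 < ℓ) (hε : 0 < ε) (hε1 : ε ≤ 1) (hb : ∀ z : ℂ, x ≤ z.re → ‖F z‖ ≤ 1)
    (hD : ∀ y0 : ℝ, ∃ y : ℝ, |y - y0| ≤ ℓ ∧ Real.exp (-D) ≤ ‖F ((x + ρ : ℝ) + y * I)‖) :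
    1 / 2 - mn L (lg F ε) x ≤ π * ((ρ ^ 2 + (2 * ℓ) ^ 2) / ρ) * (1 / 2 + D) / (2 * ℓ) := by
  set C := π * ((ρ ^ 2 + (2 * ℓ) ^ 2) / ρ) * (1 / 2 + D) with hC
  set Q : ℝ → ℝ := fun y => 1 / 2 - lg F ε (x + y * I) with hQ
  have hlgc : Continuous (lg F ε) := continuous_lg hF hε
  have hQc : Continuous Q := by fun_prop
  have hQ0 : ∀ y, 0 ≤ Q y := fun y => by
    have := lg_le (F := F) hε hε1 (hb (x + y * I) (by simp))
    simp only [hQ]
    linarith
  have hQper : Function.Periodic Q L := by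
    intro y
    simp only [hQ, lg]
    have : (x : ℂ) + ((y + L : ℝ) : ℂ) * I = (x + y * I) + L * I := by push_cast; ring
    rw [this, hper]
  have hwin : ∀ y0 : ℝ, ∫ s in (-ℓ)..ℓ, Q (y0 + s) ≤ C := by
    intro y0
    obtain ⟨y, hy, hyD⟩ := hD y0
    rw [abs_le] at hy
    have h1 := window_lg hF hρ (by positivity : 0 < 2 * ℓ) hε hε1 hb hyD
    rw [intervalIntegral.integral_comp_add_left (fun s => Q s) y0]
    refine le_trans ?_ h1
    refine intervalIntegral.integral_mono_interval (by linarith) (by linarith) (by linarith)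
      (ae_of_all _ fun s => hQ0 s) (hQc.intervalIntegrable _ _)
  have hF2 : ∫ y0 in (0:ℝ)..L, ∫ s in (-ℓ)..ℓ, Q (y0 + s) = 2 * ℓ * ∫ y in (0:ℝ)..L, Q y := by
    rw [intervalIntegral_intervalIntegral_swap]
    · have : ∀ s : ℝ, ∫ y0 in (0:ℝ)..L, Q (y0 + s) = ∫ y in (0:ℝ)..L, Q y := by
        intro s
        rw [intervalIntegral.integral_comp_add_right (fun y => Q y) s]
        have := hQper.intervalIntegral_add_eq s 0
        simp only [zero_add] at this ⊢
        rw [add_comm L s]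
        exact this
      simp only [this, intervalIntegral.integral_const, smul_eq_mul]
      ring
    · have hcc : Continuous (Function.uncurry fun y0 s : ℝ => Q (y0 + s)) := by
        have : (Function.uncurry fun y0 s : ℝ => Q (y0 + s)) = fun p : ℝ × ℝ => Q (p.1 + p.2) := rfl
        rw [this]
        fun_prop
      have hcpt : IsCompact (uIcc 0 L ×ˢ uIcc (-ℓ) ℓ) := isCompact_uIcc.prod isCompact_uIcc
      refine (hcc.continuousOn.integrableOn_compact hcpt).mono_set ?_
      exact Set.prod_mono uIoc_subset_uIcc uIoc_subset_uIcc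
  have hle : ∫ y0 in (0:ℝ)..L, ∫ s in (-ℓ)..ℓ, Q (y0 + s) ≤ L * C := by
    have h1 : ∫ y0 in (0:ℝ)..L, ∫ s in (-ℓ)..ℓ, Q (y0 + s) ≤ ∫ _ in (0:ℝ)..L, C := by
      refine intervalIntegral.integral_mono_on hL.le ?_ (by simp) fun y0 _ => hwin y0
      refine Continuous.intervalIntegrable ?_ _ _
      exact intervalIntegral.continuous_parametric_intervalIntegral_of_continuous'
        (by fun_prop) _ _
    simpa using h1
  have hmn : 1 / 2 - mn L (lg F ε) x = L⁻¹ * ∫ y in (0:ℝ)..L, Q y := by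
    simp only [mn, hQ]
    rw [intervalIntegral.integral_sub (by simp)
      ((by fun_prop : Continuous fun y : ℝ => lg F ε (x + y * I)).intervalIntegrable _ _),
      intervalIntegral.integral_const, smul_eq_mul]
    generalize (∫ y in (0:ℝ)..L, lg F ε (x + y * I)) = J
    field_simp
    ring
  rw [hmn, le_div_iff₀ (by positivity)]
  have h5 : L⁻¹ * (∫ y in (0:ℝ)..L, Q y) * (2 * ℓ) = L⁻¹ * (2 * ℓ * ∫ y in (0:ℝ)..L, Q y) := by ring
  rw [h5, ← hF2]
  calc L⁻¹ * ∫ y0 in (0:ℝ)..L, ∫ s in (-ℓ)..ℓ, Q (y0 + s) ≤ L⁻¹ * (L * C) := by gcongr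
    _ = C := by field_simp

end Pool.Agent.helper21.SG
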