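import Mathlib
import Pool.Agent.helper21.SG.Energy

/-!
# Averaging over the regularisation parameter
-/

set_option autoImplicit false

open Complex MeasureTheory Set Filter Topology ComplexConjugate

namespace Pool.Agent.helper21.SG

/-- `ε^2 / (|F|^2 + ε^2)`. -/
noncomputable def pf (F : ℂ → ℂ) (ε : ℝ) (z : ℂ) : ℝ := ε ^ 2 / (‖F z‖ ^ 2 + ε ^ 2)

lemma continuous_pf {F : ℂ → ℂ} (hF : Continuous F) {ε : ℝ} (hε : 0 < ε) :
    Continuous (pf F ε) := by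
  unfold pf
  refine Continuous.div (by fun_prop) (by fun_prop) fun z => ?_
  positivity

lemma pf_nonneg (F : ℂ → ℂ) (ε : ℝ) (z : ℂ) : 0 ≤ pf F ε z := by
  unfold pf
  positivity

lemma pf_le_one {F : ℂ → ℂ} {ε : ℝ} (hε : 0 < ε) (z : ℂ) : pf F ε z ≤ 1 := by
  unfold pf
  rw [div_le_one (by positivity)]
  nlinarith [norm_nonneg (F z)]

lemma bh_le {F H : ℂ → ℂ} {ε η : ℝ} (hε : 0 < ε) (hη : 0 ≤ η) {z : ℂ}
    (hH : ‖H z‖ ≤ ‖F z‖ + η) :
    bh F H ε z ≤ (8 / 3) * (‖F z‖ ^ 2 / (‖F z‖ ^ 2 + (ε / 2) ^ 2) - ‖F z‖ ^ 2 / (‖F z‖ ^ 2 + ε ^ 2))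
      + 2 * η ^ 2 / ε ^ 2 := by
  unfold bh
  set f := ‖F z‖ with hf
  have hf0 : 0 ≤ f := norm_nonneg _
  have hH2 : ‖H z‖ ^ 2 ≤ 2 * f ^ 2 + 2 * η ^ 2 := by
    have h1 : ‖H z‖ ^ 2 ≤ (f + η) ^ 2 := by
      have := norm_nonneg (H z)
      gcongr
    nlinarith [sq_nonneg (f - η)]
  set D := f ^ 2 + ε ^ 2 with hD
  have hDpos : 0 < D := by positivity
  set D' := f ^ 2 + (ε / 2) ^ 2 with hD'
  have hD'pos : 0 < D' := by positivity
  have hD'D : D' ≤ D := by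
    rw [hD, hD']
    nlinarith
  have e1 : f ^ 2 / D' - f ^ 2 / D = f ^ 2 * ((3 / 4) * ε ^ 2) / (D' * D) := by
    rw [div_sub_div _ _ hD'pos.ne' hDpos.ne']
    congr 1
    rw [hD, hD']
    ring
  have e2 : f ^ 2 * ((3 / 4) * ε ^ 2) / (D * D) ≤ f ^ 2 * ((3 / 4) * ε ^ 2) / (D' * D) := by
    gcongr
  have e3 : ε ^ 2 * (2 * η ^ 2) / D ^ 2 ≤ 2 * η ^ 2 / ε ^ 2 := by
    rw [div_le_div_iff₀ (by positivity) (by positivity)]
    have h5 : ε ^ 2 * ε ^ 2 ≤ D ^ 2 := by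
      rw [← sq]
      have : ε ^ 2 ≤ D := by rw [hD]; nlinarith
      gcongr
    nlinarith [sq_nonneg η]
  calc ε ^ 2 * ‖H z‖ ^ 2 / D ^ 2 ≤ ε ^ 2 * (2 * f ^ 2 + 2 * η ^ 2) / D ^ 2 := by gcongr
    _ = (8 / 3) * (f ^ 2 * ((3 / 4) * ε ^ 2) / (D * D)) + ε ^ 2 * (2 * η ^ 2) / D ^ 2 := by
      field_simp
      ring
    _ ≤ _ := by
      rw [e1]
      linarith

lemma sum_bh_le {F H : ℂ → ℂ} {ε η : ℝ} (hε : 0 < ε) (hη : 0 ≤ η) {z : ℂ}
    (hH : ‖H z‖ ≤ ‖F z‖ + η) (n : ℕ) :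
    ∑ i ∈ Finset.range n, bh F H (ε / 2 ^ i) z ≤
      (8 / 3) * pf F ε z + n * (2 * η ^ 2 * 4 ^ n / ε ^ 2) := by
  have h1 : ∀ i ∈ Finset.range n, bh F H (ε / 2 ^ i) z ≤
      (8 / 3) * (‖F z‖ ^ 2 / (‖F z‖ ^ 2 + (ε / 2 ^ (i + 1)) ^ 2) -
        ‖F z‖ ^ 2 / (‖F z‖ ^ 2 + (ε / 2 ^ i) ^ 2)) + 2 * η ^ 2 * 4 ^ n / ε ^ 2 := by
    intro i hi
    have h2 := bh_le (F := F) (H := H) (z := z) (by positivity : 0 < ε / 2 ^ i) hη hH
    have h3 : ε / 2 ^ i / 2 = ε / 2 ^ (i + 1) := by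
      rw [pow_succ, div_div]
    rw [h3] at h2
    have h4 : 2 * η ^ 2 / (ε / 2 ^ i) ^ 2 ≤ 2 * η ^ 2 * 4 ^ n / ε ^ 2 := by
      have h5 : (ε / 2 ^ i) ^ 2 = ε ^ 2 / 4 ^ i := by
        rw [div_pow, ← pow_mul, mul_comm i 2, pow_mul]
        norm_num
      rw [h5, div_div_eq_mul_div]
      have h6 : (4:ℝ) ^ i ≤ 4 ^ n := pow_le_pow_right₀ (by norm_num) (Finset.mem_range.mp hi).le
      gcongr
    linarith
  refine (Finset.sum_le_sum h1).trans ?_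
  rw [Finset.sum_add_distrib, ← Finset.mul_sum, Finset.sum_range_sub
    (fun i => ‖F z‖ ^ 2 / (‖F z‖ ^ 2 + (ε / 2 ^ i) ^ 2))]
  simp only [Finset.sum_const, Finset.card_range, nsmul_eq_mul, pow_zero, div_one]
  have h7 : ‖F z‖ ^ 2 / (‖F z‖ ^ 2 + (ε / 2 ^ n) ^ 2) - ‖F z‖ ^ 2 / (‖F z‖ ^ 2 + ε ^ 2) ≤
      pf F ε z := by
    have h8 : ‖F z‖ ^ 2 / (‖F z‖ ^ 2 + (ε / 2 ^ n) ^ 2) ≤ 1 := by
      rw [div_le_one (by positivity)]
      have : 0 < (ε / 2 ^ n) ^ 2 := by positivity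
      linarith
    have h9 : pf F ε z = 1 - ‖F z‖ ^ 2 / (‖F z‖ ^ 2 + ε ^ 2) := by
      unfold pf
      have : ‖F z‖ ^ 2 + ε ^ 2 ≠ 0 := by positivity
      field_simp
      ring
    rw [h9]
    linarith
  linarith

/-- Average over the regularisation parameters `ε / 2^i`, `i < n`, of the mean of the regularised
quotient. -/
noncomputable def Ma (L : ℝ) (F H : ℂ → ℂ) (ε : ℝ) (n : ℕ) (x : ℝ) : ℂ :=
  (n : ℂ)⁻¹ * ∑ i ∈ Finset.range n, mc L (Wf F H (ε / 2 ^ i)) x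

lemma Ma_sub_le {L : ℝ} {F H : ℂ → ℂ} (hL : 0 < L) (hF : Differentiable ℂ F)
    (hH : Differentiable ℂ H) (hperF : ∀ z, F (z + L * I) = F z)
    (hperH : ∀ z, H (z + L * I) = H z) {ε η : ℝ} (hε : 0 < ε) (hη : 0 ≤ η) {n : ℕ} (hn : 0 < n)
    {lam : ℝ} (hlam : 0 < lam) {x1 x2 : ℝ} (h12 : x1 ≤ x2) {a p : ℝ}
    (ha : ∀ i < n, ∫ x in x1..x2, mn L (en F (ε / 2 ^ i)) x ≤ a)
    (hp : ∀ x ∈ Icc x1 x2, mn L (pf F ε) x ≤ p)
    (hHF : ∀ x ∈ Icc x1 x2, ∀ y : ℝ, ‖H (x + y * I)‖ ≤ ‖F (x + y * I)‖ + η) :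
    ‖Ma L F H ε n x2 - Ma L F H ε n x1‖ ≤
      lam * a + (n * lam)⁻¹ * ((x2 - x1) * ((8 / 3) * p + n * (2 * η ^ 2 * 4 ^ n / ε ^ 2))) := by
  have hFc := hF.continuous
  have hHc := hH.continuous
  have hnpos : (0:ℝ) < n := by exact_mod_cast hn
  unfold Ma
  rw [← mul_sub, ← Finset.sum_sub_distrib, norm_mul, norm_inv, Complex.norm_natCast]
  have hbhc : ∀ i : ℕ, Continuous (bh F H (ε / 2 ^ i)) := fun i => continuous_bh hFc hHc (by positivity)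
  have h1 : ‖∑ i ∈ Finset.range n, (mc L (Wf F H (ε / 2 ^ i)) x2 - mc L (Wf F H (ε / 2 ^ i)) x1)‖ ≤
      n * (lam * a) + lam⁻¹ * ∑ i ∈ Finset.range n, ∫ x in x1..x2, mn L (bh F H (ε / 2 ^ i)) x := by
    refine (norm_sum_le _ _).trans ?_
    have h2 : ∀ i ∈ Finset.range n,
        ‖mc L (Wf F H (ε / 2 ^ i)) x2 - mc L (Wf F H (ε / 2 ^ i)) x1‖ ≤
        lam * a + lam⁻¹ * ∫ x in x1..x2, mn L (bh F H (ε / 2 ^ i)) x := by
      intro i hi
      refine (mc_Wf_sub hL hF hH hperF hperH (by positivity) hlam h12).trans ?_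
      have := ha i (Finset.mem_range.mp hi)
      gcongr
    refine (Finset.sum_le_sum h2).trans (le_of_eq ?_)
    rw [Finset.sum_add_distrib, Finset.sum_const, Finset.card_range, nsmul_eq_mul, Finset.mul_sum]
  have h3 : ∑ i ∈ Finset.range n, ∫ x in x1..x2, mn L (bh F H (ε / 2 ^ i)) x =
      ∫ x in x1..x2, mn L (fun z => ∑ i ∈ Finset.range n, bh F H (ε / 2 ^ i) z) x := by
    rw [← intervalIntegral.integral_finsetSum]
    · refine intervalIntegral.integral_congr fun x _ => ?_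
      simp only [mn]
      rw [← Finset.mul_sum, ← intervalIntegral.integral_finsetSum]
      intro i _
      have := hbhc i
      exact (by fun_prop : Continuous fun y : ℝ => bh F H (ε / 2 ^ i) (x + y * I)).intervalIntegrable _ _
    · intro i _
      exact (mn_continuous (hbhc i)).intervalIntegrable _ _
  have hsc : Continuous fun z => ∑ i ∈ Finset.range n, bh F H (ε / 2 ^ i) z :=
    continuous_finset_sum _ fun i _ => hbhc i
  set B := (8 / 3) * p + n * (2 * η ^ 2 * 4 ^ n / ε ^ 2) with hB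
  have h4 : ∫ x in x1..x2, mn L (fun z => ∑ i ∈ Finset.range n, bh F H (ε / 2 ^ i) z) x ≤
      (x2 - x1) * B := by
    have h5 : ∫ x in x1..x2, mn L (fun z => ∑ i ∈ Finset.range n, bh F H (ε / 2 ^ i) z) x ≤
        ∫ _ in x1..x2, B := by
      refine intervalIntegral.integral_mono_on h12 ((mn_continuous hsc).intervalIntegrable _ _)
        (by simp) fun x hx => ?_
      have hpc := continuous_pf hFc hε
      have h6 : mn L (fun z => ∑ i ∈ Finset.range n, bh F H (ε / 2 ^ i) z) x ≤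
          mn L (fun z => (8 / 3) * pf F ε z + n * (2 * η ^ 2 * 4 ^ n / ε ^ 2)) x :=
        mn_mono hL hsc (by fun_prop) fun y => sum_bh_le hε hη (hHF x hx y) n
      refine h6.trans ?_
      have h7 : mn L (fun z => (8 / 3) * pf F ε z + n * (2 * η ^ 2 * 4 ^ n / ε ^ 2)) x =
          (8 / 3) * mn L (pf F ε) x + n * (2 * η ^ 2 * 4 ^ n / ε ^ 2) := by
        simp only [mn]
        rw [intervalIntegral.integral_add, intervalIntegral.integral_const_mul,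
          intervalIntegral.integral_const]
        · simp only [sub_zero, smul_eq_mul]
          generalize (∫ y in (0:ℝ)..L, pf F ε (x + y * I)) = J
          generalize (n:ℝ) * (2 * η ^ 2 * 4 ^ n / ε ^ 2) = K
          field_simp
        · exact (by fun_prop : Continuous fun y : ℝ =>
            (8 / 3) * pf F ε (x + y * I)).intervalIntegrable _ _
        · simp
      rw [h7, hB]
      have := hp x hx
      linarith
    simpa using h5
  rw [h3] at h1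
  have hinv : 0 < (n : ℝ)⁻¹ := by positivity
  calc (n:ℝ)⁻¹ * ‖∑ i ∈ Finset.range n,
        (mc L (Wf F H (ε / 2 ^ i)) x2 - mc L (Wf F H (ε / 2 ^ i)) x1)‖
      ≤ (n:ℝ)⁻¹ * (n * (lam * a) + lam⁻¹ * ((x2 - x1) * B)) := by
        gcongr
        refine h1.trans ?_
        gcongr
    _ = lam * a + (n * lam)⁻¹ * ((x2 - x1) * B) := by
        field_simp

end Pool.Agent.helper21.SG
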