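import Mathlib
import Pool.Agent.helper21.SG.Poisson
import Pool.Agent.helper21.SG.Dense
import Pool.Agent.helper21.SG.Variation

/-!
# Scales
-/

set_option autoImplicit false

open Complex MeasureTheory Set Filter Topology ComplexConjugate

namespace Pool.Agent.helper21.SG

/-- The scale `2^j x1`. -/
noncomputable def sX (x1 : ℝ) (j : ℕ) : ℝ := 2 ^ j * x1

/-- The exponents `(x1^2/32) (5/2)^j`. -/
noncomputable def sD (x1 : ℝ) (j : ℕ) : ℝ := x1 ^ 2 / 32 * (5 / 2) ^ j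

lemma sX_succ (x1 : ℝ) (j : ℕ) : sX x1 (j + 1) = 2 * sX x1 j := by
  unfold sX
  ring

lemma sD_succ (x1 : ℝ) (j : ℕ) : sD x1 (j + 1) = 5 / 2 * sD x1 j := by
  unfold sD
  ring

lemma le_sX {x1 : ℝ} (h1 : 16 ≤ x1) (j : ℕ) : 16 ≤ sX x1 j := by
  unfold sX
  have : (1:ℝ) ≤ 2 ^ j := one_le_pow₀ (by norm_num)
  nlinarith

lemma sD_le {x1 : ℝ} (j : ℕ) : sD x1 j ≤ sX x1 j ^ 2 / 32 := by
  unfold sX sD
  have h1 : ((5:ℝ) / 2) ^ j ≤ 4 ^ j := by gcongr; norm_num
  have h2 : (2 ^ j * x1) ^ 2 = x1 ^ 2 * 4 ^ j := by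
    rw [mul_pow, ← pow_mul, mul_comm j 2, pow_mul]
    norm_num
    ring
  rw [h2]
  have := sq_nonneg x1
  calc x1 ^ 2 / 32 * (5 / 2) ^ j ≤ x1 ^ 2 / 32 * 4 ^ j := by gcongr
    _ = _ := by ring

lemma le_sD {x1 : ℝ} (h1 : 16 ≤ x1) (j : ℕ) : 8 ≤ sD x1 j := by
  unfold sD
  have h2 : (1:ℝ) ≤ (5 / 2) ^ j := one_le_pow₀ (by norm_num)
  have h3 : 8 ≤ x1 ^ 2 / 32 := by nlinarith
  nlinarith

structure Fam (L x1 : ℝ) (P : ℕ → ℂ → ℂ) : Prop where
  diff : ∀ j, Differentiable ℂ (P j)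
  per : ∀ j z, P j (z + L * I) = P j z
  bd : ∀ j (z : ℂ), sX x1 j / 16 ≤ z.re → ‖P j z‖ ≤ 1
  chg : ∀ i j, i ≤ j → ∀ z : ℂ, sX x1 j / 16 ≤ z.re →
    ‖P j z - P i z‖ ≤ Real.exp (-(sX x1 i / 16 * (z.re - sX x1 j / 16)))

lemma Fam.dense {L x1 : ℝ} {P : ℕ → ℂ → ℂ} (hP : Fam L x1 P) (h1 : 16 ≤ x1) {l0 : ℝ}
    (h0 : ∀ y0 : ℝ, ∃ y : ℝ, |y - y0| ≤ l0 ∧ Real.exp (-sD x1 0) ≤ ‖P 0 (sX x1 0 + y * I)‖) (j : ℕ) :
    ∀ y0 : ℝ, ∃ y : ℝ, |y - y0| ≤ l0 + 8 * sX x1 j ∧
      Real.exp (-sD x1 j) ≤ ‖P j (sX x1 j + y * I)‖ := by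
  induction j with
  | zero =>
    intro y0
    obtain ⟨y, hy, hy2⟩ := h0 y0
    refine ⟨y, hy.trans ?_, hy2⟩
    have := le_sX h1 0
    linarith
  | succ j ih =>
    intro y0
    obtain ⟨y1, hy1, hy1b⟩ := ih y0
    by_contra hcon
    push Not at hcon
    have hXj := le_sX h1 j
    have hXs := sX_succ x1 j
    have hseg : ∀ y : ℝ, |y - y1| ≤ 4 * sX x1 (j + 1) →
        ‖P (j + 1) (sX x1 (j + 1) + y * I)‖ ≤ Real.exp (-sD x1 (j + 1)) := by
      intro y hy
      refine (hcon y ?_).le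
      have h2 : |y - y0| ≤ |y - y1| + |y1 - y0| := abs_sub_le _ _ _
      rw [hXs] at hy ⊢
      linarith
    have hD := le_sD h1 j
    have h3 := three_lines (hP.diff (j + 1)) (X := sX x1 (j + 1)) (D := sD x1 (j + 1)) (y1 := y1)
      (by linarith) (by rw [sD_succ]; linarith) (hP.bd (j + 1)) hseg
    have e1 : sX x1 (j + 1) / 2 = sX x1 j := by rw [hXs]; ring
    have e2 : -(9 / 20) * sD x1 (j + 1) = -(9 / 8) * sD x1 j := by rw [sD_succ]; ring
    rw [e1, e2] at h3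
    have h4 := hP.chg j (j + 1) (Nat.le_succ j) (sX x1 j + y1 * I) (by
      simp only [add_re, ofReal_re, mul_re, I_re, mul_zero, ofReal_im, I_im, mul_one, sub_self,
        add_zero]
      linarith)
    have e3 : ((sX x1 j : ℂ) + y1 * I).re = sX x1 j := by simp
    rw [e3, hXs] at h4
    have h5 : Real.exp (-(sX x1 j / 16 * (sX x1 j - 2 * sX x1 j / 16))) ≤
        Real.exp (-(7 / 4) * sD x1 j) := by
      apply Real.exp_le_exp.mpr
      have := sD_le (x1 := x1) j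
      nlinarith
    have h6 : ‖P j (sX x1 j + y1 * I)‖ ≤ Real.exp (-(9 / 8) * sD x1 j) +
        Real.exp (-(7 / 4) * sD x1 j) := by
      have h7 : P j (sX x1 j + y1 * I) = P (j + 1) (sX x1 j + y1 * I) -
          (P (j + 1) (sX x1 j + y1 * I) - P j (sX x1 j + y1 * I)) := by ring
      rw [h7]
      refine (norm_sub_le _ _).trans ?_
      exact add_le_add h3 (h4.trans h5)
    have h8 := hy1b.trans h6
    have h9 : Real.exp (-(9 / 8) * sD x1 j) = Real.exp (-sD x1 j) * Real.exp (-(1 / 8) * sD x1 j) := by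
      rw [← Real.exp_add]
      congr 1
      ring
    have h10 : Real.exp (-(7 / 4) * sD x1 j) =
        Real.exp (-sD x1 j) * Real.exp (-(3 / 4) * sD x1 j) := by
      rw [← Real.exp_add]
      congr 1
      ring
    rw [h9, h10, ← mul_add] at h8
    have h11 : Real.exp (-(1 / 8) * sD x1 j) ≤ Real.exp (-1) :=
      Real.exp_le_exp.mpr (by linarith)
    have h12 : Real.exp (-(3 / 4) * sD x1 j) ≤ Real.exp (-1) :=
      Real.exp_le_exp.mpr (by linarith)
    have h13 : Real.exp (-1) < 0.3678794412 := Real.exp_neg_one_lt_d9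
    have h14 : Real.exp (-sD x1 j) * (Real.exp (-(1 / 8) * sD x1 j) +
        Real.exp (-(3 / 4) * sD x1 j)) < Real.exp (-sD x1 j) * 1 := by
      refine mul_lt_mul_of_pos_left ?_ (Real.exp_pos _)
      linarith
    linarith

/-- Mean of the regularised logarithm at scale `j`. -/
lemma Fam.mean_le {L x1 : ℝ} {P : ℕ → ℂ → ℂ} (hL : 0 < L) (hP : Fam L x1 P) (h1 : 16 ≤ x1) {l0 : ℝ}
    (h0 : ∀ y0 : ℝ, ∃ y : ℝ, |y - y0| ≤ l0 ∧ Real.exp (-sD x1 0) ≤ ‖P 0 (sX x1 0 + y * I)‖) {j : ℕ}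
    (hj : l0 ≤ sX x1 j) {x : ℝ} (hx : x ∈ Icc (sX x1 j) (2 * sX x1 j)) {ε : ℝ} (hε : 0 < ε)
    (hε1 : ε ≤ 1) : 1 / 2 - mn L (lg (P j) ε) x ≤ 700 * sD x1 j := by
  have hX := le_sX h1 j
  have hD := le_sD h1 j
  have hDX := sD_le (x1 := x1) j
  have hXpos : 0 < sX x1 j := by linarith
  have e2 : sX x1 (j + 2) = 4 * sX x1 j := by
    rw [sX_succ, sX_succ]
    ring
  have e3 : sD x1 (j + 2) = 25 / 4 * sD x1 j := by
    rw [sD_succ, sD_succ]
    ring
  set X := sX x1 j with hXdef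
  set ρ := 4 * X - x with hρ
  have hρ1 : 2 * X ≤ ρ := by rw [hρ]; linarith [hx.2]
  have hρ2 : ρ ≤ 3 * X := by rw [hρ]; linarith [hx.1]
  have hdense : ∀ y0 : ℝ, ∃ y : ℝ, |y - y0| ≤ 33 * X ∧
      Real.exp (-(25 / 4 * sD x1 j + 1)) ≤ ‖P j ((x + ρ : ℝ) + y * I)‖ := by
    intro y0
    obtain ⟨y, hy, hyb⟩ := hP.dense h1 h0 (j + 2) y0
    rw [e2] at hy hyb
    rw [e3] at hyb
    refine ⟨y, by linarith, ?_⟩
    have e4 : x + ρ = 4 * X := by rw [hρ]; ring
    rw [e4]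
    have h4 := hP.chg j (j + 2) (by omega) ((4 * X : ℝ) + y * I) (by
      rw [e2]
      simp only [add_re, ofReal_re, mul_re, I_re, mul_zero, ofReal_im, I_im, mul_one, sub_self,
        add_zero]
      linarith)
    have e5 : (((4 * X : ℝ) : ℂ) + y * I).re = 4 * X := by simp
    rw [e5, e2] at h4
    have h5 : Real.exp (-(X / 16 * (4 * X - 4 * X / 16))) ≤
        Real.exp (-(25 / 4 * sD x1 j)) * Real.exp (-1) := by
      rw [← Real.exp_add]
      apply Real.exp_le_exp.mpr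
      nlinarith
    have h6 : ‖P (j + 2) ((4 * X : ℝ) + y * I)‖ ≤ ‖P j ((4 * X : ℝ) + y * I)‖ +
        ‖P (j + 2) ((4 * X : ℝ) + y * I) - P j ((4 * X : ℝ) + y * I)‖ := by
      have h7 : P (j + 2) ((4 * X : ℝ) + y * I) = P j ((4 * X : ℝ) + y * I) +
          (P (j + 2) ((4 * X : ℝ) + y * I) - P j ((4 * X : ℝ) + y * I)) := by ring
      calc ‖P (j + 2) ((4 * X : ℝ) + y * I)‖ = ‖P j ((4 * X : ℝ) + y * I) +
          (P (j + 2) ((4 * X : ℝ) + y * I) - P j ((4 * X : ℝ) + y * I))‖ := by rw [← h7]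
        _ ≤ _ := norm_add_le _ _
    have h13 : Real.exp (-1) < 0.3678794412 := Real.exp_neg_one_lt_d9
    have e6 : Real.exp (-(25 / 4 * sD x1 j + 1)) = Real.exp (-(25 / 4 * sD x1 j)) * Real.exp (-1) := by
      rw [← Real.exp_add]
      congr 1
      ring
    rw [e6]
    have h14 := Real.exp_pos (-(25 / 4 * sD x1 j))
    have hyb' : Real.exp (-(25 / 4 * sD x1 j)) ≤ ‖P (j + 2) ((4 * X : ℝ) + y * I)‖ := by
      refine hyb.trans (le_of_eq ?_)
      push_cast
      rfl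
    nlinarith
  have hm := mean_lg (hP.diff j) hL (hP.per j) (x := x) (ρ := ρ) (ε := ε)
    (D := 25 / 4 * sD x1 j + 1) (ℓ := 33 * X) (by linarith) (by linarith) hε hε1
    (fun z hz => hP.bd j z (by linarith [hx.1])) hdense
  refine hm.trans ?_
  have hρpos : 0 < ρ := by linarith
  have h7 : (ρ ^ 2 + (2 * (33 * X)) ^ 2) / ρ ≤ 2181 * X := by
    rw [div_le_iff₀ hρpos]
    nlinarith
  have hpi : Real.pi < 3.15 := Real.pi_lt_d2
  have hpi0 := Real.pi_pos
  rw [div_le_iff₀ (by positivity)]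
  calc Real.pi * ((ρ ^ 2 + (2 * (33 * X)) ^ 2) / ρ) * (1 / 2 + (25 / 4 * sD x1 j + 1))
      ≤ 3.15 * (2181 * X) * (1 / 2 + (25 / 4 * sD x1 j + 1)) := by
        have h8 : 0 ≤ (ρ ^ 2 + (2 * (33 * X)) ^ 2) / ρ := by positivity
        gcongr
    _ ≤ 700 * sD x1 j * (2 * (33 * X)) := by nlinarith

/-- Mean of `pf`. -/
lemma mean_pf_le {F : ℂ → ℂ} (hF : Differentiable ℂ F) {L : ℝ} (hL : 0 < L) {x κ : ℝ}
    (hκ : 0 < κ) (hb : ∀ y : ℝ, ‖F (x + y * I)‖ ≤ 1) :
    mn L (pf F (Real.exp (-κ))) x ≤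
      Real.exp (-(2 * κ)) + (1 / 2 - mn L (lg F (Real.exp (-κ))) x) / κ := by
  set ε := Real.exp (-κ) with hε
  have hεpos : 0 < ε := Real.exp_pos _
  have hε1 : ε ≤ 1 := by rw [hε]; exact Real.exp_le_one_iff.mpr (by linarith)
  have hlgc : Continuous (lg F ε) := continuous_lg hF hεpos
  have hpfc : Continuous (pf F ε) := continuous_pf hF.continuous hεpos
  have hpt : ∀ y : ℝ, pf F ε (x + y * I) ≤ Real.exp (-(2 * κ)) + (1 / 2 - lg F ε (x + y * I)) / κ := by
    intro y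
    have h1 := lg_le (F := F) hεpos hε1 (hb y)
    have h2 := le_lg (F := F) hεpos (x + y * I)
    have h3 : Real.log ε = -κ := by rw [hε, Real.log_exp]
    rw [h3] at h2
    set u := 1 / 2 - lg F ε (x + y * I) with hu
    have hu0 : 0 ≤ u := by linarith
    have huc : u ≤ κ + 1 / 2 := by linarith
    have hpfe : pf F ε (x + y * I) = Real.exp (2 * (u - (κ + 1 / 2))) := by
      have h4 : 2 * (u - (κ + 1 / 2)) = 2 * Real.log ε - 2 * lg F ε (x + y * I) := by
        rw [h3, hu]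
        ring
      rw [h4, lg, pf]
      have h5 : 2 * Real.log ε = Real.log (ε ^ 2) := by
        rw [Real.log_pow]
        push_cast
        ring
      have h6 : 2 * (1 / 2 * Real.log (‖F (x + y * I)‖ ^ 2 + ε ^ 2)) =
          Real.log (‖F (x + y * I)‖ ^ 2 + ε ^ 2) := by ring
      rw [h5, h6, Real.exp_sub, Real.exp_log (by positivity), Real.exp_log (by positivity)]
    rw [hpfe]
    set c := κ + 1 / 2 with hc
    have hcpos : 0 < c := by positivity
    have ha0 : 0 ≤ 1 - u / c := by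
      rw [sub_nonneg, div_le_one hcpos]
      exact huc
    have hb0 : 0 ≤ u / c := by positivity
    have hconv := convexOn_exp.2 (mem_univ (2 * (0 - c))) (mem_univ (0:ℝ)) ha0 hb0 (by ring)
    simp only [smul_eq_mul, mul_zero, add_zero, Real.exp_zero, mul_one] at hconv
    have e1 : (1 - u / c) * (2 * (0 - c)) = 2 * (u - c) := by
      field_simp
      ring
    rw [e1] at hconv
    refine hconv.trans ?_
    have h7 : (1 - u / c) * Real.exp (2 * (0 - c)) ≤ 1 * Real.exp (-(2 * κ)) := by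
      have h8 : Real.exp (2 * (0 - c)) ≤ Real.exp (-(2 * κ)) := by
        apply Real.exp_le_exp.mpr
        rw [hc]
        linarith
      have h9 : 1 - u / c ≤ 1 := by
        have : 0 ≤ u / c := by positivity
        linarith
      have h10 : 0 ≤ 1 - u / c := by
        rw [sub_nonneg, div_le_one hcpos]
        exact huc
      have := Real.exp_pos (2 * (0 - c))
      gcongr
    have h11 : u / c ≤ u / κ := by
      apply div_le_div_of_nonneg_left hu0 hκ
      rw [hc]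
      linarith
    linarith
  have hmn := mn_mono (L := L) hL hpfc
    (h := fun z => Real.exp (-(2 * κ)) + (1 / 2 - lg F ε z) / κ) (by fun_prop) (x := x) hpt
  refine hmn.trans (le_of_eq ?_)
  simp only [mn]
  have hint : IntervalIntegrable (fun y : ℝ => lg F ε (x + y * I)) volume 0 L :=
    (by fun_prop : Continuous fun y : ℝ => lg F ε (x + y * I)).intervalIntegrable _ _
  rw [intervalIntegral.integral_add (by simp)
    ((intervalIntegrable_const.sub hint).div_const κ),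
    intervalIntegral.integral_div, intervalIntegral.integral_sub intervalIntegrable_const hint,
    intervalIntegral.integral_const, intervalIntegral.integral_const]
  generalize (∫ y in (0:ℝ)..L, lg F ε (x + y * I)) = J
  simp only [sub_zero, smul_eq_mul]
  field_simp

end Pool.Agent.helper21.SG
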