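import Mathlib

/-!
# The weighted algebra and the truncated Laplace transform
-/

set_option autoImplicit false

open Complex Set Filter Topology

namespace Pool.Agent.helper21.SG

/-- The weight `e^{-r^2}`. -/
noncomputable def wt (r : ℚ) : ℝ := Real.exp (-(r:ℝ) ^ 2)

lemma wt_pos (r : ℚ) : 0 < wt r := Real.exp_pos _

/-- Admissible coefficient families: supported on positive rationals, of finite norm. -/
structure Adm (f : ℚ → ℂ) : Prop where
  supp : ∀ r ≤ 0, f r = 0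
  sum : Summable fun r => ‖f r‖ * wt r

/-- The norm. -/
noncomputable def nrm (f : ℚ → ℂ) : ℝ := ∑' r, ‖f r‖ * wt r

lemma nrm_nonneg (f : ℚ → ℂ) : 0 ≤ nrm f :=
  tsum_nonneg fun r => mul_nonneg (norm_nonneg _) (wt_pos r).le

/-- Terms of the truncated transform. -/
noncomputable def tm (f : ℚ → ℂ) (T : ℝ) (z : ℂ) (r : ℚ) : ℂ :=
  if (r:ℝ) < T then f r * cexp (-(r:ℂ) * z) else 0

/-- The truncated transform. -/
noncomputable def Ph (f : ℚ → ℂ) (T : ℝ) (z : ℂ) : ℂ := ∑' r, tm f T z r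

lemma norm_cexp_rat (r : ℚ) (z : ℂ) : ‖cexp (-(r:ℂ) * z)‖ = Real.exp (-(r:ℝ) * z.re) := by
  rw [Complex.norm_exp]
  congr 1
  have : (-(r:ℂ)) = ((-(r:ℝ) : ℝ) : ℂ) := by push_cast; rfl
  rw [this, re_ofReal_mul]

lemma norm_tm_le {f : ℚ → ℂ} (hf : ∀ r ≤ 0, f r = 0) {T : ℝ} {z : ℂ} (hz : T ≤ z.re) (r : ℚ) :
    ‖tm f T z r‖ ≤ ‖f r‖ * wt r := by
  unfold tm
  split_ifs with h
  · rw [norm_mul, norm_cexp_rat]
    rcases le_or_gt r 0 with h0 | h0
    · simp [hf r h0]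
    · have h1 : (0:ℝ) < r := by exact_mod_cast h0
      unfold wt
      gcongr
      nlinarith
  · simp only [norm_zero]
    exact mul_nonneg (norm_nonneg _) (wt_pos r).le

lemma Adm.summable_tm {f : ℚ → ℂ} (hf : Adm f) {T : ℝ} {z : ℂ} (hz : T ≤ z.re) :
    Summable fun r => ‖tm f T z r‖ :=
  Summable.of_nonneg_of_le (fun _ => norm_nonneg _) (norm_tm_le hf.supp hz) hf.sum

lemma Adm.norm_Ph_le {f : ℚ → ℂ} (hf : Adm f) {T : ℝ} {z : ℂ} (hz : T ≤ z.re) :
    ‖Ph f T z‖ ≤ nrm f := by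
  refine (norm_tsum_le_tsum_norm (hf.summable_tm hz)).trans ?_
  exact (hf.summable_tm hz).tsum_le_tsum (norm_tm_le hf.supp hz) hf.sum

lemma Adm.sub {f g : ℚ → ℂ} (hf : Adm f) (hg : Adm g) : Adm fun r => f r - g r where
  supp := fun r hr => by rw [hf.supp r hr, hg.supp r hr, sub_zero]
  sum := by
    refine Summable.of_nonneg_of_le (fun r => mul_nonneg (norm_nonneg _) (wt_pos r).le)
      (fun r => ?_) (hf.sum.add hg.sum)
    rw [← add_mul]
    exact mul_le_mul_of_nonneg_right (norm_sub_le _ _) (wt_pos r).le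

lemma Adm.Ph_sub {f g : ℚ → ℂ} (hf : Adm f) (hg : Adm g) {T : ℝ} {z : ℂ} (hz : T ≤ z.re) :
    Ph (fun r => f r - g r) T z = Ph f T z - Ph g T z := by
  unfold Ph
  rw [← (hf.summable_tm hz).of_norm.tsum_sub (hg.summable_tm hz).of_norm]
  refine tsum_congr fun r => ?_
  unfold tm
  split_ifs
  · ring
  · simp

/-- Changing the truncation. -/
lemma Adm.Ph_change {f : ℚ → ℂ} (hf : Adm f) {T T' : ℝ} (hTT' : T ≤ T') (hT : 0 ≤ T) {z : ℂ}
    (hz : T' ≤ z.re) : ‖Ph f T' z - Ph f T z‖ ≤ nrm f * Real.exp (-(T * (z.re - T'))) := by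
  have hz' : T ≤ z.re := hTT'.trans hz
  have h1 : Ph f T' z - Ph f T z = ∑' r, (tm f T' z r - tm f T z r) := by
    unfold Ph
    rw [(hf.summable_tm hz).of_norm.tsum_sub (hf.summable_tm hz').of_norm]
  have h2 : ∀ r, ‖tm f T' z r - tm f T z r‖ ≤
      ‖f r‖ * wt r * Real.exp (-(T * (z.re - T'))) := by
    intro r
    have hnn : 0 ≤ ‖f r‖ * wt r * Real.exp (-(T * (z.re - T'))) := by
      have := wt_pos r
      positivity
    unfold tm
    rcases lt_or_ge (r:ℝ) T with h | h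
    · rw [if_pos h, if_pos (h.trans_le hTT'), sub_self, norm_zero]
      exact hnn
    · rw [if_neg (not_lt.mpr h), sub_zero]
      split_ifs with h'
      · rw [norm_mul, norm_cexp_rat, mul_assoc]
        gcongr
        unfold wt
        rw [← Real.exp_add]
        apply Real.exp_le_exp.mpr
        nlinarith [mul_nonneg (sub_nonneg.mpr h) (sub_nonneg.mpr hz),
          mul_nonneg (hT.trans h) (sub_nonneg.mpr h'.le)]
      · rw [norm_zero]
        exact hnn
  rw [h1]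
  have h3 : Summable fun r => ‖f r‖ * wt r * Real.exp (-(T * (z.re - T'))) := hf.sum.mul_right _
  have h4 : Summable fun r => ‖tm f T' z r - tm f T z r‖ :=
    Summable.of_nonneg_of_le (fun _ => norm_nonneg _) h2 h3
  refine (norm_tsum_le_tsum_norm h4).trans ((h4.tsum_le_tsum h2 h3).trans (le_of_eq ?_))
  rw [tsum_mul_right]
  rfl

/-- The equivalence used for convolutions. -/
def cvE : ℚ × ℚ ≃ ℚ × ℚ where
  toFun x := (x.2, x.1 - x.2)
  invFun y := (y.1 + y.2, y.1)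
  left_inv x := by ext <;> simp
  right_inv y := by ext <;> simp

/-- Convolution. -/
noncomputable def cv (f g : ℚ → ℂ) (r : ℚ) : ℂ := ∑' p, f p * g (r - p)

lemma wt_mul {p q : ℚ} (hp : 0 ≤ p) (hq : 0 ≤ q) : wt (p + q) ≤ wt p * wt q := by
  unfold wt
  rw [← Real.exp_add]
  apply Real.exp_le_exp.mpr
  have h1 : (0:ℝ) ≤ p := by exact_mod_cast hp
  have h2 : (0:ℝ) ≤ q := by exact_mod_cast hq
  push_cast
  nlinarith [mul_nonneg h1 h2]

lemma Adm.cv_term {f g : ℚ → ℂ} (hf : Adm f) (hg : Adm g) (p q : ℚ) :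
    ‖f p * g q‖ * wt (p + q) ≤ (‖f p‖ * wt p) * (‖g q‖ * wt q) := by
  rw [norm_mul]
  rcases le_or_gt p 0 with hp | hp
  · simp [hf.supp p hp]
  rcases le_or_gt q 0 with hq | hq
  · simp [hg.supp q hq]
  have := wt_mul hp.le hq.le
  calc ‖f p‖ * ‖g q‖ * wt (p + q) ≤ ‖f p‖ * ‖g q‖ * (wt p * wt q) := by gcongr
    _ = _ := by ring

lemma Adm.summable_cv2 {f g : ℚ → ℂ} (hf : Adm f) (hg : Adm g) :
    Summable fun x : ℚ × ℚ => ‖f x.2 * g (x.1 - x.2)‖ * wt x.1 := by
  have h1 : Summable fun x : ℚ × ℚ => (‖f x.1‖ * wt x.1) * (‖g x.2‖ * wt x.2) :=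
    hf.sum.mul_of_nonneg hg.sum (fun r => mul_nonneg (norm_nonneg _) (wt_pos r).le)
      (fun r => mul_nonneg (norm_nonneg _) (wt_pos r).le)
  have h2 : Summable fun x : ℚ × ℚ => ‖f x.1 * g x.2‖ * wt (x.1 + x.2) :=
    Summable.of_nonneg_of_le (fun x => mul_nonneg (norm_nonneg _) (wt_pos _).le)
      (fun x => hf.cv_term hg x.1 x.2) h1
  have h3 := cvE.summable_iff.mpr h2
  refine h3.congr fun x => ?_
  simp [cvE, Function.comp]

lemma Adm.summable_cv {f g : ℚ → ℂ} (hf : Adm f) (hg : Adm g) (r : ℚ) :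
    Summable fun p => ‖f p * g (r - p)‖ := by
  have h1 := (hf.summable_cv2 hg).prod_factor r
  exact (summable_mul_right_iff (wt_pos r).ne').mp h1

lemma Adm.nrm_cv_le {f g : ℚ → ℂ} (hf : Adm f) (hg : Adm g) : nrm (cv f g) ≤ nrm f * nrm g := by
  have hfn : ∀ r, 0 ≤ ‖f r‖ * wt r := fun r => mul_nonneg (norm_nonneg _) (wt_pos r).le
  have hgn : ∀ r, 0 ≤ ‖g r‖ * wt r := fun r => mul_nonneg (norm_nonneg _) (wt_pos r).le
  have h1 : Summable fun x : ℚ × ℚ => (‖f x.1‖ * wt x.1) * (‖g x.2‖ * wt x.2) :=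
    hf.sum.mul_of_nonneg hg.sum hfn hgn
  have h2 := hf.summable_cv2 hg
  have h3 : ∑' x : ℚ × ℚ, ‖f x.2 * g (x.1 - x.2)‖ * wt x.1 ≤ nrm f * nrm g := by
    have e1 : nrm f * nrm g = ∑' x : ℚ × ℚ, (‖f x.1‖ * wt x.1) * (‖g x.2‖ * wt x.2) :=
      hf.sum.tsum_mul_tsum hg.sum h1
    rw [e1, ← cvE.tsum_eq (fun x : ℚ × ℚ => (‖f x.1‖ * wt x.1) * (‖g x.2‖ * wt x.2))]
    refine h2.tsum_le_tsum (fun x => ?_) (cvE.summable_iff.mpr h1)
    have := hf.cv_term hg x.2 (x.1 - x.2)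
    simpa [cvE] using this
  refine le_trans ?_ h3
  rw [h2.tsum_prod]
  have h5 : ∀ r, ‖cv f g r‖ * wt r ≤ ∑' p, ‖f p * g (r - p)‖ * wt r := by
    intro r
    rw [tsum_mul_right]
    refine mul_le_mul_of_nonneg_right ?_ (wt_pos r).le
    exact norm_tsum_le_tsum_norm (hf.summable_cv hg r)
  have h6 : Summable fun r => ∑' p, ‖f p * g (r - p)‖ * wt r := h2.prod
  have h7 : Summable fun r => ‖cv f g r‖ * wt r :=
    Summable.of_nonneg_of_le (fun r => mul_nonneg (norm_nonneg _) (wt_pos r).le) h5 h6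
  exact h7.tsum_le_tsum h5 h6

/-- Approximate multiplicativity of the truncated transform. -/
lemma Adm.Ph_mul {f g : ℚ → ℂ} (hf : Adm f) (hg : Adm g) {T : ℝ} {z : ℂ} (hz : T ≤ z.re) :
    ‖Ph (cv f g) T z - Ph f T z * Ph g T z‖ ≤ nrm f * nrm g * Real.exp (-(T * (z.re - T))) := by
  have hfn : ∀ r, 0 ≤ ‖f r‖ * wt r := fun r => mul_nonneg (norm_nonneg _) (wt_pos r).le
  have hgn : ∀ r, 0 ≤ ‖g r‖ * wt r := fun r => mul_nonneg (norm_nonneg _) (wt_pos r).le
  have hprod : Summable fun x : ℚ × ℚ => (‖f x.1‖ * wt x.1) * (‖g x.2‖ * wt x.2) :=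
    hf.sum.mul_of_nonneg hg.sum hfn hgn
  set A : ℚ × ℚ → ℂ := fun x => tm f T z x.1 * tm g T z x.2 with hA
  set B : ℚ × ℚ → ℂ := fun x =>
    if ((x.1 + x.2 : ℚ) : ℝ) < T then f x.1 * g x.2 * cexp (-((x.1 + x.2 : ℚ):ℂ) * z) else 0 with hB
  have hAsum : Summable fun x => ‖A x‖ := by
    have := (hf.summable_tm hz).mul_norm (hg.summable_tm hz)
    exact this
  have hAeq : ∑' x, A x = Ph f T z * Ph g T z :=
    (tsum_mul_tsum_of_summable_norm (hf.summable_tm hz) (hg.summable_tm hz)).symm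
  have hBle : ∀ x, ‖B x‖ ≤ (‖f x.1‖ * wt x.1) * (‖g x.2‖ * wt x.2) := by
    intro x
    simp only [hB]
    split_ifs with h
    · refine le_trans ?_ (hf.cv_term hg x.1 x.2)
      rw [norm_mul, norm_cexp_rat]
      rcases le_or_gt x.1 0 with hp | hp
      · simp [hf.supp _ hp]
      rcases le_or_gt x.2 0 with hq | hq
      · simp [hg.supp _ hq]
      unfold wt
      gcongr
      have h1 : (0:ℝ) < ((x.1 + x.2 : ℚ) : ℝ) := by exact_mod_cast add_pos hp hq
      nlinarith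
    · rw [norm_zero]
      exact mul_nonneg (hfn _) (hgn _)
  have hBsum : Summable fun x => ‖B x‖ :=
    Summable.of_nonneg_of_le (fun _ => norm_nonneg _) hBle hprod
  have hBeq : ∑' x, B x = Ph (cv f g) T z := by
    rw [← cvE.tsum_eq B]
    have hsumm : Summable fun x => B (cvE x) := cvE.summable_iff.mpr hBsum.of_norm
    rw [hsumm.tsum_prod]
    unfold Ph
    refine tsum_congr fun r => ?_
    unfold tm cv
    have e1 : ∀ p : ℚ, B (cvE (r, p)) =
        if (r:ℝ) < T then f p * g (r - p) * cexp (-(r:ℂ) * z) else 0 := by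
      intro p
      simp only [hB, cvE, Equiv.coe_fn_mk]
      have : p + (r - p) = r := by ring
      rw [this]
    simp only [e1]
    split_ifs with h
    · rw [tsum_mul_right]
    · simp
  have hdiff : ∀ x, ‖B x - A x‖ ≤
      (‖f x.1‖ * wt x.1) * (‖g x.2‖ * wt x.2) * Real.exp (-(T * (z.re - T))) := by
    intro x
    have hnn : 0 ≤ (‖f x.1‖ * wt x.1) * (‖g x.2‖ * wt x.2) * Real.exp (-(T * (z.re - T))) :=
      mul_nonneg (mul_nonneg (hfn _) (hgn _)) (Real.exp_pos _).le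
    simp only [hA, hB, tm]
    rcases le_or_gt x.1 0 with hp | hp
    · simp [hf.supp _ hp]
    rcases le_or_gt x.2 0 with hq | hq
    · simp [hg.supp _ hq]
    have hp' : (0:ℝ) < x.1 := by exact_mod_cast hp
    have hq' : (0:ℝ) < x.2 := by exact_mod_cast hq
    by_cases h : ((x.1 + x.2 : ℚ) : ℝ) < T
    · have h' : (x.1 : ℝ) + x.2 < T := by push_cast at h; exact h
      rw [if_pos h, if_pos (by linarith), if_pos (by linarith)]
      have e1 : f x.1 * g x.2 * cexp (-((x.1 + x.2 : ℚ):ℂ) * z) -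
          f x.1 * cexp (-(x.1:ℂ) * z) * (g x.2 * cexp (-(x.2:ℂ) * z)) = 0 := by
        have : cexp (-((x.1 + x.2 : ℚ):ℂ) * z) = cexp (-(x.1:ℂ) * z) * cexp (-(x.2:ℂ) * z) := by
          rw [← Complex.exp_add]
          congr 1
          push_cast
          ring
        rw [this]
        ring
      rw [e1, norm_zero]
      exact hnn
    · rw [if_neg h, zero_sub, norm_neg]
      have h' : T ≤ (x.1 : ℝ) + x.2 := by
        push_cast at h
        exact not_lt.mp h
      by_cases h1 : (x.1 : ℝ) < T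
      · by_cases h2 : (x.2 : ℝ) < T
        · rw [if_pos h1, if_pos h2, norm_mul, norm_mul, norm_mul, norm_cexp_rat, norm_cexp_rat]
          have e2 : Real.exp (-(x.1:ℝ) * z.re) * Real.exp (-(x.2:ℝ) * z.re) ≤
              wt x.1 * wt x.2 * Real.exp (-(T * (z.re - T))) := by
            unfold wt
            rw [← Real.exp_add, ← Real.exp_add, ← Real.exp_add]
            apply Real.exp_le_exp.mpr
            nlinarith [mul_nonneg hp'.le (sub_nonneg.mpr h1.le),
              mul_nonneg hq'.le (sub_nonneg.mpr h2.le),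
              mul_nonneg (sub_nonneg.mpr h') (sub_nonneg.mpr hz)]
          calc ‖f x.1‖ * Real.exp (-(x.1:ℝ) * z.re) * (‖g x.2‖ * Real.exp (-(x.2:ℝ) * z.re))
              = ‖f x.1‖ * ‖g x.2‖ * (Real.exp (-(x.1:ℝ) * z.re) * Real.exp (-(x.2:ℝ) * z.re)) := by
                ring
            _ ≤ ‖f x.1‖ * ‖g x.2‖ * (wt x.1 * wt x.2 * Real.exp (-(T * (z.re - T)))) := by
                gcongr
            _ = _ := by ring
        · rw [if_neg h2, mul_zero, norm_zero]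
          exact hnn
      · rw [if_neg h1, zero_mul, norm_zero]
        exact hnn
  rw [← hBeq, ← hAeq, ← hBsum.of_norm.tsum_sub hAsum.of_norm]
  have h3 := hprod.mul_right (Real.exp (-(T * (z.re - T))))
  have h4 : Summable fun x => ‖B x - A x‖ :=
    Summable.of_nonneg_of_le (fun _ => norm_nonneg _) hdiff h3
  refine (norm_tsum_le_tsum_norm h4).trans ((h4.tsum_le_tsum hdiff h3).trans (le_of_eq ?_))
  rw [tsum_mul_right, ← hf.sum.tsum_mul_tsum hg.sum hprod]
  rfl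

end Pool.Agent.helper21.SG
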