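import Mathlib
import Pool.Agent.helper21.SG.Weighted

/-!
# Restrictions to finite sets, semigroups
-/

set_option autoImplicit false

open Complex Set Filter Topology

namespace Pool.Agent.helper21.SG

/-- Restriction to a finite set. -/
noncomputable def rs (S : Finset ℚ) (f : ℚ → ℂ) (r : ℚ) : ℂ := if r ∈ S then f r else 0

lemma norm_rs_le (S : Finset ℚ) (f : ℚ → ℂ) (r : ℚ) : ‖rs S f r‖ ≤ ‖f r‖ := by
  unfold rs
  split_ifs
  · exact le_rfl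
  · simp

lemma Adm.mono {f g : ℚ → ℂ} (hf : Adm f) (h : ∀ r, ‖g r‖ ≤ ‖f r‖) : Adm g where
  supp := fun r hr => by
    have := h r
    rw [hf.supp r hr, norm_zero] at this
    exact norm_le_zero_iff.mp this
  sum := Summable.of_nonneg_of_le (fun r => mul_nonneg (norm_nonneg _) (wt_pos r).le)
    (fun r => mul_le_mul_of_nonneg_right (h r) (wt_pos r).le) hf.sum

lemma Adm.nrm_mono {f g : ℚ → ℂ} (hf : Adm f) (h : ∀ r, ‖g r‖ ≤ ‖f r‖) : nrm g ≤ nrm f :=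
  (hf.mono h).sum.tsum_le_tsum (fun r => mul_le_mul_of_nonneg_right (h r) (wt_pos r).le) hf.sum

lemma Adm.rs {f : ℚ → ℂ} (hf : Adm f) (S : Finset ℚ) : Adm (rs S f) := hf.mono (norm_rs_le S f)

lemma Adm.nrm_rs_le {f : ℚ → ℂ} (hf : Adm f) (S : Finset ℚ) : nrm (SG.rs S f) ≤ nrm f :=
  hf.nrm_mono (norm_rs_le S f)

lemma Ph_rs_eq (S : Finset ℚ) (f : ℚ → ℂ) (T : ℝ) (z : ℂ) :
    Ph (rs S f) T z = ∑ r ∈ S, tm f T z r := by
  unfold Ph
  rw [tsum_eq_sum (s := S)]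
  · refine Finset.sum_congr rfl fun r hr => ?_
    unfold tm rs
    simp [hr]
  · intro r hr
    unfold tm rs
    simp [hr]

lemma differentiable_Ph_rs (S : Finset ℚ) (f : ℚ → ℂ) (T : ℝ) :
    Differentiable ℂ (Ph (rs S f) T) := by
  have : Ph (rs S f) T = fun z => ∑ r ∈ S, tm f T z r := funext fun z => Ph_rs_eq S f T z
  rw [this]
  refine Differentiable.fun_sum fun r _ => ?_
  unfold tm
  split_ifs
  · fun_prop
  · exact differentiable_const _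

lemma Ph_rs_periodic (S : Finset ℚ) (f : ℚ → ℂ) (T : ℝ) {N : ℕ}
    (hN : ∀ r ∈ S, ∃ m : ℤ, r * N = m) (z : ℂ) :
    Ph (rs S f) T (z + (2 * Real.pi * N : ℝ) * I) = Ph (rs S f) T z := by
  rw [Ph_rs_eq, Ph_rs_eq]
  refine Finset.sum_congr rfl fun r hr => ?_
  unfold tm
  split_ifs
  · obtain ⟨m, hm⟩ := hN r hr
    congr 1
    rw [Complex.exp_eq_exp_iff_exists_int]
    refine ⟨-m, ?_⟩
    have hm' : (r:ℂ) * N = m := by exact_mod_cast congrArg (fun q : ℚ => (q : ℂ)) hm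
    push_cast
    linear_combination (-2 * Real.pi * I) * hm'
  · rfl

/-- A common denominator. -/
lemma exists_den (S : Finset ℚ) : ∃ N : ℕ, 0 < N ∧ ∀ r ∈ S, ∃ m : ℤ, r * N = m := by
  refine ⟨∏ r ∈ S, r.den, Finset.prod_pos fun r _ => r.den_pos, fun r hr => ?_⟩
  obtain ⟨k, hk⟩ := Finset.dvd_prod_of_mem (fun r : ℚ => r.den) hr
  refine ⟨r.num * k, ?_⟩
  rw [hk]
  push_cast
  have h1 : r * r.den = r.num := Rat.mul_den_eq_num r
  rw [← mul_assoc, h1]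

lemma Adm.exists_rs {f : ℚ → ℂ} (hf : Adm f) {τ : ℝ} (hτ : 0 < τ) :
    ∃ S0 : Finset ℚ, ∀ S : Finset ℚ, S0 ⊆ S → nrm (fun r => f r - SG.rs S f r) ≤ τ := by
  have h1 := hf.sum.hasSum
  obtain ⟨S0, hS0⟩ := (summable_iff_vanishing_norm.mp hf.sum) τ hτ
  refine ⟨S0, fun S hS => ?_⟩
  have h2 : nrm (fun r => f r - SG.rs S f r) =
      ∑' r, (‖f r‖ * wt r - if r ∈ S then ‖f r‖ * wt r else 0) := by
    unfold nrm
    refine tsum_congr fun r => ?_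
    unfold SG.rs
    by_cases h : r ∈ S <;> simp [h]
  have h3 : Summable fun r => (if r ∈ S then ‖f r‖ * wt r else 0) :=
    summable_of_ne_finset_zero (s := S) fun r hr => by simp [hr]
  have h4 : ∑' r, (if r ∈ S then ‖f r‖ * wt r else 0) = ∑ r ∈ S, ‖f r‖ * wt r := by
    rw [tsum_eq_sum (s := S) fun r hr => by simp [hr]]
    exact Finset.sum_congr rfl fun r hr => by simp [hr]
  rw [h2, hf.sum.tsum_sub h3, h4]
  -- tail estimate
  have h5 : ∀ U : Finset ℚ, ∑ r ∈ U, ‖f r‖ * wt r ≤ ∑ r ∈ S, ‖f r‖ * wt r + τ := by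
    intro U
    have h6 : ∑ r ∈ U, ‖f r‖ * wt r ≤ ∑ r ∈ S ∪ (U \ S), ‖f r‖ * wt r := by
      refine Finset.sum_le_sum_of_subset_of_nonneg ?_ fun r _ _ =>
        mul_nonneg (norm_nonneg _) (wt_pos r).le
      intro r hr
      simp only [Finset.mem_union, Finset.mem_sdiff]
      tauto
    rw [Finset.sum_union Finset.disjoint_sdiff] at h6
    have h7 := hS0 (U \ S) (by
      rw [Finset.disjoint_left]
      intro r hr hr'
      exact (Finset.mem_sdiff.mp hr).2 (hS hr'))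
    have h8 := Real.le_norm_self (∑ r ∈ U \ S, ‖f r‖ * wt r)
    linarith
  have h9 : ∑' r, ‖f r‖ * wt r ≤ ∑ r ∈ S, ‖f r‖ * wt r + τ :=
    hf.sum.tsum_le_of_sum_le h5
  linarith

/-- Normalised semigroups. -/
structure SGp (a : ℝ → ℚ → ℂ) : Prop where
  adm : ∀ t > 0, Adm (a t)
  mul : ∀ s > 0, ∀ t > 0, a (s + t) = cv (a s) (a t)
  nle : ∀ t ≥ 1, nrm (a t) ≤ 1

variable {a : ℝ → ℚ → ℂ}

lemma SGp.bd (ha : SGp a) {t : ℝ} (ht : 1 ≤ t) {T : ℝ} {z : ℂ} (hz : T ≤ z.re) :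
    ‖Ph (a t) T z‖ ≤ 1 :=
  ((ha.adm t (by linarith)).norm_Ph_le hz).trans (ha.nle t ht)

lemma SGp.Ph_add (ha : SGp a) {s t : ℝ} (hs : 1 ≤ s) (ht : 1 ≤ t) {T : ℝ} {z : ℂ} (hz : T ≤ z.re) :
    ‖Ph (a (s + t)) T z - Ph (a s) T z * Ph (a t) T z‖ ≤ Real.exp (-(T * (z.re - T))) := by
  have hs0 : 0 < s := by linarith
  have ht0 : 0 < t := by linarith
  rw [ha.mul s hs0 t ht0]
  refine ((ha.adm s hs0).Ph_mul (ha.adm t ht0) hz).trans ?_
  have h1 := ha.nle s hs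
  have h2 := ha.nle t ht
  have h3 := nrm_nonneg (a s)
  have h4 := nrm_nonneg (a t)
  have h5 : nrm (a s) * nrm (a t) ≤ 1 := by nlinarith
  have h6 := Real.exp_pos (-(T * (z.re - T)))
  nlinarith

lemma SGp.Ph_pow (ha : SGp a) {s : ℝ} (hs : 1 ≤ s) {T : ℝ} {z : ℂ} (hz : T ≤ z.re) (k : ℕ) :
    ‖Ph (a ((k + 1 : ℕ) * s)) T z - (Ph (a s) T z) ^ (k + 1)‖ ≤
      k * Real.exp (-(T * (z.re - T))) := by
  induction k with
  | zero => simp
  | succ k ih =>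
    have hks : 1 ≤ ((k + 1 : ℕ) : ℝ) * s := by
      push_cast
      have : (0:ℝ) ≤ k := by positivity
      nlinarith
    have e1 : ((k + 1 + 1 : ℕ) : ℝ) * s = ((k + 1 : ℕ) : ℝ) * s + s := by push_cast; ring
    rw [e1]
    have h1 := ha.Ph_add hks hs hz
    have h2 := ha.bd hs hz
    have e2 : Ph (a (((k + 1 : ℕ) : ℝ) * s + s)) T z - Ph (a s) T z ^ (k + 1 + 1) =
        (Ph (a (((k + 1 : ℕ) : ℝ) * s + s)) T z -
          Ph (a (((k + 1 : ℕ) : ℝ) * s)) T z * Ph (a s) T z) +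
        (Ph (a (((k + 1 : ℕ) : ℝ) * s)) T z - Ph (a s) T z ^ (k + 1)) * Ph (a s) T z := by ring
    rw [e2]
    refine (norm_add_le _ _).trans ?_
    rw [norm_mul]
    have h3 := norm_nonneg (Ph (a (((k + 1 : ℕ) : ℝ) * s)) T z - Ph (a s) T z ^ (k + 1))
    have h5 := mul_le_of_le_one_right h3 h2
    push_cast at h1 ih h5 ⊢
    linarith

lemma sup_trick {u : ℕ → ℝ} {f e : ℝ} (hu0 : ∀ k, 0 ≤ u k) (hu1 : ∀ k, u k ≤ 1) (hf : 0 ≤ f)
    (he : 0 ≤ e) (h : ∀ k, u k ^ 2 ≤ f * u (k + 1) + e) : u 0 ≤ f + √e := by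
  set G := ⨆ k, u k with hG
  have hbdd : BddAbove (range u) := ⟨1, by rintro _ ⟨k, rfl⟩; exact hu1 k⟩
  have hle : ∀ k, u k ≤ G := fun k => le_ciSup hbdd k
  have hG0 : 0 ≤ G := (hu0 0).trans (hle 0)
  have h1 : ∀ k, u k ≤ √(f * G + e) := by
    intro k
    apply Real.le_sqrt_of_sq_le
    refine (h k).trans ?_
    have := hle (k + 1)
    gcongr
  have h2 : G ≤ √(f * G + e) := ciSup_le h1
  have h3 : G ^ 2 ≤ f * G + e := by
    have h4 : 0 ≤ f * G + e := by positivity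
    calc G ^ 2 ≤ √(f * G + e) ^ 2 := by gcongr
      _ = _ := Real.sq_sqrt h4
  refine (hle 0).trans ?_
  by_contra hcon
  push Not at hcon
  have h5 := Real.sqrt_nonneg e
  have h6 := Real.sq_sqrt he
  nlinarith

lemma SGp.sup_bd (ha : SGp a) {s : ℝ} (hs : 0 ≤ s) {T : ℝ} {z : ℂ} (hz : T ≤ z.re) :
    ‖Ph (a (1 + s)) T z‖ ≤ ‖Ph (a 1) T z‖ + √(2 * Real.exp (-(T * (z.re - T)))) := by
  set e := Real.exp (-(T * (z.re - T))) with he
  have hepos : 0 < e := Real.exp_pos _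
  have key : ∀ k : ℕ, ‖Ph (a (1 + 2 ^ k * s)) T z‖ ^ 2 ≤
      ‖Ph (a 1) T z‖ * ‖Ph (a (1 + 2 ^ (k + 1) * s)) T z‖ + 2 * e := by
    intro k
    have hk : 1 ≤ 1 + 2 ^ k * s := by
      have : 0 ≤ (2:ℝ) ^ k * s := by positivity
      linarith
    have hk' : 1 ≤ 1 + 2 ^ (k + 1) * s := by
      have : 0 ≤ (2:ℝ) ^ (k + 1) * s := by positivity
      linarith
    have h1 := ha.Ph_add hk hk hz
    have h2 := ha.Ph_add le_rfl hk' hz
    have e1 : (1 + 2 ^ k * s) + (1 + 2 ^ k * s) = 1 + (1 + 2 ^ (k + 1) * s) := by ring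
    rw [e1] at h1
    have e2 : Ph (a (1 + 2 ^ k * s)) T z * Ph (a (1 + 2 ^ k * s)) T z =
        Ph (a 1) T z * Ph (a (1 + 2 ^ (k + 1) * s)) T z +
        (Ph (a (1 + (1 + 2 ^ (k + 1) * s))) T z - Ph (a 1) T z * Ph (a (1 + 2 ^ (k + 1) * s)) T z) -
        (Ph (a (1 + (1 + 2 ^ (k + 1) * s))) T z -
          Ph (a (1 + 2 ^ k * s)) T z * Ph (a (1 + 2 ^ k * s)) T z) := by ring
    rw [sq, ← norm_mul, e2]
    refine (norm_sub_le _ _).trans ?_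
    have h3 := norm_add_le (Ph (a 1) T z * Ph (a (1 + 2 ^ (k + 1) * s)) T z)
      (Ph (a (1 + (1 + 2 ^ (k + 1) * s))) T z - Ph (a 1) T z * Ph (a (1 + 2 ^ (k + 1) * s)) T z)
    rw [norm_mul] at h3
    linarith
  have h := sup_trick (u := fun k => ‖Ph (a (1 + 2 ^ k * s)) T z‖) (f := ‖Ph (a 1) T z‖)
    (e := 2 * e) (fun k => norm_nonneg _) (fun k => ha.bd (by
      have : 0 ≤ (2:ℝ) ^ k * s := by positivity
      linarith) hz) (norm_nonneg _) (by positivity) key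
  simpa using h

/-- `a^{1+1/n}` to the power `n` is `a^1` to the power `n+1`. -/
lemma SGp.pow_eq (ha : SGp a) {n : ℕ} (hn : 0 < n) {T : ℝ} {z : ℂ} (hz : T ≤ z.re) :
    ‖Ph (a (1 + 1 / n)) T z ^ n - Ph (a 1) T z ^ (n + 1)‖ ≤
      (2 * n) * Real.exp (-(T * (z.re - T))) := by
  set e := Real.exp (-(T * (z.re - T))) with he
  have hepos : 0 < e := Real.exp_pos _
  have hnpos : (0:ℝ) < n := by exact_mod_cast hn
  obtain ⟨k, rfl⟩ : ∃ k, n = k + 1 := ⟨n - 1, by omega⟩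
  have h1 := ha.Ph_pow (s := 1 + 1 / ((k + 1 : ℕ) : ℝ)) (by
    have : 0 ≤ 1 / ((k + 1 : ℕ) : ℝ) := by positivity
    linarith) hz k
  have h2 := ha.Ph_pow (s := 1) le_rfl hz (k + 1)
  have e1 : ((k + 1 : ℕ) : ℝ) * (1 + 1 / ((k + 1 : ℕ) : ℝ)) = ((k + 1 + 1 : ℕ) : ℝ) * 1 := by
    field_simp
    push_cast
    ring
  rw [e1] at h1
  have e2 : Ph (a (1 + 1 / ((k + 1 : ℕ) : ℝ))) T z ^ (k + 1) - Ph (a 1) T z ^ (k + 1 + 1) =
      (Ph (a (((k + 1 + 1 : ℕ) : ℝ) * 1)) T z - Ph (a 1) T z ^ (k + 1 + 1)) -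
      (Ph (a (((k + 1 + 1 : ℕ) : ℝ) * 1)) T z -
        Ph (a (1 + 1 / ((k + 1 : ℕ) : ℝ))) T z ^ (k + 1)) := by ring
  rw [e2]
  refine (norm_sub_le _ _).trans ?_
  push_cast at h1 h2 ⊢
  nlinarith

end Pool.Agent.helper21.SG
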