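import Mathlib
import Pool.Agent.helper21.SG.Semi
import Pool.Agent.helper21.SG.Scale

/-!
# Base case and decay
-/

set_option autoImplicit false

open Complex Set Filter Topology MeasureTheory

namespace Pool.Agent.helper21.SG

lemma integral_char {N : ℕ} {q : ℚ} (hq : ∃ m : ℤ, q * N = m) (y0 : ℝ) :
    ∫ y in y0..(y0 + 2 * Real.pi * N), cexp (((q:ℂ) * I) * y) =
      if q = 0 then ((2 * Real.pi * N : ℝ) : ℂ) else 0 := by
  split_ifs with h
  · rw [h]
    simp only [Rat.cast_zero, zero_mul, Complex.exp_zero, intervalIntegral.integral_const,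
      add_sub_cancel_left, Complex.real_smul, mul_one]
  · have hc : (q:ℂ) * I ≠ 0 := mul_ne_zero (by exact_mod_cast h) I_ne_zero
    rw [integral_exp_mul_complex hc]
    obtain ⟨m, hm⟩ := hq
    have hm' : (q:ℂ) * N = m := by exact_mod_cast congrArg (fun q : ℚ => (q : ℂ)) hm
    have e1 : cexp ((q:ℂ) * I * ((y0 + 2 * Real.pi * N : ℝ) : ℂ)) = cexp ((q:ℂ) * I * y0) := by
      rw [Complex.exp_eq_exp_iff_exists_int]
      refine ⟨m, ?_⟩
      push_cast
      linear_combination (2 * Real.pi * I) * hm'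
    rw [e1, sub_self, zero_div]

/-- The Bohr coefficient bounds the sup over a period. -/
lemma bohr {S : Finset ℚ} {f : ℚ → ℂ} {T x : ℝ} {N : ℕ} (hN : 0 < N)
    (hNS : ∀ r ∈ S, ∃ m : ℤ, r * N = m) {r0 : ℚ} (hr0 : r0 ∈ S) (hr0T : (r0:ℝ) < T) (y0 : ℝ) :
    ∃ y, y0 ≤ y ∧ y ≤ y0 + 2 * Real.pi * N ∧
      ‖f r0‖ * Real.exp (-(r0:ℝ) * x) ≤ ‖Ph (rs S f) T (x + y * I)‖ := by
  have hNpos : (0:ℝ) < N := by exact_mod_cast hN
  have hpi := Real.pi_pos
  have hP : 0 < 2 * Real.pi * N := by positivity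
  set G : ℝ → ℂ := fun y => Ph (rs S f) T (x + y * I) with hG
  have hGc : Continuous G := by
    have := (differentiable_Ph_rs S f T).continuous
    fun_prop
  obtain ⟨y, hy, hmax⟩ := (isCompact_Icc (a := y0) (b := y0 + 2 * Real.pi * N)).exists_isMaxOn
    (nonempty_Icc.mpr (by linarith)) hGc.norm.continuousOn
  refine ⟨y, hy.1, hy.2, ?_⟩
  -- the integral
  have hint : ∫ y in y0..(y0 + 2 * Real.pi * N), G y * cexp (((r0:ℂ) * I) * y) =
      (2 * Real.pi * N : ℝ) * (f r0 * cexp (-(r0:ℂ) * x)) := by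
    have e1 : ∀ y : ℝ, G y * cexp (((r0:ℂ) * I) * y) =
        ∑ r ∈ S, (if (r:ℝ) < T then f r * cexp (-(r:ℂ) * x) else 0) *
          cexp ((((r0 - r : ℚ):ℂ) * I) * y) := by
      intro y
      simp only [hG]
      rw [Ph_rs_eq, Finset.sum_mul]
      refine Finset.sum_congr rfl fun r _ => ?_
      unfold tm
      split_ifs
      · rw [mul_assoc (f r), mul_assoc (f r), ← Complex.exp_add, ← Complex.exp_add]
        congr 2
        push_cast
        ring
      · simp
    simp only [e1]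
    rw [intervalIntegral.integral_finsetSum]
    · have e2 : ∀ r ∈ S, ∫ y in y0..(y0 + 2 * Real.pi * N),
          (if (r:ℝ) < T then f r * cexp (-(r:ℂ) * x) else 0) * cexp ((((r0 - r : ℚ):ℂ) * I) * y) =
          if r = r0 then (2 * Real.pi * N : ℝ) * (f r0 * cexp (-(r0:ℂ) * x)) else 0 := by
        intro r hr
        rw [intervalIntegral.integral_const_mul, integral_char (q := r0 - r)]
        · by_cases h : r = r0
          · subst h
            simp [hr0T, mul_comm]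
          · have h' : r0 - r ≠ 0 := fun h'' => h (sub_eq_zero.mp h'').symm
            simp [h, h']
        · obtain ⟨m, hm⟩ := hNS r hr
          obtain ⟨m0, hm0⟩ := hNS r0 hr0
          exact ⟨m0 - m, by push_cast; rw [sub_mul, hm, hm0]⟩
      rw [Finset.sum_congr rfl e2, Finset.sum_ite_eq' S r0]
      simp [hr0]
    · intro r _
      refine Continuous.intervalIntegrable ?_ _ _
      fun_prop
  have hnorm : ‖∫ y in y0..(y0 + 2 * Real.pi * N), G y * cexp (((r0:ℂ) * I) * y)‖ ≤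
      ‖G y‖ * |y0 + 2 * Real.pi * N - y0| := by
    refine intervalIntegral.norm_integral_le_of_norm_le_const fun t ht => ?_
    rw [uIoc_of_le (by linarith)] at ht
    have h1 : ‖cexp (((r0:ℂ) * I) * t)‖ = 1 := by
      have : ((r0:ℂ) * I) * t = ((r0 * t : ℝ) : ℂ) * I := by push_cast; ring
      rw [this, Complex.norm_exp_ofReal_mul_I]
    rw [norm_mul, h1, mul_one]
    exact hmax (Ioc_subset_Icc_self ht)
  rw [hint, norm_mul, norm_real, Real.norm_eq_abs, abs_of_pos hP, norm_mul, norm_cexp_rat,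
    add_sub_cancel_left, abs_of_pos hP, ofReal_re, mul_comm (‖G y‖)] at hnorm
  exact le_of_mul_le_mul_left hnorm hP

lemma base_exists {f : ℚ → ℂ} (hf : Adm f) {r0 : ℚ} (hr0 : f r0 ≠ 0) :
    ∃ x1 : ℝ, 16 ≤ x1 ∧ ∃ (S0 : Finset ℚ) (l0 : ℝ), ∀ S : Finset ℚ, S0 ⊆ S → ∀ y0 : ℝ,
      ∃ y : ℝ, |y - y0| ≤ l0 ∧
        Real.exp (-sD x1 0) ≤ ‖Ph (rs S f) (sX x1 0 / 16) (sX x1 0 + y * I)‖ := by
  have hr0pos : 0 < r0 := by
    by_contra h
    exact hr0 (hf.supp r0 (not_lt.mp h))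
  have hr0' : (0:ℝ) < r0 := by exact_mod_cast hr0pos
  have hnpos : 0 < ‖f r0‖ := norm_pos_iff.mpr hr0
  set x1 : ℝ := max 16 (max (32 * (r0 + 1)) (Real.log (2 / ‖f r0‖))) with hx1
  have h16 : 16 ≤ x1 := le_max_left _ _
  have h32 : 32 * ((r0:ℝ) + 1) ≤ x1 := (le_max_left _ _).trans (le_max_right _ _)
  have hlog : Real.log (2 / ‖f r0‖) ≤ x1 := (le_max_right _ _).trans (le_max_right _ _)
  refine ⟨x1, h16, ?_⟩
  set τ : ℝ := ‖f r0‖ * Real.exp (-(r0:ℝ) * x1) / 2 with hτ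
  have hτpos : 0 < τ := by positivity
  obtain ⟨S1, hS1⟩ := hf.exists_rs hτpos
  set S0 := insert r0 S1 with hS0
  obtain ⟨N, hN, hNS⟩ := exists_den S0
  have hX0 : sX x1 0 = x1 := by simp [sX]
  have hD0 : sD x1 0 = x1 ^ 2 / 32 := by simp [sD]
  have hNpos : (0:ℝ) < N := by exact_mod_cast hN
  have hpi := Real.pi_pos
  refine ⟨S0, 2 * Real.pi * N, fun S hS y0 => ?_⟩
  rw [hX0, hD0]
  have hT : (r0:ℝ) < x1 / 16 := by linarith
  obtain ⟨y, hy1, hy2, hy3⟩ := bohr (S := S0) (f := f) (T := x1 / 16) (x := x1) hN hNS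
    (Finset.mem_insert_self r0 S1) hT y0
  refine ⟨y, ?_, ?_⟩
  · rw [abs_of_nonneg (by linarith)]
    linarith
  have hz : x1 / 16 ≤ ((x1:ℂ) + y * I).re := by
    simp only [add_re, ofReal_re, mul_re, I_re, mul_zero, ofReal_im, I_im, mul_one, sub_self,
      add_zero]
    linarith
  have h1 : ‖Ph (rs S f) (x1 / 16) (x1 + y * I) - Ph (rs S0 f) (x1 / 16) (x1 + y * I)‖ ≤ τ := by
    rw [← (hf.rs S).Ph_sub (hf.rs S0) hz]
    refine (((hf.rs S).sub (hf.rs S0)).norm_Ph_le hz).trans ?_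
    refine le_trans ?_ (hS1 S0 (Finset.subset_insert _ _))
    refine (hf.sub (hf.rs S0)).nrm_mono fun r => ?_
    unfold rs
    by_cases h : r ∈ S0
    · simp [h, hS h]
    · by_cases h' : r ∈ S <;> simp [h, h']
  have h2 : ‖Ph (rs S0 f) (x1 / 16) (x1 + y * I)‖ ≤ ‖Ph (rs S f) (x1 / 16) (x1 + y * I)‖ + τ := by
    have h3 := norm_sub_norm_le (Ph (rs S0 f) (x1 / 16) (x1 + y * I))
      (Ph (rs S f) (x1 / 16) (x1 + y * I))
    rw [norm_sub_rev] at h3
    linarith
  have h4 : Real.exp (-(x1 ^ 2 / 32)) ≤ τ := by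
    have h5 : 2 / ‖f r0‖ ≤ Real.exp x1 := by
      have := Real.exp_le_exp.mpr hlog
      rwa [Real.exp_log (by positivity)] at this
    have h6 : 2 ≤ ‖f r0‖ * Real.exp x1 := by
      rwa [div_le_iff₀ hnpos, mul_comm] at h5
    have h7 : Real.exp (-(x1 ^ 2 / 32)) ≤ Real.exp (-(r0:ℝ) * x1) * Real.exp (-x1) := by
      rw [← Real.exp_add]
      apply Real.exp_le_exp.mpr
      nlinarith
    have h8 : Real.exp (-x1) ≤ ‖f r0‖ / 2 := by
      rw [Real.exp_neg, inv_le_comm₀ (Real.exp_pos _) (by positivity), inv_div]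
      exact h5
    calc Real.exp (-(x1 ^ 2 / 32)) ≤ Real.exp (-(r0:ℝ) * x1) * Real.exp (-x1) := h7
      _ ≤ Real.exp (-(r0:ℝ) * x1) * (‖f r0‖ / 2) := by gcongr
      _ = τ := by rw [hτ]; ring
  have h9 : ‖f r0‖ * Real.exp (-(r0:ℝ) * x1) = 2 * τ := by rw [hτ]; ring
  linarith

lemma decay {f : ℚ → ℂ} (hf : Adm f) {σ : ℝ} (hσ : 0 < σ) :
    ∃ X0 : ℝ, ∀ X, X0 ≤ X → ∀ S : Finset ℚ, ∀ z : ℂ, z.re = X →
      ‖Ph (rs S f) (X / 16) z‖ ≤ σ := by
  set b : ℝ → ℚ → ℝ := fun X r => ‖f r‖ * wt r * Real.exp (-(15 / 16 * r * X)) with hb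
  have hbb : ∀ X : ℝ, 0 ≤ X → ∀ r, b X r ≤ ‖f r‖ * wt r := by
    intro X hX r
    simp only [hb]
    rcases le_or_gt r 0 with h | h
    · simp [hf.supp r h]
    · have h' : (0:ℝ) < r := by exact_mod_cast h
      have h1 : Real.exp (-(15 / 16 * r * X)) ≤ 1 := Real.exp_le_one_iff.mpr (by
        have : 0 ≤ 15 / 16 * (r:ℝ) * X := by positivity
        linarith)
      have := mul_nonneg (norm_nonneg (f r)) (wt_pos r).le
      nlinarith
  have hb0 : ∀ X r, 0 ≤ b X r := fun X r =>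
    mul_nonneg (mul_nonneg (norm_nonneg _) (wt_pos r).le) (Real.exp_pos _).le
  have htend : Tendsto (fun X => ∑' r, b X r) atTop (𝓝 (∑' _ : ℚ, (0:ℝ))) := by
    refine tendsto_tsum_of_dominated_convergence hf.sum (fun r => ?_) ?_
    · simp only [hb]
      rcases le_or_gt r 0 with h | h
      · simp [hf.supp r h]
      · have h' : (0:ℝ) < r := by exact_mod_cast h
        have h1 : Tendsto (fun X : ℝ => Real.exp (-(15 / 16 * r * X))) atTop (𝓝 0) := by
          refine Real.tendsto_exp_neg_atTop_nhds_zero.comp ?_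
          exact tendsto_id.const_mul_atTop (by positivity)
        simpa using h1.const_mul (‖f r‖ * wt r)
    · filter_upwards [eventually_ge_atTop (0:ℝ)] with X hX r
      rw [Real.norm_eq_abs, abs_of_nonneg (hb0 X r)]
      exact hbb X hX r
  rw [tsum_zero] at htend
  have hev := (htend.eventually (gt_mem_nhds hσ)).and (eventually_ge_atTop (0:ℝ))
  obtain ⟨X0, hX0⟩ := eventually_atTop.mp hev
  refine ⟨X0, fun X hX S z hz => ?_⟩
  obtain ⟨h1, h2⟩ := hX0 X hX
  have hz' : X / 16 ≤ z.re := by rw [hz]; linarith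
  have hle : ∀ r, ‖tm (rs S f) (X / 16) z r‖ ≤ b X r := by
    intro r
    unfold tm
    split_ifs with h
    · rw [norm_mul, norm_cexp_rat, hz]
      rcases le_or_gt r 0 with h0 | h0
      · simp [(hf.rs S).supp r h0, hb0]
      · have h' : (0:ℝ) < r := by exact_mod_cast h0
        simp only [hb]
        calc ‖rs S f r‖ * Real.exp (-(r:ℝ) * X)
            ≤ ‖f r‖ * (wt r * Real.exp (-(15 / 16 * r * X))) := by
              have h3 := norm_rs_le S f r
              have h4 : Real.exp (-(r:ℝ) * X) ≤ wt r * Real.exp (-(15 / 16 * r * X)) := by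
                unfold wt
                rw [← Real.exp_add]
                apply Real.exp_le_exp.mpr
                nlinarith
              gcongr
          _ = _ := by ring
    · rw [norm_zero]
      exact hb0 X r
  have hbs : Summable (b X) := Summable.of_nonneg_of_le (hb0 X) (hbb X h2) hf.sum
  have hs := (hf.rs S).summable_tm hz'
  refine (norm_tsum_le_tsum_norm hs).trans ((hs.tsum_le_tsum hle hbs).trans ?_)
  exact h1.le

end Pool.Agent.helper21.SG
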