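import Mathlib
import Pool.Agent.helper21.SG.Scale

/-!
# Summation over scales
-/

set_option autoImplicit false

open Complex MeasureTheory Set Filter Topology ComplexConjugate

namespace Pool.Agent.helper21.SG

section pointwise

variable {F H : ℂ → ℂ} {z : ℂ}

lemma norm_Wf {ε : ℝ} (hε : 0 < ε) :
    ‖Wf F H ε z‖ = ‖H z‖ * ‖F z‖ / (‖F z‖ ^ 2 + ε ^ 2) := by
  rw [Wf, den_eq, norm_div, norm_mul, RCLike.norm_conj, norm_real, Real.norm_eq_abs,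
    abs_of_pos (by positivity : (0:ℝ) < ‖F z‖ ^ 2 + ε ^ 2)]

lemma norm_Wf_le {ε η : ℝ} (hε : 0 < ε) (hη : 0 ≤ η) (hηε : η ≤ ε) (hH : ‖H z‖ ≤ ‖F z‖ + η) :
    ‖Wf F H ε z‖ ≤ 3 / 2 := by
  rw [norm_Wf hε, div_le_iff₀ (by positivity)]
  have h1 : ‖H z‖ * ‖F z‖ ≤ (‖F z‖ + η) * ‖F z‖ := by gcongr
  nlinarith [sq_nonneg (‖F z‖ - η)]

lemma Wf_sub_le {ε ε' η : ℝ} (hε' : 0 < ε') (hεε' : ε' ≤ ε) (hη : 0 ≤ η) (hηε : η ≤ ε')
    (hH : ‖H z‖ ≤ ‖F z‖ + η) :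
    ‖Wf F H ε' z - Wf F H ε z‖ ≤ 3 / 2 * pf F ε z := by
  have hε : 0 < ε := hε'.trans_le hεε'
  have h1 : Wf F H ε' z - Wf F H ε z =
      Wf F H ε' z * (((ε ^ 2 - ε' ^ 2) / (‖F z‖ ^ 2 + ε ^ 2) : ℝ) : ℂ) := by
    rw [Wf, Wf, den_eq, den_eq]
    have h2 : ((‖F z‖ ^ 2 + ε ^ 2 : ℝ) : ℂ) ≠ 0 := by
      exact_mod_cast (by positivity : (0:ℝ) < ‖F z‖ ^ 2 + ε ^ 2).ne'
    have h3 : ((‖F z‖ ^ 2 + ε' ^ 2 : ℝ) : ℂ) ≠ 0 := by
      exact_mod_cast (by positivity : (0:ℝ) < ‖F z‖ ^ 2 + ε' ^ 2).ne'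
    rw [Complex.ofReal_div]
    field_simp
    push_cast
    ring
  rw [h1, norm_mul]
  have h4 := norm_Wf_le hε' hη hηε hH
  have h5 : ‖(((ε ^ 2 - ε' ^ 2) / (‖F z‖ ^ 2 + ε ^ 2) : ℝ) : ℂ)‖ ≤ pf F ε z := by
    rw [norm_real, Real.norm_eq_abs, abs_of_nonneg (by
      apply div_nonneg _ (by positivity)
      nlinarith), pf]
    gcongr
    nlinarith
  gcongr

lemma Wf_lip {F' H' : ℂ → ℂ} {ε δ : ℝ} (hε : 0 < ε) (hε1 : ε ≤ 1) (hF : ‖F z‖ ≤ 1)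
    (hF' : ‖F' z‖ ≤ 1) (hH : ‖H z‖ ≤ 1) (hH' : ‖H' z‖ ≤ 1) (hFF' : ‖F' z - F z‖ ≤ δ)
    (hHH' : ‖H' z - H z‖ ≤ δ) : ‖Wf F' H' ε z - Wf F H ε z‖ ≤ 4 * δ / ε ^ 4 := by
  have hδ : 0 ≤ δ := (norm_nonneg _).trans hFF'
  rw [Wf, Wf, den_eq, den_eq]
  set D : ℝ := ‖F z‖ ^ 2 + ε ^ 2 with hD
  set D' : ℝ := ‖F' z‖ ^ 2 + ε ^ 2 with hD'
  have hDpos : 0 < D := by positivity
  have hD'pos : 0 < D' := by positivity
  have hDε : ε ^ 2 ≤ D := by rw [hD]; nlinarith [norm_nonneg (F z)]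
  have hD'ε : ε ^ 2 ≤ D' := by rw [hD']; nlinarith [norm_nonneg (F' z)]
  have hDc : (D : ℂ) ≠ 0 := by exact_mod_cast hDpos.ne'
  have hD'c : (D' : ℂ) ≠ 0 := by exact_mod_cast hD'pos.ne'
  have e1 : H' z * conj (F' z) / (D' : ℂ) - H z * conj (F z) / (D : ℂ) =
      (H' z * conj (F' z) - H z * conj (F z)) / D' + H z * conj (F z) * ((D - D' : ℝ) : ℂ) / (D * D') := by
    push_cast
    field_simp
    ring
  rw [e1]
  have h1 : ‖H' z * conj (F' z) - H z * conj (F z)‖ ≤ 2 * δ := by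
    have e2 : H' z * conj (F' z) - H z * conj (F z) =
        H' z * conj (F' z - F z) + (H' z - H z) * conj (F z) := by
      rw [map_sub]
      ring
    rw [e2]
    refine (norm_add_le _ _).trans ?_
    rw [norm_mul, norm_mul, RCLike.norm_conj, RCLike.norm_conj]
    have := norm_nonneg (H' z - H z)
    have := norm_nonneg (F' z - F z)
    have := norm_nonneg (F z)
    have := norm_nonneg (H' z)
    nlinarith
  have h2 : |D - D'| ≤ 2 * δ := by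
    have e3 : D - D' = (‖F z‖ - ‖F' z‖) * (‖F z‖ + ‖F' z‖) := by
      rw [hD, hD']
      ring
    rw [e3, abs_mul]
    have h3 : |‖F z‖ - ‖F' z‖| ≤ δ := by
      refine (abs_norm_sub_norm_le _ _).trans ?_
      rw [norm_sub_rev]
      exact hFF'
    have h4 : |‖F z‖ + ‖F' z‖| ≤ 2 := by
      rw [abs_of_nonneg (by positivity)]
      linarith
    calc |‖F z‖ - ‖F' z‖| * |‖F z‖ + ‖F' z‖| ≤ δ * 2 := by gcongr
      _ = _ := by ring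
  refine (norm_add_le _ _).trans ?_
  have h5 : ‖(H' z * conj (F' z) - H z * conj (F z)) / (D' : ℂ)‖ ≤ 2 * δ / ε ^ 4 := by
    rw [norm_div, norm_real, Real.norm_eq_abs, abs_of_pos hD'pos]
    have h6 : ε ^ 4 ≤ D' := by
      refine le_trans ?_ hD'ε
      exact pow_le_pow_of_le_one hε.le hε1 (by norm_num)
    calc ‖H' z * conj (F' z) - H z * conj (F z)‖ / D' ≤ 2 * δ / D' := by gcongr
      _ ≤ _ := by gcongr
  have h7 : ‖H z * conj (F z) * ((D - D' : ℝ) : ℂ) / (D * D')‖ ≤ 2 * δ / ε ^ 4 := by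
    rw [norm_div, norm_mul, norm_mul, norm_mul, RCLike.norm_conj, norm_real, norm_real, norm_real,
      Real.norm_eq_abs, Real.norm_eq_abs, Real.norm_eq_abs, abs_of_pos hDpos, abs_of_pos hD'pos]
    have h8 : ε ^ 4 ≤ D * D' := by
      have : ε ^ 4 = ε ^ 2 * ε ^ 2 := by ring
      rw [this]
      gcongr
    calc ‖H z‖ * ‖F z‖ * |D - D'| / (D * D') ≤ 1 * 1 * (2 * δ) / (D * D') := by gcongr
      _ = 2 * δ / (D * D') := by ring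
      _ ≤ _ := by gcongr
  calc _ ≤ 2 * δ / ε ^ 4 + 2 * δ / ε ^ 4 := add_le_add h5 h7
    _ = _ := by ring

lemma Wf_sub_one_le {ε δ : ℝ} (hε : 0 < ε) (h : ‖H z - F z‖ ≤ δ) :
    ‖Wf F H ε z - 1‖ ≤ pf F ε z + δ / (2 * ε) := by
  have hδ : 0 ≤ δ := (norm_nonneg _).trans h
  have hD : (0:ℝ) < ‖F z‖ ^ 2 + ε ^ 2 := by positivity
  have hDc : ((‖F z‖ ^ 2 + ε ^ 2 : ℝ) : ℂ) ≠ 0 := by exact_mod_cast hD.ne'
  have e1 : Wf F H ε z - 1 = ((H z - F z) * conj (F z) - (ε : ℂ) ^ 2) / ((‖F z‖ ^ 2 + ε ^ 2 : ℝ) : ℂ) := by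
    rw [Wf, den_eq, div_sub_one hDc, ← den_eq]
    congr 1
    ring
  rw [e1, norm_div, norm_real, Real.norm_eq_abs, abs_of_pos hD, pf]
  have h1 : ‖(H z - F z) * conj (F z) - (ε : ℂ) ^ 2‖ ≤ δ * ‖F z‖ + ε ^ 2 := by
    refine (norm_sub_le _ _).trans ?_
    rw [norm_mul, RCLike.norm_conj, norm_pow, norm_real, Real.norm_eq_abs, abs_of_pos hε]
    gcongr
  have h2 : δ * ‖F z‖ / (‖F z‖ ^ 2 + ε ^ 2) ≤ δ / (2 * ε) := by
    rw [div_le_div_iff₀ hD (by positivity)]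
    nlinarith [sq_nonneg (‖F z‖ - ε)]
  calc ‖(H z - F z) * conj (F z) - (ε : ℂ) ^ 2‖ / (‖F z‖ ^ 2 + ε ^ 2)
      ≤ (δ * ‖F z‖ + ε ^ 2) / (‖F z‖ ^ 2 + ε ^ 2) := by gcongr
    _ = ε ^ 2 / (‖F z‖ ^ 2 + ε ^ 2) + δ * ‖F z‖ / (‖F z‖ ^ 2 + ε ^ 2) := by ring
    _ ≤ _ := by linarith

lemma pf_mono {ε ε' : ℝ} (hε' : 0 < ε') (hεε' : ε' ≤ ε) : pf F ε' z ≤ pf F ε z := by
  have hε : 0 < ε := hε'.trans_le hεε'
  unfold pf
  rw [div_le_div_iff₀ (by positivity) (by positivity)]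
  have h1 : ε' ^ 2 ≤ ε ^ 2 := by gcongr
  nlinarith [sq_nonneg (‖F z‖)]

end pointwise

lemma mc_sub_le {L : ℝ} (hL : 0 < L) {f g : ℂ → ℂ} {b : ℂ → ℝ} (hf : Continuous f)
    (hg : Continuous g) (hb : Continuous b) {x : ℝ}
    (h : ∀ y : ℝ, ‖f (x + y * I) - g (x + y * I)‖ ≤ b (x + y * I)) :
    ‖mc L f x - mc L g x‖ ≤ mn L b x := by
  unfold mc mn
  rw [← mul_sub, ← intervalIntegral.integral_sub
    ((by fun_prop : Continuous fun y : ℝ => f (x + y * I)).intervalIntegrable _ _)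
    ((by fun_prop : Continuous fun y : ℝ => g (x + y * I)).intervalIntegrable _ _),
    norm_mul, norm_inv, norm_real, Real.norm_eq_abs, abs_of_pos hL]
  refine mul_le_mul_of_nonneg_left ?_ (by positivity)
  refine intervalIntegral.norm_integral_le_of_norm_le hL.le (ae_of_all _ fun y _ => h y) ?_
  exact (by fun_prop : Continuous fun y : ℝ => b (x + y * I)).intervalIntegrable _ _

lemma mc_const {L : ℝ} (hL : 0 < L) (c : ℂ) (x : ℝ) : mc L (fun _ => c) x = c := by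
  have : (L : ℂ) ≠ 0 := by exact_mod_cast hL.ne'
  simp only [mc, intervalIntegral.integral_const, sub_zero, Complex.real_smul]
  field_simp

lemma Ma_sub_const_le {L : ℝ} {F H : ℂ → ℂ} {ε : ℝ} {n : ℕ} (hn : 0 < n) {x : ℝ} {c : ℂ} {B : ℝ}
    (h : ∀ i < n, ‖mc L (Wf F H (ε / 2 ^ i)) x - c‖ ≤ B) : ‖Ma L F H ε n x - c‖ ≤ B := by
  have hnpos : (0:ℝ) < n := by exact_mod_cast hn
  have hnc : (n : ℂ) ≠ 0 := by exact_mod_cast hn.ne'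
  have e1 : Ma L F H ε n x - c =
      (n : ℂ)⁻¹ * ∑ i ∈ Finset.range n, (mc L (Wf F H (ε / 2 ^ i)) x - c) := by
    unfold Ma
    rw [Finset.sum_sub_distrib, Finset.sum_const, Finset.card_range, nsmul_eq_mul]
    field_simp
  rw [e1, norm_mul, norm_inv, Complex.norm_natCast]
  have h1 : ‖∑ i ∈ Finset.range n, (mc L (Wf F H (ε / 2 ^ i)) x - c)‖ ≤ n * B := by
    refine (norm_sum_le _ _).trans ?_
    refine (Finset.sum_le_sum fun i hi => h i (Finset.mem_range.mp hi)).trans (le_of_eq ?_)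
    rw [Finset.sum_const, Finset.card_range, nsmul_eq_mul]
  calc (n:ℝ)⁻¹ * ‖∑ i ∈ Finset.range n, (mc L (Wf F H (ε / 2 ^ i)) x - c)‖
      ≤ (n:ℝ)⁻¹ * (n * B) := by gcongr
    _ = B := by field_simp

end Pool.Agent.helper21.SG
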