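import Mathlib
import Pool.Agent.helper21.SG.Chain

/-!
# Summation over scales, continued
-/

set_option autoImplicit false

open Complex MeasureTheory Set Filter Topology ComplexConjugate

namespace Pool.Agent.helper21.SG

/-- `(5/8)^j`. -/
noncomputable def rh (j : ℕ) : ℝ := (5 / 8) ^ j

lemma rh_pos (j : ℕ) : 0 < rh j := by unfold rh; positivity

lemma rh_succ (j : ℕ) : rh (j + 1) = 5 / 8 * rh j := by unfold rh; ring

lemma sD_eq (x1 : ℝ) (j : ℕ) : sD x1 j = sX x1 j ^ 2 / 32 * rh j := by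
  unfold sD sX rh
  have h1 : ((5:ℝ) / 2) ^ j = 4 ^ j * (5 / 8) ^ j := by
    rw [← mul_pow]
    norm_num
  have h2 : (2 ^ j * x1) ^ 2 = x1 ^ 2 * 4 ^ j := by
    rw [mul_pow, ← pow_mul, mul_comm j 2, pow_mul]
    norm_num
    ring
  rw [h1, h2]
  ring

/-- `256 ≤ X_j^2 ρ_j`. -/
lemma le_sX_sq_rh {x1 : ℝ} (h1 : 16 ≤ x1) (j : ℕ) : 256 ≤ sX x1 j ^ 2 * rh j := by
  have h := sD_eq x1 j
  have h2 := le_sD h1 j
  nlinarith

/-- `κ_j = X_j^2/128`. -/
noncomputable def kap (x1 : ℝ) (j : ℕ) : ℝ := sX x1 j ^ 2 / 128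

noncomputable def nn (x1 : ℝ) (j : ℕ) : ℕ := ⌊kap x1 j⌋₊

lemma le_kap {x1 : ℝ} (h1 : 16 ≤ x1) (j : ℕ) : 2 ≤ kap x1 j := by
  unfold kap
  have := le_sX h1 j
  nlinarith

lemma nn_le {x1 : ℝ} (h1 : 16 ≤ x1) (j : ℕ) : (nn x1 j : ℝ) ≤ kap x1 j :=
  Nat.floor_le (by linarith [le_kap h1 j])

lemma le_nn {x1 : ℝ} (h1 : 16 ≤ x1) (j : ℕ) : kap x1 j / 2 ≤ (nn x1 j : ℝ) := by
  have h2 := le_kap h1 j
  have h3 : kap x1 j < nn x1 j + 1 := Nat.lt_floor_add_one _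
  linarith

lemma nn_pos {x1 : ℝ} (h1 : 16 ≤ x1) (j : ℕ) : 0 < nn x1 j := by
  have h2 := le_kap h1 j
  have h3 := le_nn h1 j
  have : (0:ℝ) < nn x1 j := by linarith
  exact_mod_cast this

lemma sD_div_kap {x1 : ℝ} (h1 : 16 ≤ x1) (j : ℕ) : sD x1 j / kap x1 j = 4 * rh j := by
  have h2 := le_sX h1 j
  rw [sD_eq, kap]
  have : sX x1 j ≠ 0 := by linarith
  field_simp
  ring

/-- The regularisation parameter at scale `j`. -/
noncomputable def ep (x1 : ℝ) (j : ℕ) : ℝ := Real.exp (-kap x1 j)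

lemma ep_pos (x1 : ℝ) (j : ℕ) : 0 < ep x1 j := Real.exp_pos _

lemma ep_le_one {x1 : ℝ} (h1 : 16 ≤ x1) (j : ℕ) : ep x1 j ≤ 1 := by
  unfold ep
  exact Real.exp_le_one_iff.mpr (by linarith [le_kap h1 j])

lemma exp_neg_le_inv {u : ℝ} (hu : 0 < u) : Real.exp (-u) ≤ 1 / u := by
  rw [Real.exp_neg, ← one_div]
  apply one_div_le_one_div_of_le hu
  linarith [Real.add_one_le_exp u]

lemma exp_neg_le_inv_sq {u : ℝ} (hu : 0 < u) : Real.exp (-u) ≤ 4 / u ^ 2 := by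
  have h1 := exp_neg_le_inv (u := u / 2) (by positivity)
  have h2 : Real.exp (-u) = Real.exp (-(u / 2)) * Real.exp (-(u / 2)) := by
    rw [← Real.exp_add]
    congr 1
    ring
  rw [h2]
  calc Real.exp (-(u / 2)) * Real.exp (-(u / 2)) ≤ 1 / (u / 2) * (1 / (u / 2)) := by
        have := Real.exp_pos (-(u / 2))
        gcongr
    _ = 4 / u ^ 2 := by
        field_simp
        norm_num

lemma exp_kap_le {x1 : ℝ} (h1 : 16 ≤ x1) (j : ℕ) : Real.exp (-(2 * kap x1 j)) ≤ rh j := by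
  have h2 := le_kap h1 j
  refine (exp_neg_le_inv (by linarith)).trans ?_
  have h3 := le_sX_sq_rh h1 j
  rw [div_le_iff₀ (by linarith), kap]
  nlinarith [rh_pos j]

section fam

variable {L x1 l0 : ℝ} {P H : ℕ → ℂ → ℂ}

lemma Fam.pf_le (hL : 0 < L) (hP : Fam L x1 P) (h1 : 16 ≤ x1)
    (h0 : ∀ y0 : ℝ, ∃ y : ℝ, |y - y0| ≤ l0 ∧ Real.exp (-sD x1 0) ≤ ‖P 0 (sX x1 0 + y * I)‖) {j : ℕ}
    (hj : l0 ≤ sX x1 j) {x : ℝ} (hx : x ∈ Icc (sX x1 j) (2 * sX x1 j)) {κ : ℝ} (hκ : 0 < κ) :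
    mn L (pf (P j) (Real.exp (-κ))) x ≤ Real.exp (-(2 * κ)) + 700 * sD x1 j / κ := by
  have hX := le_sX h1 j
  refine (mean_pf_le (hP.diff j) hL hκ fun y => hP.bd j _ ?_).trans ?_
  · simp only [add_re, ofReal_re, mul_re, I_re, mul_zero, ofReal_im, I_im, mul_one, sub_self,
      add_zero]
    linarith [hx.1]
  · have h2 := hP.mean_le hL h1 h0 hj hx (ε := Real.exp (-κ)) (Real.exp_pos _)
      (Real.exp_le_one_iff.mpr (by linarith))
    gcongr

lemma Fam.pf_le' (hL : 0 < L) (hP : Fam L x1 P) (h1 : 16 ≤ x1)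
    (h0 : ∀ y0 : ℝ, ∃ y : ℝ, |y - y0| ≤ l0 ∧ Real.exp (-sD x1 0) ≤ ‖P 0 (sX x1 0 + y * I)‖) {j : ℕ}
    (hj : l0 ≤ sX x1 j) {x : ℝ} (hx : x ∈ Icc (sX x1 j) (2 * sX x1 j)) :
    mn L (pf (P j) (ep x1 j)) x ≤ 2801 * rh j := by
  have h2 := hP.pf_le hL h1 h0 hj hx (κ := kap x1 j) (by linarith [le_kap h1 j])
  have h3 := exp_kap_le h1 j
  have h4 := sD_div_kap h1 j
  have h5 : 700 * sD x1 j / kap x1 j = 2800 * rh j := by
    rw [mul_div_assoc, h4]
    ring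
  rw [h5] at h2
  unfold ep
  linarith

lemma Fam.pf_le'' (hL : 0 < L) (hP : Fam L x1 P) (h1 : 16 ≤ x1)
    (h0 : ∀ y0 : ℝ, ∃ y : ℝ, |y - y0| ≤ l0 ∧ Real.exp (-sD x1 0) ≤ ‖P 0 (sX x1 0 + y * I)‖) {j : ℕ}
    (hj : l0 ≤ sX x1 j) :
    mn L (pf (P (j + 1)) (ep x1 j)) (sX x1 (j + 1)) ≤ 7001 * rh j := by
  have hX := le_sX h1 j
  have h2 := hP.pf_le hL h1 h0 (j := j + 1) (by rw [sX_succ]; linarith)
    (x := sX x1 (j + 1)) (by
      rw [sX_succ]
      constructor <;> linarith) (κ := kap x1 j) (by linarith [le_kap h1 j])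
  have h3 := exp_kap_le h1 j
  have h4 := sD_div_kap h1 j
  have h5 : 700 * sD x1 (j + 1) / kap x1 j = 7000 * rh j := by
    rw [sD_succ, mul_div_assoc, mul_div_assoc, h4]
    ring
  rw [h5] at h2
  unfold ep
  linarith

/-- Error term. -/
lemma eta_le_ep {x1 : ℝ} (h1 : 16 ≤ x1) (j : ℕ) {i : ℕ} (hi : i ≤ nn x1 j) :
    Real.exp (-(sX x1 j ^ 2 / 64)) ≤ ep x1 j / 2 ^ i := by
  have h2 := nn_le h1 j
  have h3 : (2:ℝ) ^ i ≤ Real.exp (kap x1 j) := by
    have h4 : (2:ℝ) ^ i = Real.exp (i * Real.log 2) := by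
      rw [Real.exp_nat_mul, Real.exp_log (by norm_num)]
    rw [h4]
    apply Real.exp_le_exp.mpr
    have h5 : Real.log 2 < 0.6931471808 := Real.log_two_lt_d9
    have h6 : (0:ℝ) < Real.log 2 := Real.log_pos (by norm_num)
    have h7 : (i:ℝ) ≤ nn x1 j := by exact_mod_cast hi
    have h8 : (0:ℝ) ≤ i := by positivity
    nlinarith
  rw [le_div_iff₀ (by positivity)]
  calc Real.exp (-(sX x1 j ^ 2 / 64)) * 2 ^ i
      ≤ Real.exp (-(sX x1 j ^ 2 / 64)) * Real.exp (kap x1 j) := by gcongr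
    _ = ep x1 j := by
      rw [← Real.exp_add, ep]
      congr 1
      unfold kap
      ring

lemma small_term {x1 : ℝ} (h1 : 16 ≤ x1) (j : ℕ) :
    (nn x1 j : ℝ) * (2 * Real.exp (-(sX x1 j ^ 2 / 40)) ^ 2 * 4 ^ (nn x1 j) / ep x1 j ^ 2) ≤ rh j := by
  have hX := le_sX h1 j
  set t := sX x1 j ^ 2 with ht
  have htpos : 256 ≤ t := by rw [ht]; nlinarith
  have h2 := nn_le h1 j
  have hk : kap x1 j = t / 128 := rfl
  have h3 : (4:ℝ) ^ (nn x1 j) ≤ Real.exp (1.3863 * (t / 128)) := by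
    have h4 : (4:ℝ) ^ (nn x1 j) = Real.exp ((nn x1 j) * Real.log 4) := by
      rw [Real.exp_nat_mul, Real.exp_log (by norm_num)]
    have h4' : Real.log 4 = 2 * Real.log 2 := by
      rw [show (4:ℝ) = 2 ^ 2 by norm_num, Real.log_pow]
      push_cast
      ring
    rw [h4, h4']
    apply Real.exp_le_exp.mpr
    have h5 : Real.log 2 < 0.6931471808 := Real.log_two_lt_d9
    have h6 : (0:ℝ) < Real.log 2 := Real.log_pos (by norm_num)
    have h8 : (0:ℝ) ≤ nn x1 j := by positivity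
    rw [hk] at h2
    nlinarith
  have e1 : Real.exp (-(t / 40)) ^ 2 = Real.exp (-(t / 20)) := by
    rw [← Real.exp_nat_mul]
    congr 1
    push_cast
    ring
  have e2 : ep x1 j ^ 2 = Real.exp (-(t / 64)) := by
    rw [ep, hk, ← Real.exp_nat_mul]
    congr 1
    push_cast
    ring
  rw [e1, e2]
  have h5 : 2 * Real.exp (-(t / 20)) * 4 ^ (nn x1 j) / Real.exp (-(t / 64)) ≤
      2 * Real.exp (-(t / 43)) := by
    rw [div_le_iff₀ (Real.exp_pos _)]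
    calc 2 * Real.exp (-(t / 20)) * 4 ^ (nn x1 j)
        ≤ 2 * Real.exp (-(t / 20)) * Real.exp (1.3863 * (t / 128)) := by gcongr
      _ = 2 * Real.exp (-(t / 20) + 1.3863 * (t / 128)) := by rw [mul_assoc, ← Real.exp_add]
      _ ≤ 2 * Real.exp (-(t / 43) + -(t / 64)) := by
        have : -(t / 20) + 1.3863 * (t / 128) ≤ -(t / 43) + -(t / 64) := by
          have : 0 < t := by linarith
          linarith
        gcongr
      _ = _ := by rw [Real.exp_add, mul_assoc]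
  have h6 := exp_neg_le_inv_sq (u := t / 43) (by positivity)
  have h7 := le_sX_sq_rh h1 j
  rw [← ht] at h7
  have h9 : (nn x1 j : ℝ) * (2 * Real.exp (-(t / 43))) ≤ t / 128 * (2 * (4 / (t / 43) ^ 2)) := by
    rw [hk] at h2
    gcongr
  have h10 : t / 128 * (2 * (4 / (t / 43) ^ 2)) ≤ rh j := by
    have e3 : t / 128 * (2 * (4 / (t / 43) ^ 2)) = (7396 / 64) / t := by
      field_simp
      ring
    rw [e3, div_le_iff₀ (by linarith)]
    nlinarith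
  refine le_trans ?_ (h9.trans h10)
  gcongr

/-- Variation of the averaged mean over one scale. -/
lemma Fam.variation (hL : 0 < L) (hP : Fam L x1 P) (hH : Fam L x1 H) (h1 : 16 ≤ x1)
    (h0 : ∀ y0 : ℝ, ∃ y : ℝ, |y - y0| ≤ l0 ∧ Real.exp (-sD x1 0) ≤ ‖P 0 (sX x1 0 + y * I)‖) {j : ℕ}
    (hj : l0 ≤ sX x1 j)
    (hHP : ∀ x ∈ Icc (sX x1 j) (2 * sX x1 j), ∀ y : ℝ,
      ‖H j (x + y * I)‖ ≤ ‖P j (x + y * I)‖ + Real.exp (-(sX x1 j ^ 2 / 40))) :
    ‖Ma L (P j) (H j) (ep x1 j) (nn x1 j) (2 * sX x1 j) -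
      Ma L (P j) (H j) (ep x1 j) (nn x1 j) (sX x1 j)‖ ≤ 14000 * rh j := by
  have hX := le_sX h1 j
  have hXpos : 0 < sX x1 j := by linarith
  have hn := nn_pos h1 j
  have hnpos : (0:ℝ) < nn x1 j := by exact_mod_cast hn
  have hnle := le_nn h1 j
  have hεpos := ep_pos x1 j
  have hε1 := ep_le_one h1 j
  have ha : ∀ i < nn x1 j, ∫ x in (sX x1 j)..(2 * sX x1 j), mn L (en (P j) (ep x1 j / 2 ^ i)) x ≤
      700 * sD x1 j / sX x1 j := by
    intro i _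
    have hi0 : 0 < ep x1 j / 2 ^ i := by positivity
    have hi1 : ep x1 j / 2 ^ i ≤ 1 := by
      rw [div_le_one (by positivity)]
      have : (1:ℝ) ≤ 2 ^ i := one_le_pow₀ (by norm_num)
      linarith
    have h2 := energy_le hL (hP.diff j) (hP.per j) hi0 hi1 (x1 := sX x1 j) (x2 := 2 * sX x1 j)
      (d := sX x1 j / 2) (by positivity) (by linarith) (fun x' hx' y => hP.bd j _ (by
        simp only [add_re, ofReal_re, mul_re, I_re, mul_zero, ofReal_im, I_im, mul_one, sub_self,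
          add_zero]
        linarith))
    have h3 := hP.mean_le hL h1 h0 hj (x := sX x1 j) ⟨le_rfl, by linarith⟩ hi0 hi1
    refine h2.trans ?_
    have e1 : 2 * (sX x1 j / 2) = sX x1 j := by ring
    rw [e1]
    gcongr
  have h2 := Ma_sub_le hL (hP.diff j) (hH.diff j) (hP.per j) (hH.per j) hεpos
    (Real.exp_pos (-(sX x1 j ^ 2 / 40))).le hn (lam := sX x1 j / nn x1 j) (by positivity)
    (x1 := sX x1 j) (x2 := 2 * sX x1 j) (by linarith) ha
    (fun x hx => hP.pf_le' hL h1 h0 hj hx) hHP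
  refine h2.trans ?_
  have h3 := small_term h1 j
  have e1 : (nn x1 j : ℝ) * (sX x1 j / nn x1 j) = sX x1 j := by field_simp
  have e2 : 2 * sX x1 j - sX x1 j = sX x1 j := by ring
  rw [e1, e2, inv_mul_cancel_left₀ hXpos.ne']
  have h4 : sX x1 j / nn x1 j * (700 * sD x1 j / sX x1 j) ≤ 5600 * rh j := by
    have e3 : sX x1 j / nn x1 j * (700 * sD x1 j / sX x1 j) = 700 * sD x1 j / nn x1 j := by
      field_simp
    rw [e3, div_le_iff₀ hnpos]
    have h5 := sD_div_kap h1 j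
    have h6 := le_kap h1 j
    rw [div_eq_iff (by linarith)] at h5
    rw [h5]
    have := rh_pos j
    nlinarith
  have := rh_pos j
  linarith

/-- Transition between consecutive scales. -/
lemma Fam.transition (hL : 0 < L) (hP : Fam L x1 P) (hH : Fam L x1 H) (h1 : 16 ≤ x1)
    (h0 : ∀ y0 : ℝ, ∃ y : ℝ, |y - y0| ≤ l0 ∧ Real.exp (-sD x1 0) ≤ ‖P 0 (sX x1 0 + y * I)‖) {j : ℕ}
    (hj : l0 ≤ sX x1 j)
    (hHP : ∀ x ∈ Icc (sX x1 j) (2 * sX x1 j), ∀ y : ℝ,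
      ‖H j (x + y * I)‖ ≤ ‖P j (x + y * I)‖ + Real.exp (-(sX x1 j ^ 2 / 40)))
    (hHP' : ∀ x ∈ Icc (sX x1 (j + 1)) (2 * sX x1 (j + 1)), ∀ y : ℝ,
      ‖H (j + 1) (x + y * I)‖ ≤ ‖P (j + 1) (x + y * I)‖ + Real.exp (-(sX x1 (j + 1) ^ 2 / 40))) :
    ‖Ma L (P (j + 1)) (H (j + 1)) (ep x1 (j + 1)) (nn x1 (j + 1)) (sX x1 (j + 1)) -
      Ma L (P j) (H j) (ep x1 j) (nn x1 j) (sX x1 (j + 1))‖ ≤ 17400 * rh j := by
  have hX := le_sX h1 j
  have hX' := le_sX h1 (j + 1)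
  have hXs := sX_succ x1 j
  have hXpos : 0 < sX x1 j := by linarith
  have hrh := rh_pos j
  have hx1 : sX x1 (j + 1) ∈ Icc (sX x1 j) (2 * sX x1 j) := by
    rw [hXs]
    constructor <;> linarith
  have hx2 : sX x1 (j + 1) ∈ Icc (sX x1 (j + 1)) (2 * sX x1 (j + 1)) := ⟨le_rfl, by linarith⟩
  -- general comparison within one scale
  have key : ∀ k : ℕ, l0 ≤ sX x1 k → (∀ x ∈ Icc (sX x1 k) (2 * sX x1 k), ∀ y : ℝ,
      ‖H k (x + y * I)‖ ≤ ‖P k (x + y * I)‖ + Real.exp (-(sX x1 k ^ 2 / 40))) →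
      ∀ x ∈ Icc (sX x1 k) (2 * sX x1 k),
      ‖Ma L (P k) (H k) (ep x1 k) (nn x1 k) x - mc L (Wf (P k) (H k) (ep x1 k)) x‖ ≤
        3 / 2 * (2801 * rh k) := by
    intro k hk hHPk x hx
    refine Ma_sub_const_le (nn_pos h1 k) fun i hi => ?_
    have hεpos := ep_pos x1 k
    have hi0 : 0 < ep x1 k / 2 ^ i := by positivity
    have hi1 : ep x1 k / 2 ^ i ≤ ep x1 k := by
      rw [div_le_iff₀ (by positivity)]
      have : (1:ℝ) ≤ 2 ^ i := one_le_pow₀ (by norm_num)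
      nlinarith
    have hη : Real.exp (-(sX x1 k ^ 2 / 40)) ≤ ep x1 k / 2 ^ i := by
      refine le_trans ?_ (eta_le_ep h1 k hi.le)
      apply Real.exp_le_exp.mpr
      have := sq_nonneg (sX x1 k)
      linarith
    have hpfc := continuous_pf (hP.diff k).continuous hεpos
    have h2 := mc_sub_le hL (continuous_Wf (hP.diff k) (hH.diff k) hi0)
      (continuous_Wf (hP.diff k) (hH.diff k) hεpos) (b := fun z => 3 / 2 * pf (P k) (ep x1 k) z)
      (by fun_prop) (x := x) fun y =>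
        Wf_sub_le hi0 hi1 (Real.exp_pos _).le hη (hHPk x hx y)
    refine h2.trans ?_
    have h3 := hP.pf_le' hL h1 h0 hk hx
    have h4 : mn L (fun z => 3 / 2 * pf (P k) (ep x1 k) z) x = 3 / 2 * mn L (pf (P k) (ep x1 k)) x := by
      simp only [mn]
      rw [intervalIntegral.integral_const_mul]
      ring
    rw [h4]
    gcongr
  have hA := key j hj hHP _ hx1
  have hB := key (j + 1) (by rw [hXs]; linarith) hHP' _ hx2
  rw [rh_succ] at hB
  -- change of the parameter at the new scale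
  have hεpos := ep_pos x1 j
  have hε'pos := ep_pos x1 (j + 1)
  have hεε' : ep x1 (j + 1) ≤ ep x1 j := by
    unfold ep kap
    apply Real.exp_le_exp.mpr
    rw [hXs]
    nlinarith
  have hη' : Real.exp (-(sX x1 (j + 1) ^ 2 / 40)) ≤ ep x1 (j + 1) := by
    have := eta_le_ep h1 (j + 1) (i := 0) (Nat.zero_le _)
    simp only [pow_zero, div_one] at this
    refine le_trans ?_ this
    apply Real.exp_le_exp.mpr
    have := sq_nonneg (sX x1 (j + 1))
    linarith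
  have hC : ‖mc L (Wf (P (j + 1)) (H (j + 1)) (ep x1 (j + 1))) (sX x1 (j + 1)) -
      mc L (Wf (P (j + 1)) (H (j + 1)) (ep x1 j)) (sX x1 (j + 1))‖ ≤ 3 / 2 * (7001 * rh j) := by
    have hpfc := continuous_pf (hP.diff (j + 1)).continuous hεpos
    have h2 := mc_sub_le hL (continuous_Wf (hP.diff (j + 1)) (hH.diff (j + 1)) hε'pos)
      (continuous_Wf (hP.diff (j + 1)) (hH.diff (j + 1)) hεpos)
      (b := fun z => 3 / 2 * pf (P (j + 1)) (ep x1 j) z)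
      (by fun_prop) (x := sX x1 (j + 1)) fun y =>
        Wf_sub_le hε'pos hεε' (Real.exp_pos _).le hη' (hHP' _ hx2 y)
    refine h2.trans ?_
    have h3 := hP.pf_le'' hL h1 h0 hj
    have h4 : mn L (fun z => 3 / 2 * pf (P (j + 1)) (ep x1 j) z) (sX x1 (j + 1)) =
        3 / 2 * mn L (pf (P (j + 1)) (ep x1 j)) (sX x1 (j + 1)) := by
      simp only [mn]
      rw [intervalIntegral.integral_const_mul]
      ring
    rw [h4]
    gcongr
  have hD : ‖mc L (Wf (P (j + 1)) (H (j + 1)) (ep x1 j)) (sX x1 (j + 1)) -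
      mc L (Wf (P j) (H j) (ep x1 j)) (sX x1 (j + 1))‖ ≤ rh j := by
    set δ := Real.exp (-(15 / 128 * sX x1 j ^ 2)) with hδ
    have hchg : ∀ Q : ℕ → ℂ → ℂ, Fam L x1 Q → ∀ y : ℝ,
        ‖Q (j + 1) (sX x1 (j + 1) + y * I) - Q j (sX x1 (j + 1) + y * I)‖ ≤ δ := by
      intro Q hQ y
      refine (hQ.chg j (j + 1) (Nat.le_succ j) _ ?_).trans (le_of_eq ?_)
      · simp only [add_re, ofReal_re, mul_re, I_re, mul_zero, ofReal_im, I_im, mul_one, sub_self,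
          add_zero]
        linarith
      · rw [hδ]
        congr 1
        simp only [add_re, ofReal_re, mul_re, I_re, mul_zero, ofReal_im, I_im, mul_one, sub_self,
          add_zero]
        rw [hXs]
        ring
    have hbd : ∀ Q : ℕ → ℂ → ℂ, Fam L x1 Q → ∀ y : ℝ,
        ‖Q (j + 1) (sX x1 (j + 1) + y * I)‖ ≤ 1 ∧ ‖Q j (sX x1 (j + 1) + y * I)‖ ≤ 1 := by
      intro Q hQ y
      constructor
      · refine hQ.bd _ _ ?_
        simp only [add_re, ofReal_re, mul_re, I_re, mul_zero, ofReal_im, I_im, mul_one, sub_self,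
          add_zero]
        linarith
      · refine hQ.bd _ _ ?_
        simp only [add_re, ofReal_re, mul_re, I_re, mul_zero, ofReal_im, I_im, mul_one, sub_self,
          add_zero]
        linarith
    have h2 := mc_sub_le hL (continuous_Wf (hP.diff (j + 1)) (hH.diff (j + 1)) hεpos)
      (continuous_Wf (hP.diff j) (hH.diff j) hεpos)
      (b := fun _ => 4 * δ / ep x1 j ^ 4) continuous_const (x := sX x1 (j + 1)) fun y =>
        Wf_lip hεpos (ep_le_one h1 j) (hbd P hP y).2 (hbd P hP y).1 (hbd H hH y).2 (hbd H hH y).1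
          (hchg P hP y) (hchg H hH y)
    rw [mn_const hL] at h2
    refine h2.trans ?_
    have e1 : ep x1 j ^ 4 = Real.exp (-(4 / 128 * sX x1 j ^ 2)) := by
      rw [ep, kap, ← Real.exp_nat_mul]
      congr 1
      push_cast
      ring
    have e2 : 4 * δ / ep x1 j ^ 4 = 4 * Real.exp (-(11 / 128 * sX x1 j ^ 2)) := by
      rw [e1, hδ, div_eq_iff (Real.exp_pos _).ne', mul_assoc, ← Real.exp_add]
      congr 2
      ring
    rw [e2]
    have h3 := exp_neg_le_inv (u := 11 / 128 * sX x1 j ^ 2) (by positivity)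
    have h4 := le_sX_sq_rh h1 j
    have h5 : 1 / (11 / 128 * sX x1 j ^ 2) ≤ rh j / 4 := by
      rw [div_le_iff₀ (by positivity)]
      nlinarith
    linarith
  have e1 : Ma L (P (j + 1)) (H (j + 1)) (ep x1 (j + 1)) (nn x1 (j + 1)) (sX x1 (j + 1)) -
      Ma L (P j) (H j) (ep x1 j) (nn x1 j) (sX x1 (j + 1)) =
      (Ma L (P (j + 1)) (H (j + 1)) (ep x1 (j + 1)) (nn x1 (j + 1)) (sX x1 (j + 1)) -
        mc L (Wf (P (j + 1)) (H (j + 1)) (ep x1 (j + 1))) (sX x1 (j + 1))) +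
      (mc L (Wf (P (j + 1)) (H (j + 1)) (ep x1 (j + 1))) (sX x1 (j + 1)) -
        mc L (Wf (P (j + 1)) (H (j + 1)) (ep x1 j)) (sX x1 (j + 1))) +
      (mc L (Wf (P (j + 1)) (H (j + 1)) (ep x1 j)) (sX x1 (j + 1)) -
        mc L (Wf (P j) (H j) (ep x1 j)) (sX x1 (j + 1))) -
      (Ma L (P j) (H j) (ep x1 j) (nn x1 j) (sX x1 (j + 1)) -
        mc L (Wf (P j) (H j) (ep x1 j)) (sX x1 (j + 1))) := by ring
  rw [e1]
  refine (norm_sub_le _ _).trans ?_
  have h6 := (norm_add_le ((Ma L (P (j + 1)) (H (j + 1)) (ep x1 (j + 1)) (nn x1 (j + 1)) (sX x1 (j + 1)) -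
        mc L (Wf (P (j + 1)) (H (j + 1)) (ep x1 (j + 1))) (sX x1 (j + 1))) +
      (mc L (Wf (P (j + 1)) (H (j + 1)) (ep x1 (j + 1))) (sX x1 (j + 1)) -
        mc L (Wf (P (j + 1)) (H (j + 1)) (ep x1 j)) (sX x1 (j + 1))))
      (mc L (Wf (P (j + 1)) (H (j + 1)) (ep x1 j)) (sX x1 (j + 1)) -
        mc L (Wf (P j) (H j) (ep x1 j)) (sX x1 (j + 1))))
  have h7 := (norm_add_le (Ma L (P (j + 1)) (H (j + 1)) (ep x1 (j + 1)) (nn x1 (j + 1)) (sX x1 (j + 1)) -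
        mc L (Wf (P (j + 1)) (H (j + 1)) (ep x1 (j + 1))) (sX x1 (j + 1)))
      (mc L (Wf (P (j + 1)) (H (j + 1)) (ep x1 (j + 1))) (sX x1 (j + 1)) -
        mc L (Wf (P (j + 1)) (H (j + 1)) (ep x1 j)) (sX x1 (j + 1))))
  linarith

/-- The total variation. -/
lemma Fam.total (hL : 0 < L) (hP : Fam L x1 P) (hH : Fam L x1 H) (h1 : 16 ≤ x1)
    (h0 : ∀ y0 : ℝ, ∃ y : ℝ, |y - y0| ≤ l0 ∧ Real.exp (-sD x1 0) ≤ ‖P 0 (sX x1 0 + y * I)‖)
    {j1 : ℕ} (hj : l0 ≤ sX x1 j1) {J : ℕ} (hJ : j1 ≤ J)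
    (hHP : ∀ j, j1 ≤ j → j ≤ J → ∀ x ∈ Icc (sX x1 j) (2 * sX x1 j), ∀ y : ℝ,
      ‖H j (x + y * I)‖ ≤ ‖P j (x + y * I)‖ + Real.exp (-(sX x1 j ^ 2 / 40))) :
    ‖Ma L (P J) (H J) (ep x1 J) (nn x1 J) (sX x1 J) -
      Ma L (P j1) (H j1) (ep x1 j1) (nn x1 j1) (sX x1 j1)‖ ≤ 90000 * (rh j1 - rh J) := by
  induction J, hJ using Nat.le_induction with
  | base => simp
  | succ J hJ ih =>
    have ih' := ih fun j hj1 hjJ => hHP j hj1 (by omega)
    have hlJ : l0 ≤ sX x1 J := by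
      refine hj.trans ?_
      unfold sX
      have : (2:ℝ) ^ j1 ≤ 2 ^ J := pow_le_pow_right₀ (by norm_num) hJ
      have : 0 ≤ x1 := by linarith
      gcongr
    have h2 := hP.variation hL hH h1 h0 hlJ (hHP J hJ (Nat.le_succ J))
    have h3 := hP.transition hL hH h1 h0 hlJ (hHP J hJ (Nat.le_succ J))
      (hHP (J + 1) (by omega) le_rfl)
    rw [← sX_succ] at h2
    rw [rh_succ]
    have hrh := rh_pos J
    have e1 : Ma L (P (J + 1)) (H (J + 1)) (ep x1 (J + 1)) (nn x1 (J + 1)) (sX x1 (J + 1)) -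
        Ma L (P j1) (H j1) (ep x1 j1) (nn x1 j1) (sX x1 j1) =
        (Ma L (P (J + 1)) (H (J + 1)) (ep x1 (J + 1)) (nn x1 (J + 1)) (sX x1 (J + 1)) -
          Ma L (P J) (H J) (ep x1 J) (nn x1 J) (sX x1 (J + 1))) +
        (Ma L (P J) (H J) (ep x1 J) (nn x1 J) (sX x1 (J + 1)) -
          Ma L (P J) (H J) (ep x1 J) (nn x1 J) (sX x1 J)) +
        (Ma L (P J) (H J) (ep x1 J) (nn x1 J) (sX x1 J) -
          Ma L (P j1) (H j1) (ep x1 j1) (nn x1 j1) (sX x1 j1)) := by ring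
    rw [e1]
    refine (norm_add₃_le).trans ?_
    linarith

end fam

end Pool.Agent.helper21.SG
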