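import Mathlib
import Pool.Agent.helper21.SG.Chain2

/-!
# The contradiction
-/

set_option autoImplicit false

open Complex MeasureTheory Set Filter Topology ComplexConjugate

namespace Pool.Agent.helper21.SG

variable {L x1 l0 : ℝ} {P H : ℕ → ℂ → ℂ}

lemma Fam.start (hL : 0 < L) (hP : Fam L x1 P) (hH : Fam L x1 H) (h1 : 16 ≤ x1)
    (h0 : ∀ y0 : ℝ, ∃ y : ℝ, |y - y0| ≤ l0 ∧ Real.exp (-sD x1 0) ≤ ‖P 0 (sX x1 0 + y * I)‖) {j : ℕ}
    (hj : l0 ≤ sX x1 j)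
    (hinit : ∀ y : ℝ, ‖H j (sX x1 j + y * I) - P j (sX x1 j + y * I)‖ ≤
      Real.exp (-(sX x1 j ^ 2 / 64)) / 4) :
    ‖Ma L (P j) (H j) (ep x1 j) (nn x1 j) (sX x1 j) - 1‖ ≤ 2801 * rh j + 1 / 8 := by
  have hX := le_sX h1 j
  refine Ma_sub_const_le (nn_pos h1 j) fun i hi => ?_
  have hεpos := ep_pos x1 j
  have hi0 : 0 < ep x1 j / 2 ^ i := by positivity
  have hi1 : ep x1 j / 2 ^ i ≤ ep x1 j := by
    rw [div_le_iff₀ (by positivity)]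
    have : (1:ℝ) ≤ 2 ^ i := one_le_pow₀ (by norm_num)
    nlinarith
  have hη := eta_le_ep h1 j hi.le
  have hpfc := continuous_pf (hP.diff j).continuous hεpos
  have h2 := mc_sub_le hL (continuous_Wf (hP.diff j) (hH.diff j) hi0) (g := fun _ => 1)
    continuous_const (b := fun z => pf (P j) (ep x1 j) z + 1 / 8) (by fun_prop) (x := sX x1 j)
    fun y => by
      refine (Wf_sub_one_le hi0 (hinit y)).trans ?_
      have h3 := pf_mono (F := P j) (z := sX x1 j + y * I) hi0 hi1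
      have h4 : Real.exp (-(sX x1 j ^ 2 / 64)) / 4 / (2 * (ep x1 j / 2 ^ i)) ≤ 1 / 8 := by
        rw [div_le_iff₀ (by positivity)]
        linarith
      linarith
  rw [mc_const hL] at h2
  refine h2.trans ?_
  have h3 := hP.pf_le' hL h1 h0 hj (x := sX x1 j) ⟨le_rfl, by linarith⟩
  have h4 : mn L (fun z => pf (P j) (ep x1 j) z + 1 / 8) (sX x1 j) =
      mn L (pf (P j) (ep x1 j)) (sX x1 j) + 1 / 8 := by
    simp only [mn]
    rw [intervalIntegral.integral_add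
      ((by fun_prop : Continuous fun y : ℝ => pf (P j) (ep x1 j) (sX x1 j + y * I)).intervalIntegrable
        _ _) (by simp), intervalIntegral.integral_const]
    generalize (∫ y in (0:ℝ)..L, pf (P j) (ep x1 j) (sX x1 j + y * I)) = J
    simp only [sub_zero, smul_eq_mul]
    field_simp
  rw [h4]
  linarith

lemma Wf_small {P H : ℂ → ℂ} {z : ℂ} {n : ℕ} (hn : 0 < n) {κ ε η σ : ℝ} (hε : 0 < ε)
    (hη : 0 ≤ η) (hηε : η ≤ ε) (hH : ‖H z‖ ≤ ‖P z‖ + η) (hκ : 0 ≤ κ)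
    (hpow : ‖H z‖ ^ n ≤ ‖P z‖ ^ (n + 1) + Real.exp (-(2 * n * κ))) (hσ : ‖P z‖ ≤ σ)
    (hσn : 2 * σ ≤ (1 / 16) ^ n) :
    ‖Wf P H ε z‖ ≤ 1 / 16 + 3 * pf P (Real.exp (-κ)) z := by
  rcases le_or_gt (Real.exp (-κ)) ‖P z‖ with h | h
  · have h1 : Real.exp (-(2 * n * κ)) ≤ ‖P z‖ ^ (n + 1) := by
      have h2 : Real.exp (-κ) ^ (n + 1) ≤ ‖P z‖ ^ (n + 1) := by
        have := Real.exp_pos (-κ)
        gcongr
      refine le_trans ?_ h2
      rw [← Real.exp_nat_mul]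
      apply Real.exp_le_exp.mpr
      push_cast
      have : (1:ℝ) ≤ n := by exact_mod_cast hn
      nlinarith
    have hP0 : 0 ≤ ‖P z‖ := norm_nonneg _
    have h3 : ‖H z‖ ^ n ≤ (‖P z‖ / 16) ^ n := by
      calc ‖H z‖ ^ n ≤ 2 * ‖P z‖ ^ (n + 1) := by linarith
        _ = (2 * ‖P z‖) * ‖P z‖ ^ n := by ring
        _ ≤ (2 * σ) * ‖P z‖ ^ n := by gcongr
        _ ≤ (1 / 16) ^ n * ‖P z‖ ^ n := by gcongr
        _ = (‖P z‖ / 16) ^ n := by rw [← mul_pow]; congr 1; ring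
    have h4 : ‖H z‖ ≤ ‖P z‖ / 16 := by
      exact (pow_le_pow_iff_left₀ (norm_nonneg _) (by positivity) hn.ne').mp h3
    have h5 : ‖Wf P H ε z‖ ≤ 1 / 16 := by
      rw [norm_Wf hε, div_le_iff₀ (by positivity)]
      nlinarith [sq_nonneg ε]
    have := pf_nonneg P (Real.exp (-κ)) z
    linarith
  · have h1 := norm_Wf_le hε hη hηε hH
    have h2 : 1 / 2 ≤ pf P (Real.exp (-κ)) z := by
      rw [pf, le_div_iff₀ (by
        have := Real.exp_pos (-κ)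
        positivity)]
      have h3 : ‖P z‖ ^ 2 ≤ Real.exp (-κ) ^ 2 := by
        have := norm_nonneg (P z)
        gcongr
      linarith
    linarith

lemma Fam.finish (hL : 0 < L) (hP : Fam L x1 P) (hH : Fam L x1 H) (h1 : 16 ≤ x1)
    (h0 : ∀ y0 : ℝ, ∃ y : ℝ, |y - y0| ≤ l0 ∧ Real.exp (-sD x1 0) ≤ ‖P 0 (sX x1 0 + y * I)‖) {j : ℕ}
    (hj : l0 ≤ sX x1 j) {n : ℕ} (hn : 0 < n)
    (hHP : ∀ x ∈ Icc (sX x1 j) (2 * sX x1 j), ∀ y : ℝ,
      ‖H j (x + y * I)‖ ≤ ‖P j (x + y * I)‖ + Real.exp (-(sX x1 j ^ 2 / 40)))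
    (hpow : ∀ y : ℝ, ‖H j (sX x1 j + y * I)‖ ^ n ≤
      ‖P j (sX x1 j + y * I)‖ ^ (n + 1) + Real.exp (-(sX x1 j ^ 2 / 32)))
    {σ : ℝ} (hσ : ∀ y : ℝ, ‖P j (sX x1 j + y * I)‖ ≤ σ) (hσn : 2 * σ ≤ (1 / 16) ^ n)
    (hJ : 70000 * (n * rh j) ≤ 1) :
    ‖Ma L (P j) (H j) (ep x1 j) (nn x1 j) (sX x1 j) - 0‖ ≤ 1 / 8 := by
  have hX := le_sX h1 j
  have hXpos : 0 < sX x1 j := by linarith
  have hnpos : (0:ℝ) < n := by exact_mod_cast hn
  set κ : ℝ := sX x1 j ^ 2 / (64 * n) with hκ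
  have hκpos : 0 < κ := by positivity
  have hκn : 2 * n * κ = sX x1 j ^ 2 / 32 := by
    rw [hκ]
    field_simp
    norm_num
  refine Ma_sub_const_le (nn_pos h1 j) fun i hi => ?_
  have hεpos := ep_pos x1 j
  have hi0 : 0 < ep x1 j / 2 ^ i := by positivity
  have hη : Real.exp (-(sX x1 j ^ 2 / 40)) ≤ ep x1 j / 2 ^ i := by
    refine le_trans ?_ (eta_le_ep h1 j hi.le)
    apply Real.exp_le_exp.mpr
    have := sq_nonneg (sX x1 j)
    linarith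
  have hx : sX x1 j ∈ Icc (sX x1 j) (2 * sX x1 j) := ⟨le_rfl, by linarith⟩
  have hpfc := continuous_pf (hP.diff j).continuous (Real.exp_pos (-κ))
  have h2 := mc_sub_le hL (continuous_Wf (hP.diff j) (hH.diff j) hi0) (g := fun _ => 0)
    continuous_const (b := fun z => 1 / 16 + 3 * pf (P j) (Real.exp (-κ)) z) (by fun_prop)
    (x := sX x1 j) fun y => by
      rw [sub_zero]
      refine Wf_small hn hi0 (Real.exp_pos _).le hη (hHP _ hx y) hκpos.le ?_ (hσ y) hσn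
      rw [hκn]
      exact hpow y
  rw [mc_const hL] at h2
  refine h2.trans ?_
  have h3 := hP.pf_le hL h1 h0 hj hx hκpos
  have h4 : mn L (fun z => 1 / 16 + 3 * pf (P j) (Real.exp (-κ)) z) (sX x1 j) =
      1 / 16 + 3 * mn L (pf (P j) (Real.exp (-κ))) (sX x1 j) := by
    simp only [mn]
    have hc : Continuous fun y : ℝ => pf (P j) (Real.exp (-κ)) (sX x1 j + y * I) := by fun_prop
    rw [intervalIntegral.integral_add (by simp) ((hc.const_mul 3).intervalIntegrable _ _),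
      intervalIntegral.integral_const, intervalIntegral.integral_const_mul]
    generalize (∫ y in (0:ℝ)..L, pf (P j) (Real.exp (-κ)) (sX x1 j + y * I)) = J
    simp only [sub_zero, smul_eq_mul]
    field_simp
  rw [h4]
  have h5 : 700 * sD x1 j / κ = 1400 * (n * rh j) := by
    rw [sD_eq, hκ]
    field_simp
    ring
  have h6 : Real.exp (-(2 * κ)) ≤ n * rh j := by
    refine (exp_neg_le_inv (by positivity)).trans ?_
    have h7 := le_sX_sq_rh h1 j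
    have h8 : 1 / (2 * κ) = 32 * n / sX x1 j ^ 2 := by
      rw [hκ]
      field_simp
      norm_num
    rw [h8, div_le_iff₀ (by positivity)]
    nlinarith
  rw [h5] at h3
  linarith

/-- The contradiction between both ends. -/
theorem chain_contra (hL : 0 < L) (hP : Fam L x1 P) (hH : Fam L x1 H) (h1 : 16 ≤ x1)
    (h0 : ∀ y0 : ℝ, ∃ y : ℝ, |y - y0| ≤ l0 ∧ Real.exp (-sD x1 0) ≤ ‖P 0 (sX x1 0 + y * I)‖)
    {j1 J n : ℕ} (hj1J : j1 ≤ J) (hj : l0 ≤ sX x1 j1) (hρ : 90000 * rh j1 ≤ 1 / 8)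
    (hHP : ∀ j, j1 ≤ j → j ≤ J → ∀ x ∈ Icc (sX x1 j) (2 * sX x1 j), ∀ y : ℝ,
      ‖H j (x + y * I)‖ ≤ ‖P j (x + y * I)‖ + Real.exp (-(sX x1 j ^ 2 / 40)))
    (hinit : ∀ y : ℝ, ‖H j1 (sX x1 j1 + y * I) - P j1 (sX x1 j1 + y * I)‖ ≤
      Real.exp (-(sX x1 j1 ^ 2 / 64)) / 4)
    (hn : 0 < n)
    (hpow : ∀ y : ℝ, ‖H J (sX x1 J + y * I)‖ ^ n ≤
      ‖P J (sX x1 J + y * I)‖ ^ (n + 1) + Real.exp (-(sX x1 J ^ 2 / 32)))
    {σ : ℝ} (hσ : ∀ y : ℝ, ‖P J (sX x1 J + y * I)‖ ≤ σ) (hσn : 2 * σ ≤ (1 / 16) ^ n)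
    (hJ : 70000 * (n * rh J) ≤ 1) : False := by
  have hjJ : l0 ≤ sX x1 J := by
    refine hj.trans ?_
    unfold sX
    have : (2:ℝ) ^ j1 ≤ 2 ^ J := pow_le_pow_right₀ (by norm_num) hj1J
    have : 0 ≤ x1 := by linarith
    gcongr
  have hA := hP.start hL hH h1 h0 hj hinit
  have hB := hP.total hL hH h1 h0 hj hj1J hHP
  have hC := hP.finish hL hH h1 h0 hjJ hn (hHP J hj1J le_rfl) hpow hσ hσn hJ
  rw [sub_zero] at hC
  set M1 := Ma L (P j1) (H j1) (ep x1 j1) (nn x1 j1) (sX x1 j1)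
  set M2 := Ma L (P J) (H J) (ep x1 J) (nn x1 J) (sX x1 J)
  have e1 : (1 : ℂ) = M2 - (M2 - M1) - (M1 - 1) := by ring
  have h2 : ‖(1:ℂ)‖ ≤ ‖M2‖ + ‖M2 - M1‖ + ‖M1 - 1‖ := by
    calc ‖(1:ℂ)‖ = ‖M2 - (M2 - M1) - (M1 - 1)‖ := by rw [← e1]
      _ ≤ ‖M2 - (M2 - M1)‖ + ‖M1 - 1‖ := norm_sub_le _ _
      _ ≤ ‖M2‖ + ‖M2 - M1‖ + ‖M1 - 1‖ := by
        have := norm_sub_le M2 (M2 - M1)
        linarith
  rw [norm_one] at h2
  have := rh_pos J
  linarith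

end Pool.Agent.helper21.SG
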