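import Mathlib
import Pool.Agent.helper21.SG.Base
import Pool.Agent.helper21.SG.Chain3

/-!
# The weighted algebra has no nonzero continuous real semigroup
-/

set_option autoImplicit false

open Complex Set Filter Topology MeasureTheory

namespace Pool.Agent.helper21.SG

lemma sX_mono {x1 : ℝ} (h1 : 16 ≤ x1) {i j : ℕ} (hij : i ≤ j) : sX x1 i ≤ sX x1 j := by
  unfold sX
  have : (2:ℝ) ^ i ≤ 2 ^ j := pow_le_pow_right₀ (by norm_num) hij
  have : 0 ≤ x1 := by linarith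
  gcongr

lemma fam_of_adm {f : ℚ → ℂ} (hf : Adm f) (hn : nrm f ≤ 1) {x1 : ℝ} (h1 : 16 ≤ x1) {S : Finset ℚ}
    {N : ℕ} (hNS : ∀ r ∈ S, ∃ m : ℤ, r * N = m) :
    Fam (2 * Real.pi * N) x1 (fun j z => Ph (rs S f) (sX x1 j / 16) z) where
  diff := fun j => differentiable_Ph_rs S f _
  per := fun j z => Ph_rs_periodic S f _ hNS z
  bd := fun j z hz => ((hf.rs S).norm_Ph_le hz).trans ((hf.nrm_rs_le S).trans hn)
  chg := fun i j hij z hz => by
    have hX := le_sX h1 i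
    have hm := sX_mono h1 hij
    refine ((hf.rs S).Ph_change (T := sX x1 i / 16) (T' := sX x1 j / 16) (by linarith)
      (by linarith) hz).trans ?_
    have h2 := (hf.nrm_rs_le S).trans hn
    have h3 := Real.exp_pos (-(sX x1 i / 16 * (z.re - sX x1 j / 16)))
    nlinarith

lemma tendsto_sX {x1 : ℝ} (h1 : 16 ≤ x1) : Tendsto (sX x1) atTop atTop := by
  have h2 : Tendsto (fun j : ℕ => (2:ℝ) ^ j) atTop atTop :=
    tendsto_pow_atTop_atTop_of_one_lt (by norm_num)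
  exact h2.atTop_mul_const (by linarith)

lemma tendsto_rh : Tendsto rh atTop (𝓝 0) :=
  tendsto_pow_atTop_nhds_zero_of_lt_one (by norm_num) (by norm_num)

lemma Ph_rs_near {f : ℚ → ℂ} (hf : Adm f) {S : Finset ℚ} {τ : ℝ}
    (hS : nrm (fun r => f r - rs S f r) ≤ τ) {T : ℝ} {z : ℂ} (hz : T ≤ z.re) :
    ‖Ph f T z - Ph (rs S f) T z‖ ≤ τ := by
  rw [← hf.Ph_sub (hf.rs S) hz]
  exact ((hf.sub (hf.rs S)).norm_Ph_le hz).trans hS

lemma pow_near {u v τ : ℝ} (hu0 : 0 ≤ u) (hv0 : 0 ≤ v) (hu1 : u ≤ 1) (hv1 : v ≤ 1)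
    (h : u ≤ v + τ) (hτ : 0 ≤ τ) (n : ℕ) : u ^ n ≤ v ^ n + n * τ := by
  induction n with
  | zero => simp
  | succ n ih =>
    have h1 : u ^ n ≤ 1 := pow_le_one₀ hu0 hu1
    have h2 : 0 ≤ u ^ n := by positivity
    have h3 : 0 ≤ v ^ n := by positivity
    push_cast
    calc u ^ (n + 1) = u ^ n * u := pow_succ _ _
      _ ≤ u ^ n * (v + τ) := by gcongr
      _ = u ^ n * v + u ^ n * τ := by ring
      _ ≤ (v ^ n + n * τ) * v + 1 * τ := by gcongr
      _ = v ^ (n + 1) + n * τ * v + τ := by ring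
      _ ≤ v ^ (n + 1) + n * τ * 1 + τ := by gcongr
      _ = _ := by ring

theorem SGp.contra {a : ℝ → ℚ → ℂ} (ha : SGp a) {r0 : ℚ} (hr0 : a 1 r0 ≠ 0)
    (hcont : Tendsto (fun s => nrm (fun r => a s r - a 1 r)) (𝓝 1) (𝓝 0)) : False := by
  have ha1 := ha.adm 1 one_pos
  obtain ⟨x1, h16, S0, l0, hbase⟩ := base_exists ha1 hr0
  -- first scale
  obtain ⟨j1, hj1a, hj1b⟩ : ∃ j1 : ℕ, l0 ≤ sX x1 j1 ∧ 90000 * rh j1 ≤ 1 / 8 := by
    have h1 := (tendsto_sX h16).eventually_ge_atTop l0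
    have h2 : Tendsto (fun j => 90000 * rh j) atTop (𝓝 (90000 * 0)) := tendsto_rh.const_mul _
    rw [mul_zero] at h2
    have h3 := h2.eventually (gt_mem_nhds (by norm_num : (0:ℝ) < 1 / 8))
    obtain ⟨j, h4, h5⟩ := (h1.and h3).exists
    exact ⟨j, h4, h5.le⟩
  -- the exponent
  set δ1 : ℝ := Real.exp (-(sX x1 j1 ^ 2 / 64)) / 4 with hδ1
  have hδ1pos : 0 < δ1 := by positivity
  obtain ⟨n, hn, hnδ⟩ : ∃ n : ℕ, 0 < n ∧ nrm (fun r => a (1 + 1 / n) r - a 1 r) ≤ δ1 := by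
    have h1 : Tendsto (fun n : ℕ => (1:ℝ) + 1 / n) atTop (𝓝 (1 + 0)) :=
      tendsto_const_nhds.add tendsto_one_div_atTop_nhds_zero_nat
    rw [add_zero] at h1
    have h2 := (hcont.comp h1).eventually (gt_mem_nhds hδ1pos)
    obtain ⟨n, h3, h4⟩ := (h2.and (eventually_gt_atTop 0)).exists
    exact ⟨n, h4, h3.le⟩
  have hnpos : (0:ℝ) < n := by exact_mod_cast hn
  have hn1 : (1:ℝ) ≤ n := by exact_mod_cast hn
  set σ : ℝ := (1 / 16) ^ n / 2 with hσ
  have hσpos : 0 < σ := by positivity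
  obtain ⟨X0, hX0⟩ := decay ha1 hσpos
  -- last scale
  obtain ⟨J, hJ1, hJ2, hJ3⟩ : ∃ J : ℕ, j1 ≤ J ∧ X0 ≤ sX x1 J ∧ 70000 * (n * rh J) ≤ 1 := by
    have h1 := (tendsto_sX h16).eventually_ge_atTop X0
    have h2 : Tendsto (fun j => 70000 * ((n:ℝ) * rh j)) atTop (𝓝 (70000 * (n * 0))) :=
      (tendsto_rh.const_mul _).const_mul _
    rw [mul_zero, mul_zero] at h2
    have h3 := h2.eventually (gt_mem_nhds (by norm_num : (0:ℝ) < 1))
    obtain ⟨J, ⟨h4, h5⟩, h6⟩ := ((h1.and h3).and (eventually_ge_atTop j1)).exists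
    exact ⟨J, h6, h4, h5.le⟩
  set τ : ℝ := Real.exp (-(sX x1 J ^ 2 / 32)) / (4 * (2 * n + 1)) with hτ
  have hτpos : 0 < τ := by positivity
  have hb : 0 < (1:ℝ) + 1 / n := by positivity
  have hb1 : 1 ≤ (1:ℝ) + 1 / n := by
    have : 0 ≤ (1:ℝ) / n := by positivity
    linarith
  have hab := ha.adm _ hb
  obtain ⟨S1, hS1⟩ := ha1.exists_rs hτpos
  obtain ⟨S2, hS2⟩ := hab.exists_rs hτpos
  set S := S0 ∪ (S1 ∪ S2) with hS
  have hSS0 : S0 ⊆ S := Finset.subset_union_left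
  have hSS1 : S1 ⊆ S := Finset.subset_union_left.trans Finset.subset_union_right
  have hSS2 : S2 ⊆ S := Finset.subset_union_right.trans Finset.subset_union_right
  obtain ⟨N, hN, hNS⟩ := exists_den S
  have hNpos : (0:ℝ) < N := by exact_mod_cast hN
  have hpi := Real.pi_pos
  have hL : 0 < 2 * Real.pi * N := by positivity
  have hP := fam_of_adm ha1 (ha.nle 1 le_rfl) h16 hNS
  have hH := fam_of_adm hab (ha.nle _ hb1) h16 hNS
  have hnear1 : ∀ {T : ℝ} {z : ℂ}, T ≤ z.re → ‖Ph (a 1) T z - Ph (rs S (a 1)) T z‖ ≤ τ :=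
    fun hz => Ph_rs_near ha1 (hS1 S hSS1) hz
  have hnear2 : ∀ {T : ℝ} {z : ℂ}, T ≤ z.re →
      ‖Ph (a (1 + 1 / n)) T z - Ph (rs S (a (1 + 1 / n))) T z‖ ≤ τ :=
    fun hz => Ph_rs_near hab (hS2 S hSS2) hz
  have hre : ∀ x y : ℝ, ((x:ℂ) + y * I).re = x := fun x y => by simp
  refine chain_contra hL hP hH h16 (hbase S hSS0) hJ1 hj1a hj1b ?_ ?_ hn ?_
    (σ := σ) ?_ (by rw [hσ]; linarith) hJ3
  · -- comparison
    intro j _ hjJ x hx y
    have hXj := le_sX h16 j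
    set z : ℂ := (x:ℂ) + y * I with hz
    have hzre : z.re = x := hre x y
    have hzT : sX x1 j / 16 ≤ z.re := by rw [hzre]; linarith [hx.1]
    have h1 := ha.sup_bd (s := 1 / n) (by positivity) hzT
    have h2 := hnear1 hzT
    have h3 := hnear2 hzT
    have h4 : ‖Ph (rs S (a (1 + 1 / n))) (sX x1 j / 16) z‖ ≤
        ‖Ph (a (1 + 1 / n)) (sX x1 j / 16) z‖ + τ := by
      have h5 := norm_sub_norm_le (Ph (rs S (a (1 + 1 / n))) (sX x1 j / 16) z)
        (Ph (a (1 + 1 / n)) (sX x1 j / 16) z)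
      rw [norm_sub_rev] at h5
      linarith
    have h6 : ‖Ph (a 1) (sX x1 j / 16) z‖ ≤ ‖Ph (rs S (a 1)) (sX x1 j / 16) z‖ + τ := by
      have h5 := norm_sub_norm_le (Ph (a 1) (sX x1 j / 16) z)
        (Ph (rs S (a 1)) (sX x1 j / 16) z)
      linarith
    have h7 : √(2 * Real.exp (-(sX x1 j / 16 * (z.re - sX x1 j / 16)))) ≤
        Real.exp (-(sX x1 j ^ 2 / 40)) / 2 := by
      rw [Real.sqrt_le_left (by positivity), div_pow, ← Real.exp_nat_mul, hzre]
      set t := sX x1 j ^ 2 with ht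
      have ht256 : 256 ≤ t := by rw [ht]; nlinarith
      have h8 : sX x1 j / 16 * (x - sX x1 j / 16) ≥ 15 / 256 * t := by
        have := hx.1
        rw [ht]
        nlinarith
      have h9 : Real.exp (-(sX x1 j / 16 * (x - sX x1 j / 16))) ≤
          Real.exp (((2:ℕ):ℝ) * (-(t / 40))) * Real.exp (-(11 / 5)) := by
        rw [← Real.exp_add]
        apply Real.exp_le_exp.mpr
        push_cast
        linarith
      have h10 : Real.exp (-(11 / 5)) ≤ 1 / 8 := by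
        have h11 : (2.7182818283 : ℝ) < Real.exp 1 := Real.exp_one_gt_d9
        have h12 : Real.exp (11 / 5) ≥ 8 := by
          have e1 : Real.exp (11 / 5) = Real.exp 1 * Real.exp 1 * Real.exp (1 / 5) := by
            rw [← Real.exp_add, ← Real.exp_add]
            congr 1
            norm_num
          have h13 : 1 + 1 / 5 ≤ Real.exp (1 / 5) := by
            have := Real.add_one_le_exp (1 / 5 : ℝ)
            linarith
          rw [e1]
          have h14 : (7.38 : ℝ) ≤ Real.exp 1 * Real.exp 1 := by nlinarith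
          nlinarith
        rw [Real.exp_neg, inv_le_comm₀ (Real.exp_pos _) (by norm_num)]
        linarith
      have h15 := Real.exp_pos (((2:ℕ):ℝ) * (-(t / 40)))
      nlinarith
    have h8 : 2 * τ ≤ Real.exp (-(sX x1 j ^ 2 / 40)) / 2 := by
      have h9 : τ ≤ Real.exp (-(sX x1 J ^ 2 / 32)) / 4 := by
        rw [hτ]
        apply div_le_div_of_nonneg_left (Real.exp_pos _).le (by norm_num)
        linarith
      have h10 : Real.exp (-(sX x1 J ^ 2 / 32)) ≤ Real.exp (-(sX x1 j ^ 2 / 40)) := by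
        apply Real.exp_le_exp.mpr
        have h11 := sX_mono h16 hjJ
        nlinarith
      linarith
    have : ‖Ph (rs S (a (1 + 1 / n))) (sX x1 j / 16) z‖ ≤
        ‖Ph (rs S (a 1)) (sX x1 j / 16) z‖ + Real.exp (-(sX x1 j ^ 2 / 40)) := by linarith
    exact this
  · -- start
    intro y
    have hXj := le_sX h16 j1
    have hzT : sX x1 j1 / 16 ≤ ((sX x1 j1 : ℂ) + y * I).re := by rw [hre]; linarith
    have h1 : ‖Ph (rs S (a (1 + 1 / n))) (sX x1 j1 / 16) (sX x1 j1 + y * I) -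
        Ph (rs S (a 1)) (sX x1 j1 / 16) (sX x1 j1 + y * I)‖ ≤ δ1 := by
      rw [← (hab.rs S).Ph_sub (ha1.rs S) hzT]
      refine (((hab.rs S).sub (ha1.rs S)).norm_Ph_le hzT).trans ?_
      refine le_trans ?_ hnδ
      refine (hab.sub ha1).nrm_mono fun r => ?_
      unfold rs
      split_ifs <;> simp
    exact h1
  · -- powers
    intro y
    have hXj := le_sX h16 J
    set z : ℂ := (sX x1 J : ℂ) + y * I with hz
    have hzre : z.re = sX x1 J := hre _ y
    have hzT : sX x1 J / 16 ≤ z.re := by rw [hzre]; linarith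
    have h1 := ha.pow_eq hn hzT
    have h2 := hnear1 hzT
    have h3 := hnear2 hzT
    have h4 : ‖Ph (rs S (a (1 + 1 / n))) (sX x1 J / 16) z‖ ≤
        ‖Ph (a (1 + 1 / n)) (sX x1 J / 16) z‖ + τ := by
      have h5 := norm_sub_norm_le (Ph (rs S (a (1 + 1 / n))) (sX x1 J / 16) z)
        (Ph (a (1 + 1 / n)) (sX x1 J / 16) z)
      rw [norm_sub_rev] at h5
      linarith
    have h6 : ‖Ph (a 1) (sX x1 J / 16) z‖ ≤ ‖Ph (rs S (a 1)) (sX x1 J / 16) z‖ + τ := by
      have h5 := norm_sub_norm_le (Ph (a 1) (sX x1 J / 16) z)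
        (Ph (rs S (a 1)) (sX x1 J / 16) z)
      linarith
    have b1 : ‖Ph (rs S (a (1 + 1 / n))) (sX x1 J / 16) z‖ ≤ 1 := hH.bd J z hzT
    have b2 : ‖Ph (rs S (a 1)) (sX x1 J / 16) z‖ ≤ 1 := hP.bd J z hzT
    have b3 := ha.bd hb1 hzT
    have b4 := ha.bd le_rfl hzT
    have p1 := pow_near (norm_nonneg _) (norm_nonneg _) b1 b3 h4 hτpos.le n
    have p2 := pow_near (norm_nonneg _) (norm_nonneg _) b4 b2 h6 hτpos.le (n + 1)
    have p3 : ‖Ph (a (1 + 1 / n)) (sX x1 J / 16) z‖ ^ n ≤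
        ‖Ph (a 1) (sX x1 J / 16) z‖ ^ (n + 1) +
          2 * n * Real.exp (-(sX x1 J / 16 * (z.re - sX x1 J / 16))) := by
      have h5 := norm_sub_norm_le (Ph (a (1 + 1 / n)) (sX x1 J / 16) z ^ n)
        (Ph (a 1) (sX x1 J / 16) z ^ (n + 1))
      rw [norm_pow, norm_pow] at h5
      linarith
    have p4 : 2 * n * Real.exp (-(sX x1 J / 16 * (z.re - sX x1 J / 16))) ≤
        Real.exp (-(sX x1 J ^ 2 / 32)) / 2 := by
      rw [hzre]
      have e1 : -(sX x1 J / 16 * (sX x1 J - sX x1 J / 16)) =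
          -(sX x1 J ^ 2 / 32) + -(7 / 256 * sX x1 J ^ 2) := by ring
      rw [e1, Real.exp_add]
      have h7 := exp_neg_le_inv (u := 7 / 256 * sX x1 J ^ 2) (by positivity)
      have h8 := le_sX_sq_rh h16 J
      have h9 : 1 / (7 / 256 * sX x1 J ^ 2) ≤ rh J := by
        rw [div_le_iff₀ (by positivity)]
        nlinarith [rh_pos J]
      have h10 : 2 * n * Real.exp (-(7 / 256 * sX x1 J ^ 2)) ≤ 1 / 2 := by
        have h11 : (n:ℝ) * Real.exp (-(7 / 256 * sX x1 J ^ 2)) ≤ n * rh J := by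
          have := h7.trans h9
          gcongr
        linarith
      have h12 := Real.exp_pos (-(sX x1 J ^ 2 / 32))
      nlinarith
    have p5 : (2 * n + 1) * τ ≤ Real.exp (-(sX x1 J ^ 2 / 32)) / 2 := by
      rw [hτ]
      have h12 := Real.exp_pos (-(sX x1 J ^ 2 / 32))
      have e2 : (2 * (n:ℝ) + 1) * (Real.exp (-(sX x1 J ^ 2 / 32)) / (4 * (2 * n + 1))) =
          Real.exp (-(sX x1 J ^ 2 / 32)) / 4 := by
        field_simp
      rw [e2]
      linarith
    have : ‖Ph (rs S (a (1 + 1 / n))) (sX x1 J / 16) z‖ ^ n ≤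
        ‖Ph (rs S (a 1)) (sX x1 J / 16) z‖ ^ (n + 1) + Real.exp (-(sX x1 J ^ 2 / 32)) := by
      push_cast at p2
      linarith
    exact this
  · intro y
    exact hX0 _ hJ2 S _ (hre _ y)

end Pool.Agent.helper21.SG
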