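import Mathlib
import Pool.Agent.helper21.SG.Final

/-!
# Normalisation, and the main theorem
-/

set_option autoImplicit false

open Complex Set Filter Topology MeasureTheory

namespace Pool.Agent.helper21.SG

lemma Adm.nrm_add_le {f g : ℚ → ℂ} (hf : Adm f) (hg : Adm g) :
    nrm (fun r => f r + g r) ≤ nrm f + nrm g := by
  unfold nrm
  rw [← hf.sum.tsum_add hg.sum]
  have h1 : ∀ r, ‖f r + g r‖ * wt r ≤ ‖f r‖ * wt r + ‖g r‖ * wt r := by
    intro r
    rw [← add_mul]
    exact mul_le_mul_of_nonneg_right (norm_add_le _ _) (wt_pos r).le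
  have h2 := hf.sum.add hg.sum
  exact (Summable.of_nonneg_of_le (fun r => mul_nonneg (norm_nonneg _) (wt_pos r).le) h1
    h2).tsum_le_tsum h1 h2

lemma Adm.smul {f : ℚ → ℂ} (hf : Adm f) (c : ℂ) : Adm fun r => c * f r where
  supp := fun r hr => by rw [hf.supp r hr, mul_zero]
  sum := by
    refine (hf.sum.mul_left ‖c‖).congr fun r => ?_
    rw [norm_mul, mul_assoc]

lemma nrm_smul (f : ℚ → ℂ) (c : ℂ) : nrm (fun r => c * f r) = ‖c‖ * nrm f := by
  unfold nrm
  rw [← tsum_mul_left]
  refine tsum_congr fun r => ?_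
  rw [norm_mul, mul_assoc]

lemma cv_smul (f g : ℚ → ℂ) (c d : ℂ) :
    cv (fun r => c * f r) (fun r => d * g r) = fun r => (c * d) * cv f g r := by
  funext r
  unfold cv
  rw [← tsum_mul_left]
  refine tsum_congr fun p => ?_
  ring

/-- Main theorem, in terms of families indexed by the rationals and supported on the positive
ones. -/
theorem main {a : ℝ → ℚ → ℂ} (hadm : ∀ t > 0, Adm (a t))
    (hmul : ∀ s > 0, ∀ t > 0, a (s + t) = cv (a s) (a t))
    (hcont : ∀ t > 0, Tendsto (fun s => nrm (fun r => a s r - a t r)) (𝓝 t) (𝓝 0)) :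
    ∀ t > 0, ∀ r, a t r = 0 := by
  intro t0 ht0 r0
  by_contra hr0
  set φ : ℝ → ℝ := fun t => nrm (a (t0 * t)) with hφ
  have hφ0 : ∀ t, 0 ≤ φ t := fun t => nrm_nonneg _
  have hpos : ∀ t, 0 < t → 0 < t0 * t := fun t ht => mul_pos ht0 ht
  have hcont' : ∀ t > 0, Tendsto (fun s => nrm (fun r => a (t0 * s) r - a (t0 * t) r)) (𝓝 t)
      (𝓝 0) := by
    intro t ht
    have h1 : Tendsto (fun s => t0 * s) (𝓝 t) (𝓝 (t0 * t)) := tendsto_id.const_mul t0
    exact (hcont (t0 * t) (hpos t ht)).comp h1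
  have hφc : ContinuousOn φ (Icc 1 2) := by
    intro t ht
    have ht' : 0 < t := by linarith [ht.1]
    refine ContinuousAt.continuousWithinAt ?_
    rw [ContinuousAt, tendsto_iff_norm_sub_tendsto_zero]
    refine squeeze_zero' (Eventually.of_forall fun s => norm_nonneg _) ?_ (hcont' t ht')
    filter_upwards [lt_mem_nhds ht'] with s hs
    have hs1 := hadm _ (hpos s hs)
    have ht1 := hadm _ (hpos t ht')
    rw [Real.norm_eq_abs, abs_sub_le_iff]
    constructor
    · have h1 := (hs1.sub ht1).nrm_add_le ht1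
      simp only [sub_add_cancel] at h1
      simp only [hφ]
      linarith
    · have h1 := (ht1.sub hs1).nrm_add_le hs1
      simp only [sub_add_cancel] at h1
      have h2 : nrm (fun r => a (t0 * t) r - a (t0 * s) r) =
          nrm (fun r => a (t0 * s) r - a (t0 * t) r) := by
        unfold nrm
        refine tsum_congr fun r => ?_
        rw [norm_sub_rev]
      simp only [hφ]
      linarith
  obtain ⟨M, hM⟩ := (isCompact_Icc (a := (1:ℝ)) (b := 2)).exists_bound_of_continuousOn hφc
  set K : ℝ := max M 1 with hK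
  have hK1 : 1 ≤ K := le_max_right _ _
  have hKpos : 0 < K := by linarith
  have hφK : ∀ t ∈ Icc (1:ℝ) 2, φ t ≤ K := fun t ht =>
    (Real.le_norm_self _).trans ((hM t ht).trans (le_max_left _ _))
  have hind : ∀ m : ℕ, ∀ t ∈ Icc ((m:ℝ) + 1) (m + 2), φ t ≤ K ^ (m + 1) := by
    intro m
    induction m with
    | zero =>
      intro t ht
      simp only [Nat.cast_zero, zero_add] at ht
      simpa using hφK t ht
    | succ m ih =>
      intro t ht
      push_cast at ht
      have hm : (0:ℝ) ≤ m := by positivity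
      have h1 : t - 1 ∈ Icc ((m:ℝ) + 1) (m + 2) := ⟨by linarith [ht.1], by linarith [ht.2]⟩
      have ht1 : 0 < t - 1 := by linarith [h1.1]
      have e1 : t0 * t = t0 * 1 + t0 * (t - 1) := by ring
      have h2 : φ t ≤ φ 1 * φ (t - 1) := by
        simp only [hφ]
        rw [e1, hmul _ (hpos 1 one_pos) _ (hpos _ ht1)]
        exact (hadm _ (hpos 1 one_pos)).nrm_cv_le (hadm _ (hpos _ ht1))
      have h3 := ih _ h1
      have h4 := hφK 1 ⟨le_rfl, by norm_num⟩
      calc φ t ≤ φ 1 * φ (t - 1) := h2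
        _ ≤ K * K ^ (m + 1) := by
          have := hφ0 (t - 1)
          gcongr
        _ = K ^ (m + 1 + 1) := by ring
  set κ : ℝ := Real.log K with hκ
  have hκ0 : 0 ≤ κ := Real.log_nonneg hK1
  have hbound : ∀ t, 1 ≤ t → φ t ≤ Real.exp (κ * t) := by
    intro t ht
    have hfl : 1 ≤ ⌊t⌋₊ := Nat.one_le_floor_iff t |>.mpr ht
    obtain ⟨m, hm⟩ : ∃ m, ⌊t⌋₊ = m + 1 := ⟨⌊t⌋₊ - 1, by omega⟩
    have h1 : ((m + 1 : ℕ) : ℝ) ≤ t := by rw [← hm]; exact Nat.floor_le (by linarith)
    have h2 : t < ((m + 1 : ℕ) : ℝ) + 1 := by rw [← hm]; exact Nat.lt_floor_add_one t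
    push_cast at h1 h2
    have h3 := hind m t ⟨h1, by linarith⟩
    have h4 : K ^ (m + 1) = Real.exp (κ * ((m + 1 : ℕ) : ℝ)) := by
      rw [mul_comm, Real.exp_nat_mul, hκ, Real.exp_log hKpos]
    rw [h4] at h3
    refine h3.trans ?_
    apply Real.exp_le_exp.mpr
    push_cast
    gcongr
  set c : ℝ → ℚ → ℂ := fun t r => ((Real.exp (-(κ * t)) : ℝ) : ℂ) * a (t0 * t) r with hc
  have hSG : SGp c := by
    refine ⟨fun t ht => (hadm _ (hpos t ht)).smul _, fun s hs t ht => ?_, fun t ht => ?_⟩
    · simp only [hc]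
      have e0 : t0 * (s + t) = t0 * s + t0 * t := by ring
      rw [cv_smul, mul_add κ, e0, hmul _ (hpos s hs) _ (hpos t ht)]
      funext r
      rw [← Complex.ofReal_mul, ← Real.exp_add]
      congr 3
      ring
    · simp only [hc]
      rw [nrm_smul, norm_real, Real.norm_eq_abs, abs_of_pos (Real.exp_pos _), Real.exp_neg,
        inv_mul_le_iff₀ (Real.exp_pos _), mul_one]
      exact hbound t ht
  refine hSG.contra (r0 := r0) ?_ ?_
  · simp only [hc, mul_one]
    exact mul_ne_zero (by exact_mod_cast (Real.exp_pos _).ne') hr0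
  · have h1 : Tendsto (fun s => Real.exp (-(κ * s)) * nrm (fun r => a (t0 * s) r - a (t0 * 1) r) +
        |Real.exp (-(κ * s)) - Real.exp (-(κ * 1))| * nrm (a (t0 * 1))) (𝓝 1) (𝓝 0) := by
      have h2 : Tendsto (fun s => Real.exp (-(κ * s))) (𝓝 1) (𝓝 (Real.exp (-(κ * 1)))) := by
        have : Continuous fun s => Real.exp (-(κ * s)) := by fun_prop
        exact this.tendsto 1
      have h3 := h2.mul (hcont' 1 one_pos)
      have h4 : Tendsto (fun s => |Real.exp (-(κ * s)) - Real.exp (-(κ * 1))|) (𝓝 1) (𝓝 0) := by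
        have := (h2.sub_const (Real.exp (-(κ * 1)))).abs
        simpa using this
      have h5 := h3.add (h4.mul_const (nrm (a (t0 * 1))))
      simpa using h5
    refine squeeze_zero' (Eventually.of_forall fun s => nrm_nonneg _) ?_ h1
    filter_upwards [lt_mem_nhds (one_pos : (0:ℝ) < 1)] with s hs
    have hs1 := hadm _ (hpos s hs)
    have h11 := hadm _ (hpos 1 one_pos)
    have e1 : (fun r => c s r - c 1 r) = fun r =>
        ((Real.exp (-(κ * s)) : ℝ) : ℂ) * (a (t0 * s) r - a (t0 * 1) r) +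
        ((Real.exp (-(κ * s)) - Real.exp (-(κ * 1)) : ℝ) : ℂ) * a (t0 * 1) r := by
      funext r
      simp only [hc]
      push_cast
      ring
    rw [e1]
    refine (((hs1.sub h11).smul _).nrm_add_le (h11.smul _)).trans (le_of_eq ?_)
    rw [nrm_smul, nrm_smul, norm_real, norm_real, Real.norm_eq_abs, Real.norm_eq_abs,
      abs_of_pos (Real.exp_pos _)]

/-- Main theorem, in terms of families indexed by the positive rationals. -/
theorem main_pos (a : ℝ → {r : ℚ // 0 < r} → ℂ)
    (hsum : ∀ t > 0, Summable fun r : {r : ℚ // 0 < r} =>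
      ‖a t r‖ * Real.exp (-((r : ℚ) : ℝ) ^ 2))
    (hmul : ∀ s > 0, ∀ t > 0, ∀ r : {r : ℚ // 0 < r},
      a (s + t) r = ∑' x : {x : {r : ℚ // 0 < r} × {r : ℚ // 0 < r} // x.1 + x.2 = r},
        a s x.1.1 * a t x.1.2)
    (hcont : ∀ t > 0, Tendsto (fun s => ∑' r : {r : ℚ // 0 < r},
      ‖a s r - a t r‖ * Real.exp (-((r : ℚ) : ℝ) ^ 2)) (𝓝 t) (𝓝 0)) :
    ∀ t > 0, a t = 0 := by
  set b : ℝ → ℚ → ℂ := fun t r => if h : 0 < r then a t ⟨r, h⟩ else 0 with hb
  have hbpos : ∀ t, ∀ r : {r : ℚ // 0 < r}, b t r = a t r := by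
    intro t r
    simp only [hb, dif_pos r.2]
  have hbneg : ∀ t, ∀ r : ℚ, r ≤ 0 → b t r = 0 := by
    intro t r hr
    simp only [hb, dif_neg (not_lt.mpr hr)]
  have hadm : ∀ t > 0, Adm (b t) := by
    intro t ht
    refine ⟨hbneg t, ?_⟩
    rw [← Subtype.val_injective.summable_iff (g := fun r : {r : ℚ // 0 < r} => (r : ℚ))]
    · refine (hsum t ht).congr fun r => ?_
      simp only [Function.comp, hbpos, wt]
    · intro r hr
      have : r ≤ 0 := by
        by_contra h
        exact hr ⟨⟨r, not_le.mp h⟩, rfl⟩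
      rw [hbneg t r this]
      simp
  have hmul' : ∀ s > 0, ∀ t > 0, b (s + t) = cv (b s) (b t) := by
    intro s hs t ht
    funext r
    rcases le_or_gt r 0 with hr | hr
    · rw [hbneg _ r hr]
      unfold cv
      have : ∀ p, b s p * b t (r - p) = 0 := by
        intro p
        rcases le_or_gt p 0 with hp | hp
        · rw [hbneg s p hp, zero_mul]
        · rw [hbneg t (r - p) (by linarith), mul_zero]
      simp [this]
    · have e1 : b (s + t) r = a (s + t) ⟨r, hr⟩ := hbpos (s + t) ⟨r, hr⟩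
      rw [e1, hmul s hs t ht]
      unfold cv
      set i : {x : {r : ℚ // 0 < r} × {r : ℚ // 0 < r} // x.1 + x.2 = ⟨r, hr⟩} → ℚ :=
        fun x => (x.1.1 : ℚ) with hi
      have hinj : Function.Injective i := by
        intro x y hxy
        have h1 : x.1.1 = y.1.1 := Subtype.ext hxy
        have h2 : x.1.2 = y.1.2 := by
          have hx := congrArg Subtype.val x.2
          have hy := congrArg Subtype.val y.2
          apply Subtype.ext
          change (x.1.1 : ℚ) + x.1.2 = r at hx
          change (y.1.1 : ℚ) + y.1.2 = r at hy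
          have h3 : (x.1.1 : ℚ) = y.1.1 := congrArg Subtype.val h1
          linarith
        exact Subtype.ext (Prod.ext h1 h2)
      rw [← hinj.tsum_eq (f := fun p => b s p * b t (r - p))]
      · refine tsum_congr fun x => ?_
        have hx := congrArg Subtype.val x.2
        change (x.1.1 : ℚ) + x.1.2 = r at hx
        have e2 : r - i x = (x.1.2 : ℚ) := by simp only [hi]; linarith
        rw [e2, hbpos t x.1.2]
        simp only [hi]
        rw [hbpos s x.1.1]
      · intro p hp
        have hp' : b s p * b t (r - p) ≠ 0 := hp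
        have h1 : 0 < p := by
          by_contra h
          exact hp' (by rw [hbneg s p (not_lt.mp h), zero_mul])
        have h2 : 0 < r - p := by
          by_contra h
          exact hp' (by rw [hbneg t (r - p) (not_lt.mp h), mul_zero])
        refine ⟨⟨(⟨p, h1⟩, ⟨r - p, h2⟩), ?_⟩, rfl⟩
        apply Subtype.ext
        change p + (r - p) = r
        ring
  have hcont' : ∀ t > 0, Tendsto (fun s => nrm (fun r => b s r - b t r)) (𝓝 t) (𝓝 0) := by
    intro t ht
    refine (hcont t ht).congr fun s => ?_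
    unfold nrm
    rw [← Subtype.val_injective.tsum_eq (g := fun r : {r : ℚ // 0 < r} => (r : ℚ))
      (f := fun r => ‖b s r - b t r‖ * wt r)]
    · refine tsum_congr fun r => ?_
      rw [hbpos, hbpos]
      rfl
    · intro r hr
      have : 0 < r := by
        by_contra h
        apply hr
        simp [hbneg _ r (not_lt.mp h)]
      exact ⟨⟨r, this⟩, rfl⟩
  intro t ht
  funext r
  have h1 := main hadm hmul' hcont' t ht r
  rw [hbpos] at h1
  exact h1

end Pool.Agent.helper21.SG
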